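import Pool.Agent.RNI.Defs
import Pool.Agent.NI.Adq

/-!
# Bas: joins and Turing reducibility

* `lf_jn`, `rt_jn`, `jn_lf_rt`: `omega`, `Nat` division.
* `TRed_refl`: the code `OCode.oracle` (`ofNat_surj`, or `OCode.ofNat 4`).
* `TRed_lf`: the code `comp oracle d` with `d` a code of `n ↦ 2 * n` (every primitive recursive function
  has a code: `adq_rec` and Mathlib's `Nat.Partrec` → `Nat.RecursiveIn` (file
  `Mathlib/Computability/RecursiveIn.lean`); or build it by hand with `prec`). `TRed_rt`: the same with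
  `2 * n + 1`.
* `TRed_jn`: let `f`, `g` be codes of the reductions. The code `comp (prec f (comp g left)) (pair h p)`, with `h`
  a code of `n ↦ n / 2` and `p` a code of `n ↦ n % 2`, computes `jn x y`: for `n % 2 = 0` the recursion gives
  `f.eval w (n / 2)`, for `n % 2 = 1` it gives `(f.eval w (n / 2)).bind fun i => g.eval w (n / 2)`
  (`OCode.left` applied to `pair (n / 2) (pair 0 i)` is `n / 2`). Alternatively with `tred_adequate` and the
  closure properties of `Nat.RecursiveIn`.
* `RC_lf`, `RC_rt`: `RC.tred`. `RC_join` (finitely many tables): `exists_join` and `TRed_refl`.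
-/

namespace Pool.Agent.RNI

open Pool.Agent.NI

theorem lf_jn (x y : Rl) : lf (jn x y) = x := by
  funext n
  show (if (2 * n) % 2 = 0 then x (2 * n / 2) else y (2 * n / 2)) = x n
  rw [if_pos (by omega)]
  congr 1
  omega

theorem rt_jn (x y : Rl) : rt (jn x y) = y := by
  funext n
  show (if (2 * n + 1) % 2 = 0 then x ((2 * n + 1) / 2) else y ((2 * n + 1) / 2)) = y n
  rw [if_neg (by omega)]
  congr 1
  omega

theorem jn_lf_rt (w : Rl) : jn (lf w) (rt w) = w := by
  funext n
  show (if n % 2 = 0 then w (2 * (n / 2)) else w (2 * (n / 2) + 1)) = w n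
  by_cases h : n % 2 = 0
  · rw [if_pos h]
    congr 1
    omega
  · rw [if_neg h]
    congr 1
    omega

theorem TRed_refl (x : Rl) : TRed x x := Pool.Agent.NI.TRed_refl x

/-- composition with a primitive recursive function -/
theorem Bas_comp (x w : Rl) (f : ℕ → ℕ) (hf : Nat.Primrec f) (h : TRed x w) :
    Nat.RecursiveIn {orc w} (fun n => Part.some (x (f n)).toNat) := by
  have h1 := (tred_adequate x w).1 h
  have h2 : Nat.RecursiveIn {orc w} (fun n => Part.some (f n)) := Nat.Primrec.recursiveIn hf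
  refine (Nat.RecursiveIn.comp h1 h2).of_eq fun n => ?_
  exact Part.bind_some (f n) (orc x)

theorem Bas_TRed (w : Rl) (f : ℕ → ℕ) (hf : Nat.Primrec f) :
    TRed (fun n => w (f n)) w := by
  refine (tred_adequate _ w).2 ?_
  exact (Bas_comp w w f hf (Pool.Agent.NI.TRed_refl w)).of_eq fun n => rfl

theorem Bas_double : Nat.Primrec (fun n => 2 * n) :=
  Primrec.nat_iff.1 (Primrec.nat_mul.comp (Primrec.const 2) Primrec.id)

theorem Bas_double1 : Nat.Primrec (fun n => 2 * n + 1) :=
  Primrec.nat_iff.1 (Primrec.succ.comp (Primrec.nat_mul.comp (Primrec.const 2) Primrec.id))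

theorem Bas_half : Nat.Primrec (fun n => n / 2) :=
  Primrec.nat_iff.1 (Primrec.nat_div.comp Primrec.id (Primrec.const 2))

/-- the selection -/
def Bas_sel (k : ℕ) : ℕ :=
  if k.unpair.1 % 2 = 0 then k.unpair.2.unpair.1 else k.unpair.2.unpair.2

theorem Bas_sel_prim : Nat.Primrec Bas_sel := by
  refine Primrec.nat_iff.1 ?_
  have h1 : Primrec (fun k : ℕ => k.unpair.1) := Primrec.fst.comp Primrec.unpair
  have h2 : Primrec (fun k : ℕ => k.unpair.2) := Primrec.snd.comp Primrec.unpair
  refine Primrec.ite ?_ (h1.comp h2) (h2.comp h2)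
  exact Primrec.eq.comp (Primrec.nat_mod.comp h1 (Primrec.const 2)) (Primrec.const 0)

theorem TRed_lf (w : Rl) : TRed (lf w) w := Bas_TRed w _ Bas_double

theorem TRed_rt (w : Rl) : TRed (rt w) w := Bas_TRed w _ Bas_double1

theorem TRed_jn (x y w : Rl) (hx : TRed x w) (hy : TRed y w) : TRed (jn x y) w := by
  refine (tred_adequate _ w).2 ?_
  have h1 := Bas_comp x w _ Bas_half hx
  have h2 := Bas_comp y w _ Bas_half hy
  have h0 : Nat.RecursiveIn {orc w} (fun n => Part.some ((fun m : ℕ => m) n)) :=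
    Nat.Primrec.recursiveIn Nat.Primrec.id
  have h3 := Nat.RecursiveIn.pair h0 (Nat.RecursiveIn.pair h1 h2)
  have h4 : Nat.RecursiveIn {orc w} (fun n => Part.some (Bas_sel n)) :=
    Nat.Primrec.recursiveIn Bas_sel_prim
  refine (Nat.RecursiveIn.comp h4 h3).of_eq fun n => ?_
  simp only [Seq.seq, Part.bind_map, Functor.map, Part.bind_some, Part.map_some]
  refine (Part.bind_some _ _).trans ?_
  unfold Bas_sel
  simp only [Nat.unpair_pair]
  show _ = Part.some (if n % 2 = 0 then x (n / 2) else y (n / 2)).toNat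
  by_cases h : n % 2 = 0
  · rw [if_pos h, if_pos h]
  · rw [if_neg h, if_neg h]

theorem RC_lf {R : Set Rl} (h : RC R) {w : Rl} (hw : w ∈ R) : lf w ∈ R := h.tred w hw _ (TRed_lf w)

theorem RC_rt {R : Set Rl} (h : RC R) {w : Rl} (hw : w ∈ R) : rt w ∈ R := h.tred w hw _ (TRed_rt w)

theorem RC_tables (c : ℕ → Rl) : ∃ d : Rl, ∀ R, RC R → d ∈ R → ∀ n, c n ∈ R := by
  obtain ⟨d, hd⟩ := exists_join c
  exact ⟨d, fun R hR hdR n => hR.tred d hdR _ (hd d (Pool.Agent.NI.TRed_refl d) n)⟩

end Pool.Agent.RNI
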