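import Pool.Agent.RNI.PCt
import Pool.Agent.LZF.Idl

/-!
# BrA: ideals with the beta property in the sense of `LZF.Idl` satisfy `RC`

Here `LZF.jn`, `LZF.col`, `LZF.gph`, `LZF.Idl` are the notions of `LZF/Idl.lean` (columns by `Nat.unpair`), and `jn`,
`lf`, `rt`, `gr`, `RC` those of `RNI/Defs.lean`.
* `TRed_col`: the code `comp oracle (pair (const i) id)`.
* `idl_pcont`: copy of the proof of `pcont_par` (or `pcont`) in `RNI/PCt`, with `LZF.jn c w` instead of `jn c w`: apply
  `ct_index` to `fun v n m => H (LZF.col 1 v) n m`; `LZF.col 0 (LZF.jn c w) = c`, `LZF.col 1 (LZF.jn c w) = w`. It needs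
  only the fields `down` and `join` of `LZF.Idl`.
* `idl_RC`: `tred` is `down`. `join`: for `w = LZF.jn x y ∈ R`: `TRed x w`, `TRed y w` (`TRed_col`), `TRed_jn`.
  `beta`: let `T ∈ R` with a branch `z₀`. Let `x q` be true iff there are `s`, `a` with `q.unpair.1 = encode (s ++ [a])`,
  `q.unpair.2 = encode s` and `T (encode p) = true` for all initial segments `p` of `s ++ [a]`. `x ∈ R` by `idl_pcont` (each
  bit of `x` depends on finitely many bits of `T`). `f n = encode (pre z₀ n)` satisfies the hypothesis of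
  `LZF.Idl.beta`. It gives `f` with `LZF.gph f ∈ R`; let `s n = ofNat (List ℕ) (f n)`: `s (n + 1) = s n ++ [a n]`, all
  initial segments of `s n` are in `T`, the length of `s n` is at least `n`. Let `z i = (s (i + 1)).getD i 0`. Then `pre z n`
  is an initial segment of `s n`, so `T (encode (pre z n)) = true`. `gr z ∈ R` by `idl_pcont` for
  `H g k m ↔ ∃ t, g (pair (k.unpair.1 + 1) t) = true ∧ (∀ t' < t, g (pair (k.unpair.1 + 1) t') = false) ∧
  m = (decide ((ofNat (List ℕ) t).getD k.unpair.1 0 = k.unpair.2)).toNat` and `g = LZF.gph f`.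
  `c` is a join of the two tables (from `c ∈ R` get both by `down` and `TRed_lf`, `TRed_rt`).
-/

namespace Pool.Agent.RNI

open Pool.Agent.NI

theorem TRed_col (i : ℕ) (w : Rl) : TRed (LZF.col i w) w := by
  obtain ⟨j, hj⟩ := ofNat_surj (OCode.comp OCode.oracle (Cod_pr i))
  refine ⟨j, fun k => ?_⟩
  show (OCode.ofNat j).eval w k = Part.some (LZF.col i w k).toNat
  rw [hj, Cod_comp_pr]
  rfl

theorem BrA_col0 (x y : Rl) : LZF.col 0 (LZF.jn x y) = x := by
  funext n
  simp [LZF.col, LZF.jn, Nat.unpair_pair]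

theorem BrA_col1 (x y : Rl) : LZF.col 1 (LZF.jn x y) = y := by
  funext n
  simp [LZF.col, LZF.jn, Nat.unpair_pair]

theorem BrA_mem0 {d : Rl} {R : Set Rl} (h : LZF.Idl d R) {x y : Rl} (hm : LZF.jn x y ∈ R) : x ∈ R := by
  have h1 := h.down _ hm _ (TRed_col 0 (LZF.jn x y))
  rwa [BrA_col0] at h1

theorem BrA_mem1 {d : Rl} {R : Set Rl} (h : LZF.Idl d R) {x y : Rl} (hm : LZF.jn x y ∈ R) : y ∈ R := by
  have h1 := h.down _ hm _ (TRed_col 1 (LZF.jn x y))
  rwa [BrA_col1] at h1

theorem idl_pcont (H : Rl → ℕ → ℕ → Prop) (hc : Ct H) (hs : Sv H) :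
    ∃ c : Rl, ∀ (d : Rl) (R : Set Rl), LZF.Idl d R → c ∈ R → ∀ w ∈ R, ∀ x : Rl,
      (∀ n, H w n (x n).toNat) → x ∈ R := by
  obtain ⟨c, hcc⟩ := ct_index (fun v n m => H (LZF.col 1 v) n m)
    (by
      intro v n m h
      obtain ⟨t, ht⟩ := hc _ _ _ h
      refine ⟨Nat.pair 1 t, fun v' hv' => ht _ fun i hi => ?_⟩
      exact hv' (Nat.pair 1 i) (Nat.pair_lt_pair_right 1 hi))
    (fun v n m m' h h' => hs _ _ _ _ h h')
  refine ⟨c, fun d R hR hcR w hw x hx => ?_⟩
  have hv : LZF.jn c w ∈ R := hR.join c hcR w hw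
  have h1 : TRed c (LZF.jn c w) := by
    have := TRed_col 0 (LZF.jn c w)
    rwa [BrA_col0] at this
  obtain ⟨i, hi⟩ := hcc _ h1
  refine hR.down _ hv x ⟨i, fun n => ?_⟩
  rw [Part.eq_some_iff, hi]
  show H (LZF.col 1 (LZF.jn c w)) n (x n).toNat
  rw [BrA_col1]
  exact hx n

/-- the relation of the tree `T` -/
def BrA_X (T : Rl) (q : ℕ) : Prop :=
  (∃ (s : List ℕ) (a : ℕ), q.unpair.1 = Encodable.encode (s ++ [a]) ∧ q.unpair.2 = Encodable.encode s) ∧
    ∀ i, T (Encodable.encode ((Denumerable.ofNat (List ℕ) q.unpair.1).take i)) = true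

theorem BrA_X_loc (T : Rl) (q : ℕ) :
    ∃ t, ∀ T' : Rl, (∀ i < t, T' i = T i) → (BrA_X T' q ↔ BrA_X T q) := by
  set l := Denumerable.ofNat (List ℕ) q.unpair.1 with hl
  refine ⟨(Finset.range (l.length + 1)).sup (fun i => Encodable.encode (l.take i)) + 1, fun T' hT' => ?_⟩
  have h1 : ∀ i, T' (Encodable.encode (l.take i)) = T (Encodable.encode (l.take i)) := by
    have h0 : ∀ i, i ≤ l.length → T' (Encodable.encode (l.take i)) = T (Encodable.encode (l.take i)) := by
      intro i hi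
      apply hT'
      exact Nat.lt_succ_of_le (Finset.le_sup (f := fun i => Encodable.encode (l.take i))
        (Finset.mem_range.2 (Nat.lt_succ_of_le hi)))
    intro i
    rcases le_total i l.length with hi | hi
    · exact h0 i hi
    · have h2 : l.take i = l.take l.length := by
        rw [List.take_of_length_le hi, List.take_length]
      rw [h2]
      exact h0 _ le_rfl
  unfold BrA_X
  rw [← hl]
  simp only [h1]

theorem BrA_pre_succ (z : ℕ → ℕ) (n : ℕ) : pre z (n + 1) = pre z n ++ [z n] := by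
  simp [pre, List.range_succ]

theorem BrA_pre_take (z : ℕ → ℕ) (n i : ℕ) : (pre z n).take i = pre z (min i n) := by
  simp [pre, List.take_range, ← List.map_take]

theorem BrA_X_pre {T : Rl} {z : ℕ → ℕ} (hz : ∀ n, T (Encodable.encode (pre z n)) = true) (n : ℕ) :
    BrA_X T (Nat.pair (Encodable.encode (pre z (n + 1))) (Encodable.encode (pre z n))) := by
  refine ⟨⟨pre z n, z n, ?_, ?_⟩, fun i => ?_⟩
  · rw [Nat.unpair_pair, BrA_pre_succ]
  · rw [Nat.unpair_pair]
  · rw [Nat.unpair_pair]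
    simp only [Denumerable.ofNat_encode]
    rw [BrA_pre_take]
    exact hz _

theorem BrA_step {T : Rl} {a b : ℕ} (h : BrA_X T (Nat.pair a b)) :
    (∃ u, Denumerable.ofNat (List ℕ) a = Denumerable.ofNat (List ℕ) b ++ [u]) ∧
      ∀ i, T (Encodable.encode ((Denumerable.ofNat (List ℕ) a).take i)) = true := by
  obtain ⟨⟨s, u, h1, h2⟩, h3⟩ := h
  rw [Nat.unpair_pair] at h1 h2 h3
  simp only at h1 h2 h3
  refine ⟨⟨u, ?_⟩, h3⟩
  rw [h1, h2, Denumerable.ofNat_encode, Denumerable.ofNat_encode]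

/-- the branch given by a descending sequence -/
def BrA_z (f : ℕ → ℕ) (i : ℕ) : ℕ := (Denumerable.ofNat (List ℕ) (f (i + 1))).getD i 0

theorem BrA_branch {T : Rl} {f : ℕ → ℕ} (h : ∀ n, BrA_X T (Nat.pair (f (n + 1)) (f n))) (n : ℕ) :
    T (Encodable.encode (pre (BrA_z f) n)) = true := by
  have hlen : ∀ n, n ≤ (Denumerable.ofNat (List ℕ) (f n)).length := by
    intro n
    induction n with
    | zero => exact Nat.zero_le _
    | succ n ih =>
      obtain ⟨⟨u, hu⟩, -⟩ := BrA_step (h n)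
      rw [hu, List.length_append, List.length_singleton]
      exact Nat.succ_le_succ ih
  have hpref : ∀ n k, (Denumerable.ofNat (List ℕ) (f n)) <+: (Denumerable.ofNat (List ℕ) (f (n + k))) := by
    intro n k
    induction k with
    | zero => exact List.prefix_rfl
    | succ k ih =>
      obtain ⟨⟨u, hu⟩, -⟩ := BrA_step (h (n + k))
      refine ih.trans ?_
      have e : n + (k + 1) = n + k + 1 := rfl
      rw [e, hu]
      exact List.prefix_append _ _
  have hval : ∀ n i, i < n → (Denumerable.ofNat (List ℕ) (f n))[i]? = some (BrA_z f i) := by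
    intro n i hi
    obtain ⟨k, rfl⟩ := Nat.exists_eq_add_of_le (Nat.succ_le_of_lt hi)
    have h1 : i < (Denumerable.ofNat (List ℕ) (f (i + 1))).length := hlen (i + 1)
    obtain ⟨r, hr⟩ := hpref (i + 1) k
    have e : Nat.succ i + k = i + 1 + k := rfl
    rw [e, ← hr, List.getElem?_append_left h1, List.getElem?_eq_getElem h1]
    congr 1
    unfold BrA_z
    rw [List.getD_eq_getElem _ _ h1]
  have hpre : pre (BrA_z f) n = (Denumerable.ofNat (List ℕ) (f (n + 1))).take n := by
    apply List.ext_getElem?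
    intro i
    by_cases hi : i < n
    · rw [List.getElem?_take_of_lt hi, hval (n + 1) i (by omega)]
      simp [pre, hi]
    · rw [List.getElem?_take_eq_none (by omega)]
      simp [pre, hi]
  rw [hpre]
  exact (BrA_step (h n)).2 n

/-- the functional which computes the branch from the graph of the sequence -/
def BrA_H2 (g : Rl) (k m : ℕ) : Prop :=
  ∃ t, g (Nat.pair (k.unpair.1 + 1) t) = true ∧ (∀ t' < t, g (Nat.pair (k.unpair.1 + 1) t') = false) ∧
    m = (decide ((Denumerable.ofNat (List ℕ) t).getD k.unpair.1 0 = k.unpair.2)).toNat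

theorem BrA_H2_ct : Ct BrA_H2 := by
  rintro g k m ⟨t, h1, h2, h3⟩
  refine ⟨Nat.pair (k.unpair.1 + 1) t + 1, fun g' hg' => ⟨t, ?_, fun t' ht' => ?_, h3⟩⟩
  · rw [hg' _ (Nat.lt_succ_self _)]; exact h1
  · rw [hg' _ (Nat.lt_succ_of_lt (Nat.pair_lt_pair_right _ ht'))]; exact h2 t' ht'

theorem BrA_H2_sv : Sv BrA_H2 := by
  rintro g k m m' ⟨t, h1, h2, h3⟩ ⟨t', h1', h2', h3'⟩
  have e : t = t' := by
    rcases lt_trichotomy t t' with h | h | h
    · rw [h2' t h] at h1; exact absurd h1 Bool.false_ne_true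
    · exact h
    · rw [h2 t' h] at h1'; exact absurd h1' Bool.false_ne_true
  subst e
  rw [h3, h3']

open Classical in
theorem BrA_H2_gph (f : ℕ → ℕ) (k : ℕ) : BrA_H2 (LZF.gph f) k (gr (BrA_z f) k).toNat := by
  refine ⟨f (k.unpair.1 + 1), ?_, fun t' ht' => ?_, rfl⟩
  · simp [LZF.gph, LZF.chr, Nat.unpair_pair]
  · simp only [LZF.gph, LZF.chr, Nat.unpair_pair, decide_eq_false_iff_not]
    exact (Nat.ne_of_lt ht').symm

open Classical in
theorem idl_RC : ∃ c : Rl, ∀ R : Set Rl, LZF.Idl c R → RC R := by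
  obtain ⟨c1, h1⟩ := idl_pcont (fun T q m => m = (decide (BrA_X T q)).toNat)
    (by
      intro T q m h
      obtain ⟨t, ht⟩ := BrA_X_loc T q
      refine ⟨t, fun T' hT' => ?_⟩
      have h2 := ht T' hT'
      show m = (decide (BrA_X T' q)).toNat
      rw [h]
      congr 1
      exact decide_eq_decide.2 h2.symm)
    (fun T q m m' h h' => by rw [h, h'])
  obtain ⟨c2, h2⟩ := idl_pcont BrA_H2 BrA_H2_ct BrA_H2_sv
  refine ⟨LZF.jn c1 c2, fun R hR => ⟨fun x hx c hc => hR.down x hx c hc, fun x hx y hy => ?_, ?_⟩⟩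
  · have hw : LZF.jn x y ∈ R := hR.join x hx y hy
    have hx' : TRed x (LZF.jn x y) := by
      have := TRed_col 0 (LZF.jn x y)
      rwa [BrA_col0] at this
    have hy' : TRed y (LZF.jn x y) := by
      have := TRed_col 1 (LZF.jn x y)
      rwa [BrA_col1] at this
    exact hR.down _ hw _ (TRed_jn x y _ hx' hy')
  · intro T hT hbr
    obtain ⟨z₀, hz₀⟩ := hbr
    have hx : (fun q => decide (BrA_X T q)) ∈ R :=
      h1 _ R hR (BrA_mem0 hR hR.base) T hT _ fun n => rfl
    obtain ⟨f, hf, hfx⟩ := hR.beta _ hx ⟨fun n => Encodable.encode (pre z₀ n), fun n => by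
      show decide _ = true
      rw [decide_eq_true_iff]
      exact BrA_X_pre hz₀ n⟩
    have hfx' : ∀ n, BrA_X T (Nat.pair (f (n + 1)) (f n)) := fun n => by
      have := hfx n
      exact of_decide_eq_true this
    refine ⟨BrA_z f, ?_, BrA_branch hfx'⟩
    exact h2 _ R hR (BrA_mem1 hR hR.base) (LZF.gph f) hf _ (BrA_H2_gph f)

end Pool.Agent.RNI
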