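import Pool.Agent.RNI.PCt
import Pool.Agent.LZF.Idl

/-!
# BrB: the two codings of formulas

`LZF.vcode`, `LZF.pcode`, `LZF.scode` are equal to `gr`, `gr`, `dg` up to the choice of the decidability instances
(`funext`, `LZF.chr`, `decide_eq_decide`).
`fcode_in`: define `val (λ : List ℕ → ℕ) (s : List ℕ) (j : ℕ) : Prop` by recursion on `j` (`λ` gives the labels):
* `λ s % 5 = 0` and `j = pair 0 (λ s / 5)`, or `λ s % 5 = 1` and `j = pair 1 (λ s / 5)`, or
* `λ s = 2` and (`j = pair 2 0` or `j = pair 5 (pair 0 j')` with `val λ (s ++ [0]) j'`), or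
* `λ s = 3` and (`j = pair 3 0` or `j = pair 5 (pair k j')` with `val λ (s ++ [k]) j'`), or
* `λ s = 4` and (`j = pair 4 0` or `j = pair 5 (pair 0 j')` with `val λ (s ++ [0]) j'`)
(`j' < j` by `Nat.right_lt_pair`-type inequalities: `j' ≤ pair k j' < pair 5 (pair k j') = j`).
Claim 1: if `λ (s ++ t) = lab g t` for all `t` then `val λ s j ↔ LZF.fcode g j = true` (induction on the formula `g`; the
label of `rel k v` is `5 * pair k (encode (v.map val))` and its code is the single number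
`pair 0 (pair k (encode (v.map Fin.val)))`; `lab (neg f) (_ :: t) = lab f t`, `lab (conj f) (k :: t) = lab (f k) t`).
Claim 2: for every `j`, `s` there is `N` such that `val λ s j` depends only on the values of `λ` at the lists with code
`< N` (strong induction on `j`: only the lists `s`, `s ++ [k]` with `k < j`, ... are used).
Then `pcont` applies to `H w j m ↔ ∃ λ : ℕ → ℕ, (∀ u < N j, w (pair u (λ u)) = true ∧ ∀ t < λ u, w (pair u t) = false) ∧
m = (decide (val (fun s => λ (encode s)) [] j)).toNat`, where `N j` is a bound for `j` and `s = []`; `w = fc f`: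
`fc f (pair u t) = true ↔ lab f (ofNat _ u) = t`.
-/

namespace Pool.Agent.RNI

open Pool.Agent.NI

theorem vcode_eq (L : Voc) : LZF.vcode L = gr L := by
  funext n
  unfold LZF.vcode LZF.chr gr
  exact decide_eq_decide.2 Iff.rfl

theorem pcode_eq (s : ℕ ≃ ℕ) : LZF.pcode s = gr s := by
  funext n
  unfold LZF.pcode LZF.chr gr
  exact decide_eq_decide.2 Iff.rfl

theorem scode_eq {L : Voc} (M : Str L) : LZF.scode M = dg M := by
  funext n
  unfold LZF.scode LZF.chr dg
  exact decide_eq_decide.2 Iff.rfl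

/-- the numbers in the code, from the labels -/
inductive BrB_Val (lam : List ℕ → ℕ) : List ℕ → ℕ → Prop
  | rel (s : List ℕ) (h : lam s % 5 = 0) : BrB_Val lam s (Nat.pair 0 (lam s / 5))
  | eq (s : List ℕ) (h : lam s % 5 = 1) : BrB_Val lam s (Nat.pair 1 (lam s / 5))
  | neg0 (s : List ℕ) (h : lam s = 2) : BrB_Val lam s (Nat.pair 2 0)
  | negS (s : List ℕ) (j : ℕ) (h : lam s = 2) (h' : BrB_Val lam (s ++ [0]) j) :
      BrB_Val lam s (Nat.pair 5 (Nat.pair 0 j))
  | conj0 (s : List ℕ) (h : lam s = 3) : BrB_Val lam s (Nat.pair 3 0)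
  | conjS (s : List ℕ) (k j : ℕ) (h : lam s = 3) (h' : BrB_Val lam (s ++ [k]) j) :
      BrB_Val lam s (Nat.pair 5 (Nat.pair k j))
  | all0 (s : List ℕ) (h : lam s = 4) : BrB_Val lam s (Nat.pair 4 0)
  | allS (s : List ℕ) (j : ℕ) (h : lam s = 4) (h' : BrB_Val lam (s ++ [0]) j) :
      BrB_Val lam s (Nat.pair 5 (Nat.pair 0 j))

theorem BrB_inv (lam : List ℕ → ℕ) (s : List ℕ) (j : ℕ) : BrB_Val lam s j ↔
    (lam s % 5 = 0 ∧ j = Nat.pair 0 (lam s / 5)) ∨ (lam s % 5 = 1 ∧ j = Nat.pair 1 (lam s / 5)) ∨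
    (lam s = 2 ∧ (j = Nat.pair 2 0 ∨ ∃ j', j = Nat.pair 5 (Nat.pair 0 j') ∧
      BrB_Val lam (s ++ [0]) j')) ∨
    (lam s = 3 ∧ (j = Nat.pair 3 0 ∨ ∃ k j', j = Nat.pair 5 (Nat.pair k j') ∧
      BrB_Val lam (s ++ [k]) j')) ∨
    (lam s = 4 ∧ (j = Nat.pair 4 0 ∨ ∃ j', j = Nat.pair 5 (Nat.pair 0 j') ∧
      BrB_Val lam (s ++ [0]) j')) := by
  constructor
  · intro hv
    cases hv with
    | rel _ h => exact Or.inl ⟨h, rfl⟩
    | eq _ h => exact Or.inr (Or.inl ⟨h, rfl⟩)
    | neg0 _ h => exact Or.inr (Or.inr (Or.inl ⟨h, Or.inl rfl⟩))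
    | negS _ j h h' => exact Or.inr (Or.inr (Or.inl ⟨h, Or.inr ⟨j, rfl, h'⟩⟩))
    | conj0 _ h => exact Or.inr (Or.inr (Or.inr (Or.inl ⟨h, Or.inl rfl⟩)))
    | conjS _ k j h h' => exact Or.inr (Or.inr (Or.inr (Or.inl ⟨h, Or.inr ⟨k, j, rfl, h'⟩⟩)))
    | all0 _ h => exact Or.inr (Or.inr (Or.inr (Or.inr ⟨h, Or.inl rfl⟩)))
    | allS _ j h h' => exact Or.inr (Or.inr (Or.inr (Or.inr ⟨h, Or.inr ⟨j, rfl, h'⟩⟩)))
  · rintro (⟨h, rfl⟩ | ⟨h, rfl⟩ | ⟨h, rfl | ⟨j', rfl, h'⟩⟩ | ⟨h, rfl | ⟨k, j', rfl, h'⟩⟩ |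
      ⟨h, rfl | ⟨j', rfl, h'⟩⟩)
    · exact BrB_Val.rel _ h
    · exact BrB_Val.eq _ h
    · exact BrB_Val.neg0 _ h
    · exact BrB_Val.negS _ _ h h'
    · exact BrB_Val.conj0 _ h
    · exact BrB_Val.conjS _ _ _ h h'
    · exact BrB_Val.all0 _ h
    · exact BrB_Val.allS _ _ h h'

theorem BrB_lab {L : Voc} {n : ℕ} (k : ℕ) (v : List (Fin n)) (h : v.length = L k) (t : List ℕ) :
    lab (Fml.rel k v h) t = 5 * Nat.pair k (Encodable.encode (v.map Fin.val)) := by
  simp only [lab]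
  congr 3
  simp only [List.map_id', List.bind_eq_flatMap, List.pure_def]
  clear h
  induction v with
  | nil => rfl
  | cons a v ih => rw [List.flatMap_cons, ih]; rfl

theorem BrB_eq {L : Voc} {n : ℕ} (g : Fml L n) : ∀ (lam : List ℕ → ℕ) (s : List ℕ),
    (∀ t, lam (s ++ t) = lab g t) → ∀ j, BrB_Val lam s j ↔ LZF.fcode g j = true := by
  induction g with
  | rel k v h =>
    intro lam s hl j
    have h0 : lam s = 5 * Nat.pair k (Encodable.encode (v.map Fin.val)) := by
      have := hl []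
      rwa [List.append_nil, BrB_lab] at this
    have e : LZF.fcode (Fml.rel k v h) j = true ↔
        j = Nat.pair 0 (Nat.pair k (Encodable.encode (v.map Fin.val))) := by
      simp only [LZF.fcode, LZF.chr, decide_eq_true_eq]
    rw [e, BrB_inv]
    constructor
    · rintro (⟨h1, h2⟩ | ⟨h1, -⟩ | ⟨h1, -⟩ | ⟨h1, -⟩ | ⟨h1, -⟩)
      · rw [h2, h0, Nat.mul_div_cancel_left _ (by norm_num)]
      all_goals (exfalso; omega)
    · intro h1
      left
      refine ⟨by omega, ?_⟩
      rw [h1, h0, Nat.mul_div_cancel_left _ (by norm_num)]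
  | eq i i' =>
    intro lam s hl j
    have h0 : lam s = 5 * Nat.pair i i' + 1 := by
      have := hl []
      rwa [List.append_nil] at this
    have h3 : lam s / 5 = Nat.pair i i' := by omega
    have e : LZF.fcode (Fml.eq (L := L) i i') j = true ↔ j = Nat.pair 1 (Nat.pair i i') := by
      simp only [LZF.fcode, LZF.chr, decide_eq_true_eq]
    rw [e, BrB_inv, h3]
    constructor
    · rintro (⟨h1, -⟩ | ⟨-, h2⟩ | ⟨h1, -⟩ | ⟨h1, -⟩ | ⟨h1, -⟩)
      · exfalso; omega
      · exact h2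
      all_goals (exfalso; omega)
    · intro h1
      exact Or.inr (Or.inl ⟨by omega, h1⟩)
  | neg f ih =>
    intro lam s hl j
    have h0 : lam s = 2 := by
      have := hl []
      rwa [List.append_nil] at this
    have h1 : ∀ t, lam ((s ++ [0]) ++ t) = lab f t := by
      intro t
      rw [List.append_assoc]
      exact hl (0 :: t)
    have e : LZF.fcode (Fml.neg f) j = true ↔ (j = Nat.pair 2 0 ∨
        ∃ j', j = Nat.pair 5 (Nat.pair 0 j') ∧ LZF.fcode f j' = true) := by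
      simp only [LZF.fcode, LZF.chr, decide_eq_true_eq]
    rw [e, BrB_inv, h0]
    simp only [ih lam (s ++ [0]) h1]
    constructor
    · rintro (⟨h1, -⟩ | ⟨h1, -⟩ | ⟨-, h2⟩ | ⟨h1, -⟩ | ⟨h1, -⟩)
      · omega
      · omega
      · exact h2
      · omega
      · omega
    · intro h2
      exact Or.inr (Or.inr (Or.inl ⟨trivial, h2⟩))
  | conj f ih =>
    intro lam s hl j
    have h0 : lam s = 3 := by
      have := hl []
      rwa [List.append_nil] at this
    have h1 : ∀ k t, lam ((s ++ [k]) ++ t) = lab (f k) t := by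
      intro k t
      rw [List.append_assoc]
      exact hl (k :: t)
    have e : LZF.fcode (Fml.conj f) j = true ↔ (j = Nat.pair 3 0 ∨
        ∃ k j', j = Nat.pair 5 (Nat.pair k j') ∧ LZF.fcode (f k) j' = true) := by
      simp only [LZF.fcode, LZF.chr, decide_eq_true_eq]
    rw [e, BrB_inv, h0]
    have h2 : ∀ k j', BrB_Val lam (s ++ [k]) j' ↔ LZF.fcode (f k) j' = true := fun k j' =>
      ih k lam (s ++ [k]) (h1 k) j'
    constructor
    · rintro (⟨h1, -⟩ | ⟨h1, -⟩ | ⟨h1, -⟩ | ⟨-, h3⟩ | ⟨h1, -⟩)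
      · omega
      · omega
      · omega
      · rcases h3 with h3 | ⟨k, j', h3, h4⟩
        · exact Or.inl h3
        · exact Or.inr ⟨k, j', h3, (h2 k j').1 h4⟩
      · omega
    · rintro (h3 | ⟨k, j', h3, h4⟩)
      · exact Or.inr (Or.inr (Or.inr (Or.inl ⟨rfl, Or.inl h3⟩)))
      · exact Or.inr (Or.inr (Or.inr (Or.inl ⟨rfl, Or.inr ⟨k, j', h3, (h2 k j').2 h4⟩⟩)))
  | all f ih =>
    intro lam s hl j
    have h0 : lam s = 4 := by
      have := hl []
      rwa [List.append_nil] at this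
    have h1 : ∀ t, lam ((s ++ [0]) ++ t) = lab f t := by
      intro t
      rw [List.append_assoc]
      exact hl (0 :: t)
    have e : LZF.fcode (Fml.all f) j = true ↔ (j = Nat.pair 4 0 ∨
        ∃ j', j = Nat.pair 5 (Nat.pair 0 j') ∧ LZF.fcode f j' = true) := by
      simp only [LZF.fcode, LZF.chr, decide_eq_true_eq]
    rw [e, BrB_inv, h0]
    simp only [ih lam (s ++ [0]) h1]
    constructor
    · rintro (⟨h1, -⟩ | ⟨h1, -⟩ | ⟨h1, -⟩ | ⟨h1, -⟩ | ⟨-, h2⟩)
      · omega
      · omega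
      · omega
      · omega
      · exact h2
    · intro h2
      exact Or.inr (Or.inr (Or.inr (Or.inr ⟨trivial, h2⟩)))

theorem BrB_lt (k j : ℕ) : j < Nat.pair 5 (Nat.pair k j) := by
  have h1 : j ≤ Nat.pair k j := Nat.right_le_pair k j
  have h2 : ∀ b, b < Nat.pair 5 b := by
    intro b
    unfold Nat.pair
    split_ifs with h
    · nlinarith
    · omega
  exact h1.trans_lt (h2 _)

theorem BrB_dep (j : ℕ) : ∀ s : List ℕ, ∃ N, ∀ lam lam' : List ℕ → ℕ,
    (∀ u, Encodable.encode u < N → lam u = lam' u) → BrB_Val lam s j → BrB_Val lam' s j := by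
  induction j using Nat.strong_induction_on with
  | _ j ih =>
    intro s
    obtain ⟨N1, hN1⟩ : ∃ N1, ∀ k j', j = Nat.pair 5 (Nat.pair k j') → ∀ lam lam' : List ℕ → ℕ,
        (∀ u, Encodable.encode u < N1 → lam u = lam' u) → BrB_Val lam (s ++ [k]) j' →
        BrB_Val lam' (s ++ [k]) j' := by
      by_cases h : ∃ k j', j = Nat.pair 5 (Nat.pair k j')
      · obtain ⟨k, j', rfl⟩ := h
        obtain ⟨N1, h1⟩ := ih j' (BrB_lt k j') (s ++ [k])
        refine ⟨N1, ?_⟩
        intro k' j'' he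
        rw [Nat.pair_eq_pair, Nat.pair_eq_pair] at he
        obtain ⟨-, rfl, rfl⟩ := he
        exact h1
      · exact ⟨0, fun k j' he => absurd ⟨k, j', he⟩ h⟩
    refine ⟨max N1 (Encodable.encode s + 1), ?_⟩
    intro lam lam' hl hv
    have hs : lam s = lam' s := hl s (lt_of_lt_of_le (Nat.lt_succ_self _) (le_max_right _ _))
    have hl1 : ∀ u, Encodable.encode u < N1 → lam u = lam' u := fun u hu =>
      hl u (lt_of_lt_of_le hu (le_max_left _ _))
    rw [BrB_inv] at hv ⊢
    rw [← hs]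
    rcases hv with h | h | ⟨h, h2⟩ | ⟨h, h2⟩ | ⟨h, h2⟩
    · exact Or.inl h
    · exact Or.inr (Or.inl h)
    · refine Or.inr (Or.inr (Or.inl ⟨h, ?_⟩))
      rcases h2 with h2 | ⟨j', h2, h3⟩
      · exact Or.inl h2
      · exact Or.inr ⟨j', h2, hN1 0 j' h2 lam lam' hl1 h3⟩
    · refine Or.inr (Or.inr (Or.inr (Or.inl ⟨h, ?_⟩)))
      rcases h2 with h2 | ⟨k, j', h2, h3⟩
      · exact Or.inl h2
      · exact Or.inr ⟨k, j', h2, hN1 k j' h2 lam lam' hl1 h3⟩
    · refine Or.inr (Or.inr (Or.inr (Or.inr ⟨h, ?_⟩)))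
      rcases h2 with h2 | ⟨j', h2, h3⟩
      · exact Or.inl h2
      · exact Or.inr ⟨j', h2, hN1 0 j' h2 lam lam' hl1 h3⟩

theorem BrB_bound (l : ℕ → ℕ) (N : ℕ) : ∃ T, ∀ u < N, ∀ t ≤ l u, Nat.pair u t < T := by
  induction N with
  | zero => exact ⟨0, fun u hu => absurd hu (Nat.not_lt_zero _)⟩
  | succ N ih =>
    obtain ⟨T, hT⟩ := ih
    have h2 : ∀ m, ∃ T', ∀ t ≤ m, Nat.pair N t < T' := by
      intro m
      induction m with
      | zero => exact ⟨Nat.pair N 0 + 1, fun t ht => by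
          obtain rfl : t = 0 := by omega
          omega⟩
      | succ m ih =>
        obtain ⟨T', hT'⟩ := ih
        refine ⟨max T' (Nat.pair N (m + 1) + 1), fun t ht => ?_⟩
        rcases Nat.lt_or_ge t (m + 1) with h | h
        · exact lt_of_lt_of_le (hT' t (by omega)) (le_max_left _ _)
        · obtain rfl : t = m + 1 := by omega
          exact lt_of_lt_of_le (Nat.lt_succ_self _) (le_max_right _ _)
    obtain ⟨T', hT'⟩ := h2 (l N)
    refine ⟨max T T', fun u hu t ht => ?_⟩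
    rcases Nat.lt_or_ge u N with h | h
    · exact lt_of_lt_of_le (hT u h t ht) (le_max_left _ _)
    · obtain rfl : u = N := by omega
      exact lt_of_lt_of_le (hT' t ht) (le_max_right _ _)

theorem fcode_in : ∃ c : Rl, ∀ R, RC R → c ∈ R → ∀ (L : Voc) (f : Fml L 0), fc f ∈ R →
    LZF.fcode f ∈ R := by
  classical
  choose N hN using fun j => BrB_dep j []
  let H : Rl → ℕ → ℕ → Prop := fun w j m => ∃ l : ℕ → ℕ,
    (∀ u < N j, w (Nat.pair u (l u)) = true ∧ ∀ t < l u, w (Nat.pair u t) = false) ∧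
    m = (decide (BrB_Val (fun s => l (Encodable.encode s)) [] j)).toNat
  have hc : Ct H := by
    rintro y n m ⟨l, hl, hm⟩
    obtain ⟨T, hT⟩ := BrB_bound l (N n)
    refine ⟨T, fun y' hy' => ⟨l, ?_, hm⟩⟩
    intro u hu
    refine ⟨?_, ?_⟩
    · rw [hy' _ (hT u hu (l u) le_rfl)]
      exact (hl u hu).1
    · intro t ht
      rw [hy' _ (hT u hu t ht.le)]
      exact (hl u hu).2 t ht
  have hs : Sv H := by
    rintro y n m m' ⟨l, hl, hm⟩ ⟨l', hl', hm'⟩
    have h1 : ∀ u < N n, l u = l' u := by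
      intro u hu
      rcases lt_trichotomy (l u) (l' u) with h | h | h
      · have h2 := (hl' u hu).2 _ h
        rw [(hl u hu).1] at h2
        exact absurd h2 (by decide)
      · exact h
      · have h2 := (hl u hu).2 _ h
        rw [(hl' u hu).1] at h2
        exact absurd h2 (by decide)
    rw [hm, hm']
    congr 1
    apply decide_eq_decide.2
    constructor
    · exact hN n (fun s => l (Encodable.encode s)) (fun s => l' (Encodable.encode s))
        fun u hu => h1 _ hu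
    · exact hN n (fun s => l' (Encodable.encode s)) (fun s => l (Encodable.encode s))
        fun u hu => (h1 _ hu).symm
  obtain ⟨c, hc'⟩ := pcont H hc hs
  refine ⟨c, fun R hR hcR L f hf => hc' R hR hcR (fc f) hf (LZF.fcode f) ?_⟩
  intro n
  refine ⟨fun u => lab f (Denumerable.ofNat (List ℕ) u), ?_, ?_⟩
  · intro u _
    refine ⟨?_, ?_⟩
    · unfold fc gr
      simp
    · intro t ht
      unfold fc gr
      simp only [Nat.unpair_pair, decide_eq_false_iff_not]
      exact ht.ne'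
  · have h1 := BrB_eq f (fun s => lab f (Denumerable.ofNat (List ℕ) (Encodable.encode s))) []
      (fun t => by rw [List.nil_append, Denumerable.ofNat_encode]) n
    cases h2 : LZF.fcode f n with
    | true =>
      rw [decide_eq_true (h1.2 h2)]
    | false =>
      rw [decide_eq_false]
      intro h3
      rw [h1.1 h3] at h2
      exact absurd h2 (by decide)

end Pool.Agent.RNI
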