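import Pool.Agent.RNI.PCt
import Pool.Agent.LZF.Idl

/-!
# BrC: countable ordinals of the model

* `ct_in`: let `f : ℕ → Ordinal` with range `{β | β ≤ α}` and `p = LZF.chr (fun n => f n.unpair.1 < f n.unpair.2) ∈ R`. Let
  `rl w n m ↔ f n < f m ∨ (f n = f m ∧ n < m)`; `f n = f m` iff neither `f n < f m` nor `f m < f n`, so each bit of `w`
  depends on two bits of `p`, and `w ∈ R` by `cont_mem`. `rl w` is a wellorder (the lexicographic order of the pairs
  `(f n, n)`); its type `β` is at least `α` (even `α + 1`): choose for every `γ < α` some `g γ` with `f (g γ) = γ`: it is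
  increasing (`Ordinal.type_le_iff'`, or induction: `f n ≤ typein (rl w) n` for all `n`, by induction along `rl w`:
  if `γ < f n` then `γ = f m` for some `m` with `rl w m n`, so `γ ≤ typein m < typein n`; for `f n₀ = α` this gives
  `α ≤ typein n₀ < β`).
* `SRleIn_mono`: `BF M β a b → BF M α a b` for `α ≤ β` (unfold `BF`).
-/

namespace Pool.Agent.RNI

open Pool.Agent.NI

/-- the lexicographic refinement of a preorder -/
def BrC_G (p : Rl) : Rl := fun k =>
  p (Nat.pair k.unpair.1 k.unpair.2) || (!(p (Nat.pair k.unpair.1 k.unpair.2)) &&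
    (!(p (Nat.pair k.unpair.2 k.unpair.1)) && decide (k.unpair.1 < k.unpair.2)))

theorem BrC_ct (w : Rl) (n : ℕ) : ∃ t, ∀ w' : Rl, (∀ i < t, w' i = w i) → BrC_G w' n = BrC_G w n := by
  refine ⟨max (Nat.pair n.unpair.1 n.unpair.2) (Nat.pair n.unpair.2 n.unpair.1) + 1, fun w' h => ?_⟩
  have h1 := h (Nat.pair n.unpair.1 n.unpair.2) (Nat.lt_succ_of_le (le_max_left _ _))
  have h2 := h (Nat.pair n.unpair.2 n.unpair.1) (Nat.lt_succ_of_le (le_max_right _ _))
  unfold BrC_G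
  rw [h1, h2]

theorem BrC_rl (f : ℕ → Ordinal.{0}) (a b : ℕ) :
    rl (BrC_G (LZF.chr fun n => f n.unpair.1 < f n.unpair.2)) a b ↔ (f a < f b ∨ (f a = f b ∧ a < b)) := by
  unfold rl BrC_G LZF.chr
  simp only [Nat.unpair_pair, Bool.or_eq_true, Bool.and_eq_true, Bool.not_eq_true', decide_eq_true_eq,
    decide_eq_false_iff_not, not_lt]
  constructor
  · rintro (h | ⟨h1, h2, h3⟩)
    · exact Or.inl h
    · exact Or.inr ⟨le_antisymm h2 h1, h3⟩
  · rintro (h | ⟨h1, h2⟩)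
    · exact Or.inl h
    · exact Or.inr ⟨h1.ge, h1.le, h2⟩

/-- the embedding in the lexicographic product -/
def BrC_emb (f : ℕ → Ordinal.{0}) {r : ℕ → ℕ → Prop} (hr : ∀ a b, r a b ↔ (f a < f b ∨ (f a = f b ∧ a < b))) :
    r ↪r (Prod.Lex (fun x y : Ordinal.{0} => x < y) (fun x y : ℕ => x < y)) where
  toFun n := (f n, n)
  inj' := fun a b h => congrArg Prod.snd h
  map_rel_iff' := by
    intro a b
    rw [hr]
    exact Prod.lex_def

theorem BrC_wo (f : ℕ → Ordinal.{0}) {r : ℕ → ℕ → Prop} (hr : ∀ a b, r a b ↔ (f a < f b ∨ (f a = f b ∧ a < b))) :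
    IsWellOrder ℕ r := (BrC_emb f hr).isWellOrder

theorem BrC_typein (f : ℕ → Ordinal.{0}) {α : Ordinal.{0}} (hf : ∀ β, β ≤ α ↔ ∃ n, f n = β)
    {r : ℕ → ℕ → Prop} (hr : ∀ a b, r a b ↔ (f a < f b ∨ (f a = f b ∧ a < b))) [hw : IsWellOrder ℕ r] (n : ℕ) :
    f n ≤ Ordinal.typein r n := by
  induction n using hw.wf.induction with
  | _ n ih =>
    refine le_of_forall_lt fun γ hγ => ?_
    obtain ⟨m, hm⟩ := (hf γ).1 (hγ.le.trans ((hf (f n)).2 ⟨n, rfl⟩))
    have h1 : r m n := (hr m n).2 (Or.inl (by rw [hm]; exact hγ))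
    have h2 := ih m h1
    rw [hm] at h2
    exact h2.trans_lt ((Ordinal.typein_lt_typein r).2 h1)

theorem ct_in : ∃ c : Rl, ∀ R, RC R → c ∈ R → ∀ α, LZF.CtblIn R α → ∃ β, α ≤ β ∧ CtIn R β := by
  obtain ⟨c, hc⟩ := cont_mem BrC_G BrC_ct
  refine ⟨c, fun R hR hcR α hα => ?_⟩
  obtain ⟨f, hf, hp⟩ := hα
  have hw := hc R hR hcR _ hp
  have hr := BrC_rl f
  have hwo : IsWellOrder ℕ (rl (BrC_G (LZF.chr fun n => f n.unpair.1 < f n.unpair.2))) := BrC_wo f hr
  refine ⟨Ordinal.type (rl (BrC_G (LZF.chr fun n => f n.unpair.1 < f n.unpair.2))), ?_, _, hw, hwo, rfl⟩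
  obtain ⟨n₀, hn₀⟩ := (hf α).1 le_rfl
  have h1 := BrC_typein f hf hr n₀
  rw [hn₀] at h1
  exact h1.trans (Ordinal.typein_lt_type _ n₀).le

theorem SRleIn_mono (R : Set Rl) {L : Voc} (M : Str L) {α β : Ordinal.{0}} (h : α ≤ β)
    (hM : SRleIn R M α) : SRleIn R M β := by
  intro a b hab
  refine hM a b ?_
  rw [BF] at hab ⊢
  exact ⟨hab.1, fun γ hγ => hab.2 γ (hγ.trans_le h)⟩

end Pool.Agent.RNI
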