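import Pool.Agent.RNI.Main
import Pool.Agent.RNI.BrA
import Pool.Agent.RNI.BrB
import Pool.Agent.RNI.BrC

/-!
# BrS: the relative theorem in the form of `LZF/Idl.lean`

* `sin_in`: let `LZF.SIn R` and `InF R f` (`gr L ∈ R`, `fc f ∈ R`). `LZF.vcode L ∈ R` (`vcode_eq`), `LZF.fcode f ∈ R` (`fcode_in`).
  Case `LZF.BoundedIn R f`: `α`, `LZF.CtblIn R α`; `ct_in` gives `β ≥ α` with `CtIn R β`; `LZF.SRleIn R M α` is
  `SRleIn R M α` (`pcode_eq`), `SRleIn_mono`; `scode_eq`. Case `LZF.UniversalIn R f`: for `g` with `InF R g` the same, and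
  `LZF.RedIn R A B ↔ RedIn R A B` (`pcode_eq` in `LZF.IsoIn`).
* `relNI_LZF`: for `P` let `P' = {w | rt w ∈ P ∧ LZF.col 0 (rt w) = lf w}`. Its complement is analytic (union of the preimage of
  `Pᶜ` under the continuous map `rt` and of an open set: `MeasureTheory.AnalyticSet.preimage`, `AnalyticSet.union` or
  `AnalyticSet.iUnion`, `MeasurableSet.analyticSet`). `relNI P'` gives a table `c₁`; `idl_RC` gives `c₂`, `sin_in` gives `c₃`;
  let `c` be a real such that `LZF.Idl c R` implies `cᵢ ∈ R` (joins, `TRed_lf`, `TRed_rt`, `LZF.Idl.down`). Then `RC R` (apply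
  `idl_RC` to `LZF.Idl c₂ R`, which has the same fields), `{y | jn a y ∈ P'} = {y | y ∈ P ∧ LZF.col 0 y = a}` (`lf_jn`, `rt_jn`).
-/

namespace Pool.Agent.RNI

open Pool.Agent.NI

theorem BrS_iso {R : Set Rl} {L : Voc} (M N : Str L) : LZF.IsoIn R M N ↔ IsoIn R M N := by
  constructor
  · rintro ⟨s, h1, h2⟩
    exact ⟨s, by rw [← pcode_eq]; exact h1, h2⟩
  · rintro ⟨s, h1, h2⟩
    exact ⟨s, by rw [pcode_eq]; exact h1, h2⟩

theorem BrS_sr {R : Set Rl} {L : Voc} {M : Str L} {α : Ordinal.{0}} (h : LZF.SRleIn R M α) : SRleIn R M α := by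
  intro a b hab
  obtain ⟨s, h1, h2⟩ := h a b hab
  exact ⟨s, by rw [← pcode_eq]; exact h1, h2⟩

theorem BrS_red {R : Set Rl} {L L' : Voc} {A : Set (Str L)} {B : Set (Str L')} (h : LZF.RedIn R A B) :
    RedIn R A B := by
  obtain ⟨c, hc, h⟩ := h
  refine ⟨c, hc, fun y hy hcy => ?_⟩
  obtain ⟨e, he⟩ := h y hy hcy
  refine ⟨e, fun i j M N h1 h2 h3 h4 => ?_⟩
  obtain ⟨i', hi', j', hj', M', hM', N', hN', h5, h6, h7⟩ := he i j M N h1 h2 h3 h4
  refine ⟨i', hi', j', hj', M', hM', N', hN', h5, h6, ?_⟩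
  rw [← BrS_iso, ← BrS_iso]
  exact h7

theorem BrS_col0 (x y : Rl) : LZF.col 0 (LZF.jn x y) = x := by
  funext n
  simp [LZF.col, LZF.jn]

theorem BrS_col1 (x y : Rl) : LZF.col 1 (LZF.jn x y) = y := by
  funext n
  simp [LZF.col, LZF.jn]

theorem BrS_mem {c x y : Rl} {R : Set Rl} (h : LZF.Idl c R) (h' : LZF.jn x y ∈ R) : x ∈ R ∧ y ∈ R := by
  have h1 := TRed_col 0 (LZF.jn x y)
  have h2 := TRed_col 1 (LZF.jn x y)
  rw [BrS_col0] at h1
  rw [BrS_col1] at h2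
  exact ⟨h.down _ h' _ h1, h.down _ h' _ h2⟩

theorem BrS_lf : Continuous lf := continuous_pi fun n => continuous_apply (2 * n)

theorem BrS_rt : Continuous rt := continuous_pi fun n => continuous_apply (2 * n + 1)

theorem BrS_col : Continuous (LZF.col 0) := continuous_pi fun n => continuous_apply (Nat.pair 0 n)

theorem BrS_polish : PolishSpace Rl := {}

theorem BrS_ana {P : Set Rl} (hP : MeasureTheory.AnalyticSet Pᶜ) :
    MeasureTheory.AnalyticSet {w | rt w ∈ P ∧ LZF.col 0 (rt w) = lf w}ᶜ := by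
  have h0 := BrS_polish
  have h1 : MeasureTheory.AnalyticSet (rt ⁻¹' Pᶜ) := hP.preimage BrS_rt
  have h2 : IsOpen {w : Rl | LZF.col 0 (rt w) ≠ lf w} :=
    isOpen_ne_fun (BrS_col.comp BrS_rt) BrS_lf
  have h3 : MeasureTheory.AnalyticSet {w : Rl | LZF.col 0 (rt w) ≠ lf w} := by
    have h4 := h2.analyticSet_image continuous_id
    rwa [Set.image_id] at h4
  have h5 : {w | rt w ∈ P ∧ LZF.col 0 (rt w) = lf w}ᶜ = ⋃ b : Bool, cond b (rt ⁻¹' Pᶜ) {w : Rl | LZF.col 0 (rt w) ≠ lf w} := by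
    rw [← Set.union_eq_iUnion]
    ext w
    constructor
    · intro h
      by_cases hw : rt w ∈ P
      · exact Or.inr fun h6 => h ⟨hw, h6⟩
      · exact Or.inl hw
    · rintro (h | h) ⟨h6, h7⟩
      · exact h h6
      · exact h h7
  rw [h5]
  refine MeasureTheory.AnalyticSet.iUnion fun b => ?_
  cases b
  · exact h3
  · exact h1

theorem BrS_set (P : Set Rl) (a y : Rl) :
    jn a y ∈ {w | rt w ∈ P ∧ LZF.col 0 (rt w) = lf w} ↔ y ∈ P ∧ LZF.col 0 y = a := by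
  show rt (jn a y) ∈ P ∧ LZF.col 0 (rt (jn a y)) = lf (jn a y) ↔ _
  rw [rt_jn, lf_jn]

theorem sin_in : ∃ c : Rl, ∀ R, RC R → c ∈ R → LZF.SIn R → SIn R := by
  obtain ⟨c₁, h₁⟩ := fcode_in
  obtain ⟨c₂, h₂⟩ := ct_in
  refine ⟨jn c₁ c₂, fun R hR hc hS => ?_⟩
  have hc1 : c₁ ∈ R := by
    have := RC_lf hR hc
    rwa [lf_jn] at this
  have hc2 : c₂ ∈ R := by
    have := RC_rt hR hc
    rwa [rt_jn] at this
  intro L f hf
  rcases hS L f (by rw [vcode_eq]; exact hf.1) (h₁ R hR hc1 L f hf.2) with h | h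
  · left
    obtain ⟨α, hα, h3⟩ := h
    obtain ⟨β, hβ, h4⟩ := h₂ R hR hc2 α hα
    refine ⟨β, h4, fun M hM hMR => ?_⟩
    exact SRleIn_mono R M hβ (BrS_sr (h3 M hM (by rw [scode_eq]; exact hMR)))
  · right
    intro L' g hg
    exact BrS_red (h L' g (by rw [vcode_eq]; exact hg.1) (h₁ R hR hc1 L' g hg.2))

theorem relNI_LZF : LZF.RelNI := by
  intro P hP
  obtain ⟨c₁, h₁⟩ := relNI _ (BrS_ana hP)
  obtain ⟨c₂, h₂⟩ := idl_RC
  obtain ⟨c₃, h₃⟩ := sin_in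
  refine ⟨LZF.jn c₁ (LZF.jn c₂ c₃), fun a R hR ha hthin hcof hS => ?_⟩
  obtain ⟨hc1, hc23⟩ := BrS_mem hR hR.base
  obtain ⟨hc2, hc3⟩ := BrS_mem hR hc23
  have hRC : RC R := h₂ R ⟨hc2, hR.down, hR.join, hR.beta⟩
  refine h₁ R hRC hc1 a ha ?_ ?_ (h₃ R hRC hc3 hS)
  · rintro ⟨f, hf1, hf2, hf3⟩
    exact hthin ⟨f, hf1, hf2, fun z => (BrS_set P a (f z)).1 (hf3 z)⟩
  · intro d hd
    obtain ⟨y, hy, hy1, hy2, hy3⟩ := hcof d hd
    exact ⟨y, hy, (BrS_set P a y).2 ⟨hy1, hy2⟩, hy3⟩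

end Pool.Agent.RNI
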