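import Pool.Agent.RNI.Defs
import Pool.Agent.NI.MsD

/-!
# MsU: the set `DU` is measurable

Copy of the module `NI/MsD` (all `MsD_...` lemmas there are available: `MsD_bit`, `MsD_all`, `MsD_ex`, `MsD_imp`,
`MsD_Split`, `MsD_FV`, `MsD_TRed`, `MsD_pre`, ...), with `B` replaced by `Bof (cB x)`:
`Bof (cB x) s t ↔ x (Nat.pair 6 (Nat.pair (encode s) (encode t))) = true` is a condition on one bit. In
`TB (Bof (cB x)) (Lr x) b u` this is one more hypothesis of the form `MsD_imp (MsD_bit _)` (`MsD_TB` has `MsD_imp'` at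
this place); in `Cert` only `der` uses `TB`.
-/

namespace Pool.Agent.RNI

open Pool.Agent.NI

theorem MsU_TB (b : ℕ) (u : List (Bool × ℕ)) :
    MsD_M (fun x => TB (Bof (cB x)) (Lr x) b u) := by
  unfold TB
  exact MsD_all fun s => MsD_imp' (MsD_imp' (MsD_imp (MsD_bit _) (MsD_and (MsD_imp' (MsD_bit _))
    (MsD_all fun s' => MsD_all fun a => MsD_imp' (MsD_imp' (MsD_bit _))))))

theorem MsU_Cert : MsD_M (fun x => Cert (Bof (cB x)) x) := by
  have h1 : MsD_M (fun x => ∀ b c u, tS x b c u ↔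
      (TB (Bof (cB x)) (Lr x) b u ∧ ∀ c', Lr' x c' c → Split (tS x b c') u)) :=
    MsD_all fun b => MsD_all fun c => MsD_all fun u => MsD_iff (MsD_bit _)
      (MsD_and (MsU_TB b u) (MsD_all fun c' => MsD_imp (MsD_bit _) (MsD_Split b c' u)))
  have h2 : MsD_M (fun x => ∀ b, ∃ c₀, (∀ u, ¬ tS x b c₀ u) ∧ ∀ c, Lr' x c c₀ → ∃ u, tS x b c u) :=
    MsD_all fun b => MsD_ex fun c₀ => MsD_and (MsD_all fun u => MsD_not (MsD_bit _))
      (MsD_all fun c => MsD_imp (MsD_bit _) (MsD_ex fun u => MsD_bit _))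
  have h3 : MsD_M (fun x => ∀ b c u, tS x b c u → ¬ Split (tS x b c) u →
      ∃ j, ∀ v : List (Bool × ℕ), u <+: v → tS x b c v → v.map Prod.fst = pre (cY x j) v.length) :=
    MsD_all fun b => MsD_all fun c => MsD_all fun u => MsD_imp (MsD_bit _)
      (MsD_imp (MsD_not (MsD_Split b c u)) (MsD_ex fun j => MsD_all fun v =>
        MsD_imp' (MsD_imp (MsD_bit _) (MsD_pre j _ _))))
  have h4 : MsD_M (fun x => ∀ j, ¬ TRed (cW x) (cY x j)) :=
    MsD_all fun j => MsD_not (MsD_TRed j)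
  refine MsD_congr (MsD_and h1 (MsD_and h2 (MsD_and h3 h4))) fun x => ?_
  constructor
  · rintro ⟨a, b, c, d⟩
    exact ⟨a, b, c, d⟩
  · rintro ⟨a, b, c, d⟩
    exact ⟨a, b, c, d⟩

theorem meas_DU : MeasurableSet DU := by
  have h : MsD_M (fun x => IsSys x ∧ (∀ n k, x (cF n k (FV (Desc (Lr x)) n k)) = true) ∧
      Cert (Bof (cB x)) x) :=
    MsD_and MsD_IsSys (MsD_and (MsD_all fun n => MsD_all fun k => MsD_FV n k) MsU_Cert)
  refine MsD_congr h (q := fun x => x ∈ DU) fun x => ?_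
  constructor
  · rintro ⟨h1, h2, h3⟩
    refine ⟨h1, fun n k => ?_, h3⟩
    rw [← MsD_sysF h1, h2]
  · rintro ⟨h1, h2, h3⟩
    refine ⟨h1, ?_, h3⟩
    funext n k
    rw [MsD_sysF h1]
    exact h2 n k

end Pool.Agent.RNI
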