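import Pool.Agent.RNI.Sel
import Pool.Agent.RNI.MsU
import Pool.Agent.NI.ExD

/-!
# CrR: certificates in `R`

`select` for `A` = the set of all `v` with `rt v ∈ DU`, `cB (rt v) = lf (lf v)` and, for all `a c`,
`(Lr (rt v) a c ↔ rl (rt (lf v)) a c)`: measurable (`meas_DU` and measurability of `rt`; countably many conditions
on bits). Parameter `p = jn b l`.
Existence in the universe: `exists_DB (Bof b) hthin (rl l) hl` gives `x₀ ∈ DB (Bof b)` with `Lr x₀ = rl l`. Let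
`x m = if m.unpair.1 = 6 then b m.unpair.2 else x₀ m`. Then `cB x = b`, and the columns `0, ..., 5` of `x` and `x₀` agree:
`x (cF n k j) = x₀ (cF n k j)`, `IsSys x ↔ IsSys x₀`, `sysF x = sysF x₀`, `Lr x = Lr x₀`, `Lr' x = Lr' x₀`, `tS x = tS x₀`,
`cY x = cY x₀`, `cW x = cW x₀` (`funext`, `Nat.unpair_pair`); so `x ∈ DB (Bof b) = DB (Bof (cB x))`.
-/

namespace Pool.Agent.RNI

open Pool.Agent.NI

theorem CrR_polish : PolishSpace Rl := { }

/-- The analytic set. -/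
def CrR_A : Set Rl := {v | rt v ∈ DU ∧ cB (rt v) = lf (lf v) ∧
  ∀ a c, (Lr (rt v) a c ↔ rl (rt (lf v)) a c)}

theorem CrR_meas_rt : Measurable rt := by
  rw [measurable_pi_iff]
  intro n
  exact measurable_pi_apply _

theorem CrR_meas : MeasurableSet CrR_A := by
  have h1 : MsD_M (fun v => rt v ∈ DU) := CrR_meas_rt meas_DU
  have h2 : MsD_M (fun v => ∀ n, (rt v (Nat.pair 6 n) = true ↔ lf (lf v) n = true)) :=
    MsD_all fun n => MsD_iff (MsD_bit _) (MsD_bit _)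
  have h3 : MsD_M (fun v => ∀ a c, (Lr (rt v) a c ↔ rl (rt (lf v)) a c)) :=
    MsD_all fun a => MsD_all fun c => MsD_iff (MsD_bit _) (MsD_bit _)
  refine MsD_congr (MsD_and h1 (MsD_and h2 h3)) (q := fun v => v ∈ CrR_A) fun v => ?_
  have e : (cB (rt v) = lf (lf v)) ↔
      ∀ n, (rt v (Nat.pair 6 n) = true ↔ lf (lf v) n = true) := by
    constructor
    · intro h n
      have h' := congrFun h n
      show cB (rt v) n = true ↔ _
      rw [h']
    · intro h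
      funext n
      exact Bool.eq_iff_iff.2 (h n)
  show (rt v ∈ DU ∧ cB (rt v) = lf (lf v) ∧ ∀ a c, (Lr (rt v) a c ↔ rl (rt (lf v)) a c)) ↔ _
  rw [e]

/-- Put `b` in the column `6`. -/
def CrR_x (b x₀ : Rl) : Rl := fun m => if m.unpair.1 = 6 then b m.unpair.2 else x₀ m

theorem CrR_col (b x₀ : Rl) (i n : ℕ) (h : i ≠ 6) :
    CrR_x b x₀ (Nat.pair i n) = x₀ (Nat.pair i n) := by
  unfold CrR_x
  rw [if_neg (by rw [Nat.unpair_pair]; exact h)]

theorem CrR_six (b x₀ : Rl) : cB (CrR_x b x₀) = b := by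
  funext n
  unfold cB CrR_x
  rw [Nat.unpair_pair]
  exact if_pos rfl

theorem CrR_DB (b x₀ : Rl) (h : x₀ ∈ DB (Bof b)) : CrR_x b x₀ ∈ DB (Bof b) := by
  have e0 : ∀ n k j, CrR_x b x₀ (cF n k j) = x₀ (cF n k j) := fun n k j =>
    CrR_col b x₀ 0 _ (by decide)
  have e1 : Lr (CrR_x b x₀) = Lr x₀ := by
    funext a c
    unfold Lr
    rw [CrR_col b x₀ 1 _ (by decide)]
  have e2 : Lr' (CrR_x b x₀) = Lr' x₀ := by
    funext a c
    unfold Lr'
    rw [CrR_col b x₀ 2 _ (by decide)]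
  have e3 : tS (CrR_x b x₀) = tS x₀ := by
    funext a c u
    unfold tS
    rw [CrR_col b x₀ 3 _ (by decide)]
  have e4 : ∀ j, cY (CrR_x b x₀) j = cY x₀ j := by
    intro j
    funext n
    unfold cY
    rw [CrR_col b x₀ 4 _ (by decide)]
  have e5 : cW (CrR_x b x₀) = cW x₀ := by
    funext n
    unfold cW
    rw [CrR_col b x₀ 5 _ (by decide)]
  have es : sysF (CrR_x b x₀) = sysF x₀ := by
    funext n k
    unfold sysF
    simp only [e0]
  obtain ⟨h1, h2, h3⟩ := h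
  refine ⟨?_, ?_, ?_⟩
  · intro n k
    simp only [e0]
    exact h1 n k
  · rw [es, e1]
    exact h2
  · obtain ⟨c1, c2, c3, c4⟩ := h3
    refine ⟨?_, ?_, ?_, ?_⟩
    · rw [e1, e2, e3]
      exact c1
    · rw [e2, e3]
      exact c2
    · rw [e3]
      intro a c u hu hs
      obtain ⟨j, hj⟩ := c3 a c u hu hs
      refine ⟨j, fun v h1 h2 => ?_⟩
      rw [e4]
      exact hj v h1 h2
    · intro j
      rw [e4, e5]
      exact c4 j

theorem cert_in : ∃ c : Rl, ∀ R, RC R → c ∈ R → ∀ b ∈ R, Thin (PB (Bof b)) → ∀ l ∈ R,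
    WellFounded (rl l) → ∃ x ∈ R, x ∈ DS b ∧ ∀ a c, Lr x a c ↔ rl l a c := by
  have := CrR_polish
  obtain ⟨c, hc⟩ := select CrR_A CrR_meas.analyticSet
  refine ⟨c, fun R hR hcR b hb hthin l hl hwf => ?_⟩
  have hex : ∃ x, jn (jn b l) x ∈ CrR_A := by
    obtain ⟨x₀, hx₀, hL⟩ := exists_DB (Bof b) hthin (rl l) hwf
    refine ⟨CrR_x b x₀, ?_⟩
    show rt (jn (jn b l) _) ∈ DU ∧ cB (rt (jn (jn b l) _)) = lf (lf (jn (jn b l) _)) ∧
      ∀ a c, (Lr (rt (jn (jn b l) _)) a c ↔ rl (rt (lf (jn (jn b l) _))) a c)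
    rw [rt_jn, lf_jn, lf_jn, rt_jn]
    refine ⟨?_, CrR_six b x₀, ?_⟩
    · show CrR_x b x₀ ∈ DB (Bof (cB (CrR_x b x₀)))
      rw [CrR_six]
      exact CrR_DB b x₀ hx₀
    · intro a c
      unfold Lr
      rw [CrR_col b x₀ 1 _ (by decide)]
      exact hL a c
  obtain ⟨x, hxR, hx⟩ := hc R hR hcR (jn b l) (hR.join b hb l hl) hex
  obtain ⟨h1, h2, h3⟩ := hx
  rw [rt_jn] at h1 h2
  rw [lf_jn, lf_jn] at h2
  refine ⟨x, hxR, ⟨h1, h2⟩, fun a c' => ?_⟩
  have h4 := h3 a c'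
  rw [rt_jn, lf_jn, rt_jn] at h4
  exact h4

end Pool.Agent.RNI
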