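import Pool.Agent.NI.Core

/-!
# MP_053ed5_lc: Statement S inside a model with the set of reals `R`

`R` is the set of the reals (elements of `ℕ → Bool`) of a wellfounded model. All quantifiers over reals,
structures, permutations, formulas and countable ordinals are restricted to those coded in `R`.
-/

namespace Pool.Agent.RNI

open Pool.Agent.NI

/-! ### Statement S for the reals `R` -/

/-- The graph of a function, as a real. -/
def gr (z : ℕ → ℕ) : Rl := fun k => decide (z k.unpair.1 = k.unpair.2)

open Classical in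
/-- The atomic diagram of a structure, as a real. -/
noncomputable def dg {L : Voc} (M : Str L) : Rl :=
  fun k => decide (M.rel k.unpair.1 (Denumerable.ofNat (List ℕ) k.unpair.2))

/-- The labelled tree of a formula: the label of the node `s`. -/
def lab {L : Voc} : {n : ℕ} → Fml L n → List ℕ → ℕ
  | _, Fml.rel k v _, _ => 5 * Nat.pair k (Encodable.encode (v.map fun i => (i : ℕ)))
  | _, Fml.eq i j, _ => 5 * Nat.pair i j + 1
  | _, Fml.neg _, [] => 2
  | _, Fml.neg f, _ :: s => lab f s
  | _, Fml.conj _, [] => 3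
  | _, Fml.conj f, m :: s => lab (f m) s
  | _, Fml.all _, [] => 4
  | _, Fml.all f, _ :: s => lab f s

/-- The code of a formula, a real. -/
def fc {L : Voc} {n : ℕ} (f : Fml L n) : Rl := gr fun s => lab f (Denumerable.ofNat (List ℕ) s)

/-- The sentence `f` (and its vocabulary) belongs to the model. -/
def InF (R : Set Rl) {L : Voc} (f : Fml L 0) : Prop := gr L ∈ R ∧ fc f ∈ R

/-- Isomorphism in the model: there is an isomorphism in `R`. -/
def IsoIn (R : Set Rl) {L : Voc} (M N : Str L) : Prop :=
  ∃ s : ℕ ≃ ℕ, gr s ∈ R ∧ ∀ k l, M.rel k l ↔ N.rel k (l.map s)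

/-- `Scott rank at most α` in the model. -/
def SRleIn (R : Set Rl) {L : Voc} (M : Str L) (α : Ordinal.{0}) : Prop :=
  ∀ a b : List ℕ, BF M α a b →
    ∃ s : ℕ ≃ ℕ, gr s ∈ R ∧ (∀ k l, M.rel k l ↔ M.rel k (l.map s)) ∧ a.map s = b

/-- The binary relation on `ℕ` coded by a real. -/
def rl (w : Rl) (a b : ℕ) : Prop := w (Nat.pair a b) = true

/-- `α` is an infinite countable ordinal of the model: the type of a wellorder of `ℕ` in `R`. -/
def CtIn (R : Set Rl) (α : Ordinal.{0}) : Prop :=
  ∃ w ∈ R, ∃ _ : IsWellOrder ℕ (rl w), Ordinal.type (rl w) = α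

/-- The class of the models of `f` has bounded Scott rank, in the model. -/
def BoundedIn (R : Set Rl) {L : Voc} (f : Fml L 0) : Prop :=
  ∃ α, CtIn R α ∧ ∀ M ∈ Mod f, dg M ∈ R → SRleIn R M α

/-- Index reducibility on a cone, in the model. -/
def RedIn (R : Set Rl) {L L' : Voc} (A : Set (Str L)) (B : Set (Str L')) : Prop :=
  ∃ c ∈ R, ∀ y ∈ R, TRed c y → ∃ e : ℕ, ∀ (i j : ℕ) (M N : Str L),
    IsIdx y i M → IsIdx y j N → M ∈ A → N ∈ A →
    ∃ i' ∈ Phi y e i, ∃ j' ∈ Phi y e j, ∃ M' ∈ B, ∃ N' ∈ B,
      IsIdx y i' M' ∧ IsIdx y j' N' ∧ (IsoIn R M N ↔ IsoIn R M' N')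

/-- Universality, in the model. -/
def UniversalIn (R : Set Rl) {L : Voc} (f : Fml L 0) : Prop :=
  ∀ (L' : Voc) (g : Fml L' 0), InF R g → RedIn R (Mod g) (Mod f)

/-- Statement S in the model. -/
def SIn (R : Set Rl) : Prop := ∀ (L : Voc) (f : Fml L 0), InF R f → BoundedIn R f ∨ UniversalIn R f

/-! ### Sets of reals closed under Turing reducibility, with the beta property -/

/-- The join of two reals. -/
def jn (x y : Rl) : Rl := fun n => if n % 2 = 0 then x (n / 2) else y (n / 2)

/-- The left part of a real. -/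
def lf (w : Rl) : Rl := fun n => w (2 * n)

/-- The right part of a real. -/
def rt (w : Rl) : Rl := fun n => w (2 * n + 1)

/-- `R` is closed under joins and Turing reducibility, and every tree in `R` which has a branch has
a branch in `R`. -/
structure RC (R : Set Rl) : Prop where
  tred : ∀ x ∈ R, ∀ c, TRed c x → c ∈ R
  join : ∀ x ∈ R, ∀ y ∈ R, jn x y ∈ R
  beta : ∀ T ∈ R, (∃ z : ℕ → ℕ, ∀ n, T (Encodable.encode (pre z n)) = true) →
    ∃ z : ℕ → ℕ, gr z ∈ R ∧ ∀ n, T (Encodable.encode (pre z n)) = true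

/-- The set of pairs of finite sequences coded by a real. -/
def Bof (b : Rl) (s : List ℕ) (t : List Bool) : Prop :=
  b (Nat.pair (Encodable.encode s) (Encodable.encode t)) = true

/-- `P` has no perfect subset. -/
def Thin (P : Set Rl) : Prop :=
  ¬ ∃ f : Rl → Rl, Continuous f ∧ Function.Injective f ∧ ∀ z, f z ∈ P

/-- The column with the parameter. -/
def cB (x : Rl) : Rl := fun n => x (Nat.pair 6 n)

/-- The reals with certificates for the coanalytic set given by their column `6`. -/
def DU : Set Rl := {x | x ∈ DB (Bof (cB x))}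

/-- The reals with certificates for the coanalytic set `PB (Bof b)`. -/
def DS (b : Rl) : Set Rl := {x | x ∈ DU ∧ cB x = b}

end Pool.Agent.RNI
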