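import Pool.Agent.RNI.Bas
import Pool.Agent.NI.Dgl

/-!
# DgR: the inverse system of attempts, uniformly in the coanalytic set

Copy of `NI/Dgl` with `B` replaced by `Bof (rt w)`, `y` replaced by `lf w` in `ER`, and the oracle `y` of the functionals
replaced by `w`. In the definition of `Vlw` the quantifier is over all `w'` which agree with `w` below `s.length` (so
the parameter `rt w'` varies too). The lemmas of `NI/Dgl` (`Dgl_Op`, `Dgl_and`, `Dgl_ex`, `Dgl_const`, `Dgl_Kn`,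
`Dgl_gS`, `Dgl_fin`, `Dgl_len`, `Fail_mono`, ...) are available. The only new point: `fun w => ¬ ER (Bof (rt w)) (lf w) q p`
is open (`Dgl_Op`): besides the bits of `lf w` below the lengths of the sequences coded by `q`, `p` it uses one
bit of `rt w` in each of the two cases with `B`.
-/

namespace Pool.Agent.RNI

open Pool.Agent.NI

/-- With oracle `w` it is seen that `s` is not an initial segment of a witness. -/
def TFw (a e : ℕ) (w : Rl) (s : List ℕ) : Prop :=
  Fail (Kn w a.unpair.1 (smn a.unpair.2.unpair.1 e)) (Kn w a.unpair.1 (smn a.unpair.2.unpair.2 e))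
    (ER (Bof (rt w)) (lf w)) (gS s)

/-- The tree of attempts. -/
def Vlw (a e : ℕ) (w : Rl) (s : List ℕ) : Prop :=
  ¬ ∀ w' : Rl, (∀ i < s.length, w' i = w i) → TFw a e w' s

theorem DgR_Bof (b b' : Rl) (s : List ℕ) (t : List Bool)
    (h : b' (Nat.pair (Encodable.encode s) (Encodable.encode t)) =
      b (Nat.pair (Encodable.encode s) (Encodable.encode t))) :
    Bof b' s t → Bof b s t := by
  intro h1
  unfold Bof at h1 ⊢
  rw [← h]
  exact h1

theorem DgR_ER (q p : ℕ) : Dgl_Op (fun w => ¬ ER (Bof (rt w)) (lf w) q p) := by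
  intro w hw
  have hw0 : ¬ ER (Bof (rt w)) (lf w) q p := hw
  refine ⟨2 * ((Denumerable.ofNat (List ℕ) p.unpair.2).length +
      (Denumerable.ofNat (List ℕ) q.unpair.2).length + 2) +
    2 * Nat.pair (Encodable.encode (Denumerable.ofNat (List ℕ) q.unpair.2))
      (Encodable.encode (pre (lf w) ((Denumerable.ofNat (List ℕ) p.unpair.2).length + 1))) +
    2 * Nat.pair (Encodable.encode (Denumerable.ofNat (List ℕ) q.unpair.2))
      (Encodable.encode (pre (lf w) (Denumerable.ofNat (List ℕ) q.unpair.2).length)) + 4, ?_⟩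
  intro w' hw' h
  apply hw0
  rcases h with ⟨m, m', h1, h2, h3⟩ | ⟨s, m', h1, h2⟩ | ⟨s, a, h1, h2, h3⟩ | ⟨c, m', h1, h2⟩ |
    ⟨c, s, h1, h2, h3⟩ | ⟨c, c', h1, h2, h3⟩
  · exact Or.inl ⟨m, m', h1, h2, h3⟩
  · exact Or.inr (Or.inl ⟨s, m', h1, h2⟩)
  · refine Or.inr (Or.inr (Or.inl ⟨s, a, h1, h2, ?_⟩))
    have hs : Denumerable.ofNat (List ℕ) p.unpair.2 = s := by
      rw [h1, Nat.unpair_pair]
      exact Denumerable.ofNat_encode s
    have hs' : Denumerable.ofNat (List ℕ) q.unpair.2 = s ++ [a] := by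
      rw [h2, Nat.unpair_pair]
      exact Denumerable.ofNat_encode (s ++ [a])
    rw [hs, hs'] at hw'
    have e : pre (lf w') (s.length + 1) = pre (lf w) (s.length + 1) :=
      Dgl_pre fun i hi => hw' (2 * i) (by omega)
    rw [e] at h3
    exact DgR_Bof (rt w) (rt w') _ _ (hw' (2 * Nat.pair (Encodable.encode (s ++ [a]))
      (Encodable.encode (pre (lf w) (s.length + 1))) + 1) (by omega)) h3
  · exact Or.inr (Or.inr (Or.inr (Or.inl ⟨c, m', h1, h2⟩)))
  · refine Or.inr (Or.inr (Or.inr (Or.inr (Or.inl ⟨c, s, h1, h2, ?_⟩))))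
    have hs : Denumerable.ofNat (List ℕ) q.unpair.2 = s := by
      rw [h2, Nat.unpair_pair]
      exact Denumerable.ofNat_encode s
    rw [hs] at hw'
    have e : pre (lf w') s.length = pre (lf w) s.length :=
      Dgl_pre fun i hi => hw' (2 * i) (by omega)
    rw [e] at h3
    exact DgR_Bof (rt w) (rt w') _ _ (hw' (2 * Nat.pair (Encodable.encode s)
      (Encodable.encode (pre (lf w) s.length)) + 1) (by omega)) h3
  · exact Or.inr (Or.inr (Or.inr (Or.inr (Or.inr ⟨c, c', h1, h2, h3⟩))))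

theorem DgR_open (a e : ℕ) (w : Rl) (s : List ℕ)
    (h : TFw a e w s) : ∃ t, ∀ w' : Rl, (∀ i < t, w' i = w i) → TFw a e w' s := by
  have key : Dgl_Op (fun w => TFw a e w s) := by
    unfold TFw Fail
    refine Dgl_or ?_ (Dgl_or ?_ (Dgl_or ?_ (Dgl_or ?_ ?_)))
    · exact Dgl_ex fun k => Dgl_ex fun b => Dgl_and (Dgl_const _) (Dgl_and (Dgl_Kn _ _ _ _ _)
        (Dgl_Kn _ _ _ _ _))
    · exact Dgl_and (Dgl_const _) (Dgl_ex fun n => Dgl_ex fun z => Dgl_and (Dgl_const _)
        (Dgl_Kn _ _ _ _ _))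
    · exact Dgl_and (Dgl_const _) (Dgl_ex fun n => Dgl_ex fun z => Dgl_ex fun a =>
        Dgl_and (Dgl_const _) (Dgl_and (Dgl_const _) (Dgl_Kn _ _ _ _ _)))
    · exact Dgl_and (Dgl_const _) (Dgl_ex fun n => Dgl_ex fun z => Dgl_ex fun a => Dgl_ex fun v =>
        Dgl_and (Dgl_const _) (Dgl_and (Dgl_const _) (Dgl_and (Dgl_const _) (Dgl_Kn _ _ _ _ _))))
    · exact Dgl_and (Dgl_const _) (Dgl_ex fun n => Dgl_ex fun z => Dgl_ex fun a => Dgl_ex fun w =>
        Dgl_ex fun v => Dgl_ex fun p => Dgl_ex fun q => Dgl_and (Dgl_const _)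
        (Dgl_and (Dgl_Kn _ _ _ _ _) (Dgl_and (Dgl_Kn _ _ _ _ _) (Dgl_and (Dgl_Kn _ _ _ _ _)
        (Dgl_and (Dgl_const _) (Dgl_and (Dgl_const _) (DgR_ER q p)))))))
  exact key w h

theorem DgR_mono (a e : ℕ) (w : Rl) (s s' : List ℕ)
    (hs : ∀ i m, gS s i m → gS s' i m) (h : TFw a e w s) : TFw a e w s' :=
  Fail_mono (fun _ _ _ h => h) (fun _ _ _ h => h) (fun _ _ h => h) hs h

theorem Vlw_pre (a e : ℕ) (w : Rl) (s : List ℕ) (b : ℕ) (h : Vlw a e w (s ++ [b])) :
    Vlw a e w s := by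
  intro hs
  apply h
  intro y' hy'
  refine DgR_mono a e y' s (s ++ [b]) ?_ (hs y' fun i hi => hy' i ?_)
  · intro i m him
    unfold gS at him ⊢
    obtain ⟨hi, -⟩ := List.getElem?_eq_some_iff.1 him
    rw [List.getElem?_append_left hi]
    exact him
  · rw [List.length_append]
    omega

theorem Vlw_branch (a e : ℕ) (w : Rl) (G : ℕ → ℕ) :
    (∀ n, Vlw a e w (pre G n)) ↔
      ¬ Fail (Kn w a.unpair.1 (smn a.unpair.2.unpair.1 e))
        (Kn w a.unpair.1 (smn a.unpair.2.unpair.2 e)) (ER (Bof (rt w)) (lf w))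
        (fun i m => G i = m) := by
  constructor
  · intro hV hF
    obtain ⟨N, hN⟩ := Dgl_fin G hF
    obtain ⟨t, ht⟩ := DgR_open a e w (pre G N) hN
    apply hV (max N t)
    intro y' hy'
    rw [Dgl_len] at hy'
    refine DgR_mono a e y' (pre G N) _ ?_ (ht y' fun i hi => hy' i (lt_max_of_lt_right hi))
    intro i m him
    rw [Dgl_gS] at him ⊢
    exact ⟨lt_max_of_lt_left him.1, him.2⟩
  · intro hF n hV
    apply hF
    refine Fail_mono (fun _ _ _ h => h) (fun _ _ _ h => h) (fun _ _ h => h) ?_ (hV w fun _ _ => rfl)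
    intro i m him
    exact ((Dgl_gS G _ _ _).1 him).2

theorem DgR_congr (a e : ℕ) (y y' : Rl) (s : List ℕ)
    (h : ∀ i < s.length, y' i = y i) : Vlw a e y s ↔ Vlw a e y' s := by
  unfold Vlw
  apply not_congr
  constructor
  · intro h1 z hz
    exact h1 z fun i hi => (hz i hi).trans (h i hi)
  · intro h1 z hz
    exact h1 z fun i hi => (hz i hi).trans (h i hi).symm

theorem DgR_FV (a e : ℕ) (y y' : Rl) (n k : ℕ)
    (h : ∀ i < n + 1, y' i = y i) : FV (Vlw a e y) n k = FV (Vlw a e y') n k := by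
  unfold FV
  have h1 : ((Denumerable.ofNat (List ℕ) k).length = n + 1 ∧
      Vlw a e y (Denumerable.ofNat (List ℕ) k)) ↔
      ((Denumerable.ofNat (List ℕ) k).length = n + 1 ∧
      Vlw a e y' (Denumerable.ofNat (List ℕ) k)) := by
    apply and_congr_right
    intro hl
    apply DgR_congr
    rw [hl]
    exact h
  by_cases hc : (Denumerable.ofNat (List ℕ) k).length = n + 1 ∧
      Vlw a e y (Denumerable.ofNat (List ℕ) k)
  · rw [if_pos hc, if_pos (h1.1 hc)]
  · rw [if_neg hc, if_neg (fun h2 => hc (h1.2 h2))]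

theorem index_FVw :
    ∃ c : Rl, ∀ w, TRed c w → ∀ a, ∃ e, ∀ n k,
      Phi w e (Nat.pair n k) = Part.some (FV (Vlw a e w) n k) := by
  let H : Rl → ℕ → ℕ → Prop := fun y z m =>
    m = FV (Vlw z.unpair.1 z.unpair.2.unpair.1 y) z.unpair.2.unpair.2.unpair.1
      z.unpair.2.unpair.2.unpair.2
  have hct : Ct H := by
    intro y z m h
    refine ⟨z.unpair.2.unpair.2.unpair.1 + 1, fun y' hy' => ?_⟩
    have h1 : m = FV (Vlw z.unpair.1 z.unpair.2.unpair.1 y) z.unpair.2.unpair.2.unpair.1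
      z.unpair.2.unpair.2.unpair.2 := h
    show m = FV (Vlw z.unpair.1 z.unpair.2.unpair.1 y') z.unpair.2.unpair.2.unpair.1
      z.unpair.2.unpair.2.unpair.2
    rw [h1]
    exact DgR_FV _ _ y y' _ _ hy'
  have hsv : Sv H := by
    intro y z m m' h h'
    have h1 : m = FV (Vlw z.unpair.1 z.unpair.2.unpair.1 y) z.unpair.2.unpair.2.unpair.1
      z.unpair.2.unpair.2.unpair.2 := h
    have h2 : m' = FV (Vlw z.unpair.1 z.unpair.2.unpair.1 y) z.unpair.2.unpair.2.unpair.1
      z.unpair.2.unpair.2.unpair.2 := h'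
    rw [h1, h2]
  obtain ⟨c, hc⟩ := rec_index H hct hsv
  refine ⟨c, fun y hy a => ?_⟩
  obtain ⟨e, he⟩ := hc y hy a
  refine ⟨e, fun n k => ?_⟩
  rw [Part.eq_some_iff, he]
  show FV (Vlw a e y) n k = FV (Vlw (Nat.pair a (Nat.pair e (Nat.pair n k))).unpair.1
    (Nat.pair a (Nat.pair e (Nat.pair n k))).unpair.2.unpair.1 y)
    (Nat.pair a (Nat.pair e (Nat.pair n k))).unpair.2.unpair.2.unpair.1
    (Nat.pair a (Nat.pair e (Nat.pair n k))).unpair.2.unpair.2.unpair.2
  simp only [Nat.unpair_pair]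

end Pool.Agent.RNI
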