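import Pool.Agent.RNI.Sel
import Pool.Agent.NI.MsD

/-!
# IsR: isomorphic structures of the model are isomorphic in the model

`IsoA`: the set of all `v` such that with `p = lf v`, `m = lf p`, `n = rt p`, `s = rt v`: `s` is the graph of a
permutation which is an isomorphism of the structures with the diagrams `m`, `n`.
* `meas_IsoA`: countable intersections and unions of conditions on single bits (see the lemmas `MsD_bit`, `MsD_all`,
  `MsD_ex`, `MsD_imp`, `MsD_iff`, `MsD_const` in `NI/MsD`, which may be imported).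
* `IsoA_gr`: `s` is the graph of a permutation: choose the values, `Equiv.ofBijective`.
* `IsoA_iff`: `dg M (pair k (encode l)) = true ↔ M.rel k l` (`Nat.unpair_pair`, `Denumerable.ofNat_encode`,
  `decide_eq_true_iff`); for `s = gr t` the condition on `l, l'` says `l' = l.map t`.
* `iso_in`: `select` for the analytic set `IsoA` (`MeasurableSet.analyticSet`) with the parameter
  `p = jn (dg M) (dg N) ∈ R`: a witness `x ∈ R` is `gr t` by `IsoA_gr`.
-/

namespace Pool.Agent.RNI

open Pool.Agent.NI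

/-- `rt v` is the graph of an isomorphism between the structures coded by the two parts of `lf v`. -/
def IsoA : Set Rl := {v |
  (∀ a, ∃ b, rt v (Nat.pair a b) = true) ∧
  (∀ a b b', rt v (Nat.pair a b) = true → rt v (Nat.pair a b') = true → b = b') ∧
  (∀ b, ∃ a, rt v (Nat.pair a b) = true) ∧
  (∀ a a' b, rt v (Nat.pair a b) = true → rt v (Nat.pair a' b) = true → a = a') ∧
  ∀ (k : ℕ) (l l' : List ℕ), l.length = l'.length →
    (∀ i < l.length, rt v (Nat.pair (l.getD i 0) (l'.getD i 0)) = true) →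
    (lf (lf v) (Nat.pair k (Encodable.encode l)) = true ↔
      rt (lf v) (Nat.pair k (Encodable.encode l')) = true)}

theorem IsR_polish : PolishSpace Rl := { }

theorem IsR_rt (k : ℕ) : MsD_M (fun v => rt v k = true) := MsD_bit _

theorem IsR_ll (k : ℕ) : MsD_M (fun v => lf (lf v) k = true) := MsD_bit _

theorem IsR_rl (k : ℕ) : MsD_M (fun v => rt (lf v) k = true) := MsD_bit _

theorem meas_IsoA : MeasurableSet IsoA := by
  have h1 : MsD_M (fun v => ∀ a, ∃ b, rt v (Nat.pair a b) = true) :=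
    MsD_all fun a => MsD_ex fun b => IsR_rt _
  have h2 : MsD_M (fun v => ∀ a b b', rt v (Nat.pair a b) = true →
      rt v (Nat.pair a b') = true → b = b') :=
    MsD_all fun a => MsD_all fun b => MsD_all fun b' => MsD_imp (IsR_rt _)
      (MsD_imp (IsR_rt _) (MsD_const _))
  have h3 : MsD_M (fun v => ∀ b, ∃ a, rt v (Nat.pair a b) = true) :=
    MsD_all fun a => MsD_ex fun b => IsR_rt _
  have h4 : MsD_M (fun v => ∀ a a' b, rt v (Nat.pair a b) = true →
      rt v (Nat.pair a' b) = true → a = a') :=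
    MsD_all fun a => MsD_all fun b => MsD_all fun b' => MsD_imp (IsR_rt _)
      (MsD_imp (IsR_rt _) (MsD_const _))
  have h5 : MsD_M (fun v => ∀ (k : ℕ) (l l' : List ℕ), l.length = l'.length →
      (∀ i, i < l.length → rt v (Nat.pair (l.getD i 0) (l'.getD i 0)) = true) →
      (lf (lf v) (Nat.pair k (Encodable.encode l)) = true ↔
        rt (lf v) (Nat.pair k (Encodable.encode l')) = true)) :=
    MsD_all fun k => MsD_all fun l => MsD_all fun l' => MsD_imp' (MsD_imp
      (MsD_all fun i => MsD_imp' (IsR_rt _)) (MsD_iff (IsR_ll _) (IsR_rl _)))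
  exact MsD_and h1 (MsD_and h2 (MsD_and h3 (MsD_and h4 h5)))

theorem IsoA_gr (p s : Rl) (h : jn p s ∈ IsoA) : ∃ t : ℕ ≃ ℕ, gr t = s := by
  obtain ⟨h1, h2, h3, h4, -⟩ := h
  rw [rt_jn] at h1 h2 h3 h4
  choose f hf using h1
  have hinj : Function.Injective f := by
    intro a a' haa
    refine h4 a a' (f a) (hf a) ?_
    rw [haa]
    exact hf a'
  have hsurj : Function.Surjective f := by
    intro b
    obtain ⟨a, ha⟩ := h3 b
    exact ⟨a, h2 a _ _ (hf a) ha⟩
  refine ⟨Equiv.ofBijective f ⟨hinj, hsurj⟩, ?_⟩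
  funext k
  unfold gr
  rw [Bool.eq_iff_iff, decide_eq_true_iff]
  show f k.unpair.1 = k.unpair.2 ↔ _
  constructor
  · intro h
    have h5 := hf k.unpair.1
    rw [h, Nat.pair_unpair] at h5
    exact h5
  · intro h
    refine h2 k.unpair.1 _ _ (hf _) ?_
    rw [Nat.pair_unpair]
    exact h

theorem IsR_gr (z : ℕ → ℕ) (a b : ℕ) : gr z (Nat.pair a b) = true ↔ z a = b := by
  unfold gr
  rw [decide_eq_true_iff, Nat.unpair_pair]

theorem IsR_dg {L : Voc} (M : Str L) (k : ℕ) (l : List ℕ) :
    dg M (Nat.pair k (Encodable.encode l)) = true ↔ M.rel k l := by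
  classical
  unfold dg
  rw [decide_eq_true_iff, Nat.unpair_pair]
  simp only [Denumerable.ofNat_encode]

theorem IsoA_iff {L : Voc} (M N : Str L) (t : ℕ ≃ ℕ) :
    jn (jn (dg M) (dg N)) (gr t) ∈ IsoA ↔ ∀ k l, M.rel k l ↔ N.rel k (l.map t) := by
  constructor
  · rintro ⟨-, -, -, -, h⟩ k l
    have h1 := h k l (l.map t) (by rw [List.length_map])
    rw [rt_jn, lf_jn, lf_jn, rt_jn, IsR_dg, IsR_dg] at h1
    apply h1
    intro i hi
    rw [IsR_gr, List.getD_eq_getElem _ _ hi, List.getD_eq_getElem _ _ (by rwa [List.length_map]),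
      List.getElem_map]
  · intro h
    refine ⟨?_, ?_, ?_, ?_, ?_⟩
    · intro a
      exact ⟨t a, by rw [rt_jn, IsR_gr]⟩
    · intro a b b' h1 h2
      rw [rt_jn, IsR_gr] at h1 h2
      exact h1.symm.trans h2
    · intro b
      exact ⟨t.symm b, by rw [rt_jn, IsR_gr]; exact t.apply_symm_apply b⟩
    · intro a a' b h1 h2
      rw [rt_jn, IsR_gr] at h1 h2
      exact t.injective (h1.trans h2.symm)
    · intro k l l' hl hi
      have h1 : l' = l.map t := by
        apply List.ext_getElem
        · rw [List.length_map, hl]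
        · intro i hi1 hi2
          have h2 := hi i (by rwa [hl])
          rw [rt_jn, IsR_gr, List.getD_eq_getElem _ _ (by rwa [hl]),
            List.getD_eq_getElem _ _ hi1] at h2
          rw [List.getElem_map, h2]
      rw [lf_jn, lf_jn, rt_jn, IsR_dg, IsR_dg, h1]
      exact h k l

theorem iso_in : ∃ c : Rl, ∀ R, RC R → c ∈ R → ∀ (L : Voc) (M N : Str L), dg M ∈ R → dg N ∈ R →
    Iso M N → IsoIn R M N := by
  have := IsR_polish
  obtain ⟨c, hc⟩ := select IsoA meas_IsoA.analyticSet
  refine ⟨c, fun R hR hcR L M N hM hN hiso => ?_⟩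
  obtain ⟨t, ht⟩ := hiso
  obtain ⟨x, hxR, hx⟩ := hc R hR hcR (jn (dg M) (dg N)) (hR.join _ hM _ hN)
    ⟨gr t, (IsoA_iff M N t).2 ht⟩
  obtain ⟨t', ht'⟩ := IsoA_gr _ _ hx
  refine ⟨t', ?_, (IsoA_iff M N t').1 ?_⟩
  · rw [ht']
    exact hxR
  · rw [ht']
    exact hx

end Pool.Agent.RNI
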