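import Pool.Agent.RNI.PCt

/-!
# IxR: structures with an index relative to a real in `R` are in `R`

`pcont_par` for `H w z m` : with `k = z.unpair.2.unpair.1`, `l = Denumerable.ofNat (List ℕ) z.unpair.2.unpair.2`,
`(l.length ≠ VT k ∧ m = 0) ∨ (l.length = VT k ∧ m ∈ Phi w z.unpair.1 z.unpair.2)`. Continuous (`Phi_use`) and
single valued (`Part.mem_unique`). For `IsIdx w i M` take `a = i`, `x = dg M`: if `l.length ≠ VT k` then `M.rel k l` is false
(`M.len`); otherwise `IsIdx` (note `Nat.pair k (encode l) = n` for `k = n.unpair.1`, `l = ofNat _ n.unpair.2`).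
-/

namespace Pool.Agent.RNI

open Pool.Agent.NI

/-- the relation of `pcont_par` -/
def IxR_H (w : Rl) (z m : ℕ) : Prop :=
  ((Denumerable.ofNat (List ℕ) z.unpair.2.unpair.2).length ≠ VT z.unpair.2.unpair.1 ∧ m = 0) ∨
    ((Denumerable.ofNat (List ℕ) z.unpair.2.unpair.2).length = VT z.unpair.2.unpair.1 ∧
      m ∈ Phi w z.unpair.1 z.unpair.2)

theorem IxR_ct : Ct IxR_H := by
  intro y n m h
  rcases h with h | ⟨h1, h2⟩
  · exact ⟨0, fun y' _ => Or.inl h⟩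
  · obtain ⟨t, ht⟩ := Phi_use _ y _ m h2
    exact ⟨t, fun y' hy' => Or.inr ⟨h1, ht y' hy'⟩⟩

theorem IxR_sv : Sv IxR_H := by
  intro y n m m' h h'
  rcases h with ⟨h1, h2⟩ | ⟨h1, h2⟩
  · rcases h' with ⟨h3, h4⟩ | ⟨h3, h4⟩
    · rw [h2, h4]
    · exact absurd h3 h1
  · rcases h' with ⟨h3, h4⟩ | ⟨h3, h4⟩
    · exact absurd h1 h3
    · exact Part.mem_unique h2 h4

theorem IxR_val (w : Rl) (i : ℕ) (M : Str VT) (h : IsIdx w i M) (n : ℕ) :
    IxR_H w (Nat.pair i n) (dg M n).toNat := by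
  unfold IxR_H
  rw [Nat.unpair_pair]
  by_cases h1 : (Denumerable.ofNat (List ℕ) n.unpair.2).length = VT n.unpair.1
  · right
    refine ⟨h1, ?_⟩
    have h2 := h n.unpair.1 _ h1
    rw [Denumerable.encode_ofNat, Nat.pair_unpair] at h2
    show (dg M n).toNat ∈ Phi w i n
    rw [h2, Part.mem_some_iff]
    by_cases h3 : M.rel n.unpair.1 (Denumerable.ofNat (List ℕ) n.unpair.2)
    · simp [dg, h3]
    · simp [dg, h3]
  · left
    refine ⟨h1, ?_⟩
    have h3 : ¬ M.rel n.unpair.1 (Denumerable.ofNat (List ℕ) n.unpair.2) := fun h4 => h1 (M.len _ _ h4)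
    simp [dg, h3]

theorem idx_in : ∃ c : Rl, ∀ R, RC R → c ∈ R → ∀ w ∈ R, ∀ (i : ℕ) (M : Str VT), IsIdx w i M →
    dg M ∈ R := by
  obtain ⟨c, hc⟩ := pcont_par IxR_H IxR_ct IxR_sv
  refine ⟨c, fun R hR hcR w hw i M hM => ?_⟩
  exact hc R hR hcR w hw i (dg M) (IxR_val w i M hM)

end Pool.Agent.RNI
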