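import Pool.Agent.RNI.DgR
import Pool.Agent.RNI.IsR
import Pool.Agent.RNI.IxR
import Pool.Agent.NI.Fin
import Pool.Agent.NI.Fin

/-!
# FnR: the class is not universal in the model

Copy of the proof of `not_universal` in `NI/Fin`. Let `c₀ ∈ R` be the base of the cone in `RedIn`, `cA`, `cB'` the reals of
`dia_gen SA loc_A`, `dia_gen SB loc_B`, `cV` the real of `index_FVw`, `cX` the real of `index_cW`, and `c` a join
(`RC_tables`) of `cA, cB', cV, cX` and the tables of `idx_in`, `iso_in`. Let `d = jn c₀ (jn b c') ∈ R` with `c'` such that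
`TRed c' y` implies that the four reals are reducible to `y` (`exists_join`), `y ∈ R` in `PB (Bof b)` above `d`, and
`w = jn y b ∈ R`: `lf w = y`, `rt w = b`, `TRed y w`, `TRed w y` (`TRed_jn`, `TRed_refl`, `TRed b y`). All functionals use the
oracle `w`: `ef` from `RedIn` at `w`; `d1, d2` from `dia_gen` at `w`; `e` from `index_FVw` at `w` for
`a = pair ef (pair d1 d2)`; `F = FV (Vlw a e w)`; `SA F`, `SB F ∈ KD DAll = Mod fAll`; `i', j', M1, M2` from `RedIn`.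
`IsoIn R M N ↔ Iso M N` for `M, N = SA F, SB F` and for `M1, M2` (all have an index relative to `w`: `idx_in`, `iso_in`; the
other direction is trivial). `KD (DS b) ⊆ KD (DB (Bof b))` (`x ∈ DS b` means `x ∈ DB (Bof (cB x))`, `cB x = b`).
Then as in `not_universal` with `B = Bof b` (`Vlw_branch`, `Vlw_pre`, `Fin_Kn_eq`, `FV_thread`, `sound`, `ER_wf`,
`exists_rank`, `Fin_xof`, `truth`, `complete`, `ER_rank`, `Fin_ord`); `TRed (cW (xof M1)) w` by `index_cW`, so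
`TRed (cW (xof M1)) y` by `TRed_trans`.
-/

namespace Pool.Agent.RNI

open Pool.Agent.NI

theorem FnR_left (x y : Rl) : TRed x (jn x y) := by
  have h := TRed_lf (jn x y)
  rwa [lf_jn] at h

theorem FnR_right (x y : Rl) : TRed y (jn x y) := by
  have h := TRed_rt (jn x y)
  rwa [rt_jn] at h

theorem FnR_sub {b : Rl} {M : Str VT} (h : M ∈ KD (DS b)) : M ∈ KD (DB (Bof b)) := by
  obtain ⟨x, ⟨hx, hxb⟩, κ, θ, h1, h2⟩ := h
  refine ⟨x, ?_, κ, θ, h1, h2⟩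
  have hx' : x ∈ DB (Bof (cB x)) := hx
  rwa [hxb] at hx'

theorem FnR_iso {R : Set Rl} {L : Voc} {M N : Str L} (h : IsoIn R M N) : Iso M N := by
  obtain ⟨s, -, hs⟩ := h
  exact ⟨s, hs⟩

theorem not_univ_in : ∃ c : Rl, ∀ R, RC R → c ∈ R → ∀ b ∈ R, PC (Bof b) → Thin (PB (Bof b)) →
    (∀ d ∈ R, ∃ y ∈ R, y ∈ PB (Bof b) ∧ TRed d y) →
    ∀ f fAll : Fml VT 0, Mod f = KD (DS b) → Mod fAll = KD DAll →
      ¬ RedIn R (Mod fAll) (Mod f) := by
  classical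
  obtain ⟨cA, hcA⟩ := dia_gen SA loc_A
  obtain ⟨cB', hcB⟩ := dia_gen SB loc_B
  obtain ⟨cV, hcV⟩ := index_FVw
  obtain ⟨cX, hcX⟩ := index_cW
  obtain ⟨cI, hcI⟩ := idx_in
  obtain ⟨cS, hcS⟩ := iso_in
  obtain ⟨c, hc⟩ := RC_tables fun n => match n with
    | 0 => cA
    | 1 => cB'
    | 2 => cV
    | 3 => cX
    | 4 => cI
    | _ => cS
  refine ⟨c, fun R hR hcR b hb hPC hthin hcof f fAll hf hfAll hU => ?_⟩
  obtain ⟨c₀, hc₀R, hc₀⟩ := hU
  have eA : cA ∈ R := hc R hR hcR 0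
  have eB : cB' ∈ R := hc R hR hcR 1
  have eV : cV ∈ R := hc R hR hcR 2
  have eX : cX ∈ R := hc R hR hcR 3
  have eI : cI ∈ R := hc R hR hcR 4
  have eS : cS ∈ R := hc R hR hcR 5
  have m4 : jn cV cX ∈ R := hR.join _ eV _ eX
  have m3 : jn cB' (jn cV cX) ∈ R := hR.join _ eB _ m4
  have m2 : jn cA (jn cB' (jn cV cX)) ∈ R := hR.join _ eA _ m3
  have m1 : jn b (jn cA (jn cB' (jn cV cX))) ∈ R := hR.join _ hb _ m2
  have m0 : jn c₀ (jn b (jn cA (jn cB' (jn cV cX)))) ∈ R := hR.join _ hc₀R _ m1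
  obtain ⟨y, hyR, hyP, hdy⟩ := hcof _ m0
  have t0 : TRed c₀ y := TRed_trans _ _ _ (FnR_left _ _) hdy
  have s1 := TRed_trans _ _ _ (FnR_right _ _) hdy
  have t1 : TRed b y := TRed_trans _ _ _ (FnR_left _ _) s1
  have s2 := TRed_trans _ _ _ (FnR_right _ _) s1
  have t2 : TRed cA y := TRed_trans _ _ _ (FnR_left _ _) s2
  have s3 := TRed_trans _ _ _ (FnR_right _ _) s2
  have t3 : TRed cB' y := TRed_trans _ _ _ (FnR_left _ _) s3
  have s4 := TRed_trans _ _ _ (FnR_right _ _) s3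
  have t4 : TRed cV y := TRed_trans _ _ _ (FnR_left _ _) s4
  have t5 : TRed cX y := TRed_trans _ _ _ (FnR_right _ _) s4
  obtain ⟨w, hwdef⟩ : ∃ w, w = jn y b := ⟨_, rfl⟩
  have hwR : w ∈ R := by rw [hwdef]; exact hR.join _ hyR _ hb
  have hl : lf w = y := by rw [hwdef, lf_jn]
  have hr : rt w = b := by rw [hwdef, rt_jn]
  have hyw : TRed y w := by rw [hwdef]; exact FnR_left _ _
  have hwy : TRed w y := by rw [hwdef]; exact TRed_jn _ _ _ (TRed_refl y) t1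
  obtain ⟨ef, hef⟩ := hc₀ w hwR (TRed_trans _ _ _ t0 hyw)
  obtain ⟨d1, hd1⟩ := hcA w (TRed_trans _ _ _ t2 hyw)
  obtain ⟨d2, hd2⟩ := hcB w (TRed_trans _ _ _ t3 hyw)
  obtain ⟨e, he⟩ := hcV w (TRed_trans _ _ _ t4 hyw) (Nat.pair ef (Nat.pair d1 d2))
  have hI1 := hd1 e _ he
  have hI2 := hd2 e _ he
  have hm1 : SA (FV (Vlw (Nat.pair ef (Nat.pair d1 d2)) e w)) ∈ Mod fAll := by
    rw [hfAll]
    exact SA_mem _
  have hm2 : SB (FV (Vlw (Nat.pair ef (Nat.pair d1 d2)) e w)) ∈ Mod fAll := by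
    rw [hfAll]
    exact SB_mem _
  obtain ⟨i', hi', j', hj', M1, hM1, M2, hM2, hx1, hx2, hiso0⟩ :=
    hef _ _ _ _ hI1 hI2 hm1 hm2
  have hiso : Iso (SA (FV (Vlw (Nat.pair ef (Nat.pair d1 d2)) e w)))
      (SB (FV (Vlw (Nat.pair ef (Nat.pair d1 d2)) e w))) ↔ Iso M1 M2 := by
    constructor
    · intro h
      exact FnR_iso (hiso0.mp (hcS R hR eS VT _ _ (hcI R hR eI w hwR _ _ hI1)
        (hcI R hR eI w hwR _ _ hI2) h))
    · intro h
      exact FnR_iso (hiso0.mpr (hcS R hR eS VT _ _ (hcI R hR eI w hwR _ _ hx1)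
        (hcI R hR eI w hwR _ _ hx2) h))
  rw [hf] at hM1 hM2
  replace hM1 := FnR_sub hM1
  replace hM2 := FnR_sub hM2
  have hK1 := Fin_Kn_eq hi' hx1
  have hK2 := Fin_Kn_eq hj' hx2
  have hth : Thread (FV (Vlw (Nat.pair ef (Nat.pair d1 d2)) e w)) ↔
      ∃ G : ℕ → ℕ, ¬ Fail (KT M1) (KT M2) (ER (Bof b) y) (fun i m => G i = m) := by
    rw [FV_thread _ (fun s a => Vlw_pre _ e w s a)]
    constructor
    · rintro ⟨G, hG⟩
      refine ⟨G, ?_⟩
      have := (Vlw_branch _ e w G).mp hG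
      simp only [Nat.unpair_pair] at this
      rw [hK1, hK2, hl, hr] at this
      exact this
    · rintro ⟨G, hG⟩
      refine ⟨G, ?_⟩
      rw [Vlw_branch _ e w G]
      simp only [Nat.unpair_pair]
      rw [hK1, hK2, hl, hr]
      exact hG
  by_cases hi : Iso M1 M2
  · obtain ⟨G, hG⟩ := hth.mp ((iso_AB _).mp (hiso.mpr hi))
    exact hG (sound M1 M2 (Fin_KD_sub hM1) (Fin_KD_sub hM2) hi _ (ER_wf (Bof b) hPC y hyP) G)
  · obtain ⟨β, hβ1, hβ2⟩ := exists_rank (Bof b) hPC y hyP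
    have hxD : xof M1 ∈ DB (Bof b) := Fin_xof hM1
    have hWw : TRed (cW (xof M1)) w := hcX w (TRed_trans _ _ _ t5 hyw) i' M1 hx1
    have hW : TRed (cW (xof M1)) y := TRed_trans _ _ _ hWw hwy
    obtain ⟨G, hG⟩ := complete (DB (Bof b)) M1 M2 hM1 hM2 hi (ER (Bof b) y)
      (Ordinal.omega0 + (β + 2))
      (fun p hp b' => truth (Bof b) hPC hthin (xof M1) hxD y hW β hβ2 p hp b')
      (Nat.pair 2 (Nat.pair 2 0))
      (Rk_mono _ (Fin_ord β) (ER_rank (Bof b) hPC y β hβ1))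
    exact hi (hiso.mp ((iso_AB _).mpr (hth.mpr ⟨G, hG⟩)))

end Pool.Agent.RNI
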