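import Pool.Agent.RNI.IsR
import Pool.Agent.RNI.BrA
import Pool.Agent.RNI.BrB

/-!
# IsA: isomorphism is analytic, and isomorphism in the ideal is isomorphism

* First part: `G = {(m, n) | ∃ s, jn (jn m n) s ∈ IsoA}`: the image of the preimage of the measurable set `IsoA`
  (`meas_IsoA`) under the continuous map `(m, n, s) ↦ jn (jn m n) s` (`MeasurableSet.analyticSet`,
  `MeasureTheory.AnalyticSet.image_of_continuous`). `(LZF.scode N, LZF.scode N') ∈ G ↔ Iso N N'`: `scode_eq`, `IsoA_gr`, `IsoA_iff`.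
* Second part: `LZF.IsoIn R N N' → Iso N N'` is trivial. `←`: `idl_RC`, `iso_in`, `scode_eq`, `pcode_eq`; the base `c` is such
  that `c ∈ R` gives the tables of `idl_RC` and `iso_in`: e.g. the real `LZF.jn c₁ c₂` (`TRed_col`, `LZF.Idl.down`; note that
  `LZF.Idl c R` implies `LZF.Idl c₁ R` as soon as `c₁ ∈ R`).
-/

namespace Pool.Agent.RNI

open Pool.Agent.NI

theorem IsA_jn {X : Type*} [TopologicalSpace X] {f g : X → Rl} (hf : Continuous f) (hg : Continuous g) :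
    Continuous fun x => jn (f x) (g x) := by
  refine continuous_pi fun n => ?_
  show Continuous fun x => if n % 2 = 0 then f x (n / 2) else g x (n / 2)
  split_ifs
  · exact (continuous_apply _).comp hf
  · exact (continuous_apply _).comp hg

/-- the pairs of diagrams of isomorphic structures -/
def IsA_G : Set (Rl × Rl) := {q | ∃ s, jn (jn q.1 q.2) s ∈ IsoA}

theorem IsA_polish : PolishSpace Rl := {}

theorem IsA_ana : MeasureTheory.AnalyticSet IsA_G := by
  have h0 := IsA_polish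
  have h1 : MeasureTheory.AnalyticSet IsoA := meas_IsoA.analyticSet
  have h2 : Continuous fun x : (Rl × Rl) × Rl => jn (jn x.1.1 x.1.2) x.2 :=
    IsA_jn (IsA_jn continuous_fst.fst continuous_fst.snd) continuous_snd
  have h3 := (h1.preimage h2).image_of_continuous continuous_fst
  have h4 : Prod.fst '' ((fun x : (Rl × Rl) × Rl => jn (jn x.1.1 x.1.2) x.2) ⁻¹' IsoA) = IsA_G := by
    ext q
    constructor
    · rintro ⟨x, hx, rfl⟩
      exact ⟨x.2, hx⟩
    · rintro ⟨s, hs⟩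
      exact ⟨(q, s), hs, rfl⟩
  rw [h4] at h3
  exact h3

theorem IsA_iff {L : Voc} (N N' : Str L) : (LZF.scode N, LZF.scode N') ∈ IsA_G ↔ Iso N N' := by
  rw [scode_eq, scode_eq]
  constructor
  · rintro ⟨s, hs⟩
    obtain ⟨t, rfl⟩ := IsoA_gr _ _ hs
    exact ⟨t, (IsoA_iff N N' t).1 hs⟩
  · rintro ⟨t, ht⟩
    exact ⟨gr t, (IsoA_iff N N' t).2 ht⟩

theorem IsA_col0 (x y : Rl) : LZF.col 0 (LZF.jn x y) = x := by
  funext n
  simp [LZF.col, LZF.jn]

theorem IsA_col1 (x y : Rl) : LZF.col 1 (LZF.jn x y) = y := by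
  funext n
  simp [LZF.col, LZF.jn]

theorem IsA_left {x y : Rl} {R : Set Rl} (h : LZF.Idl (LZF.jn x y) R) : x ∈ R := by
  have h1 := TRed_col 0 (LZF.jn x y)
  rw [IsA_col0] at h1
  exact h.down _ h.base _ h1

theorem IsA_right {x y : Rl} {R : Set Rl} (h : LZF.Idl (LZF.jn x y) R) : y ∈ R := by
  have h1 := TRed_col 1 (LZF.jn x y)
  rw [IsA_col1] at h1
  exact h.down _ h.base _ h1

theorem IsA_base {c d : Rl} {R : Set Rl} (h : LZF.Idl c R) (hd : d ∈ R) : LZF.Idl d R :=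
  ⟨hd, h.down, h.join, h.beta⟩

theorem isoAna : LZF.IsoAna := by
  refine ⟨⟨IsA_G, IsA_ana, fun L N N' => IsA_iff N N'⟩, ?_⟩
  obtain ⟨c₁, h₁⟩ := idl_RC
  obtain ⟨c₂, h₂⟩ := iso_in
  refine ⟨LZF.jn c₁ c₂, fun R hR L N N' hN hN' => ?_⟩
  constructor
  · rintro ⟨s, -, hs⟩
    exact ⟨s, hs⟩
  · intro h
    rw [scode_eq] at hN hN'
    obtain ⟨s, hs1, hs2⟩ := h₂ R (h₁ R (IsA_base hR (IsA_left hR))) (IsA_right hR) L N N' hN hN' h
    exact ⟨s, by rw [pcode_eq]; exact hs1, hs2⟩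

end Pool.Agent.RNI
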