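import Pool.Agent.RNI.PCt
import Pool.Agent.NI.Nrm

/-!
# SeN: sections of a coanalytic set of the plane

`coanalytic_normal P h` gives `B₀` with `PC B₀` and `P = PB B₀`; let `β` be its code (`Bof β = B₀`). For `a` let
`B s t ↔ s.length ≤ t.length ∧ B₀ s (pre (jn a (fun i => t.getD i false)) s.length)`.
* `PC B`: if `B (s ++ [k]) (t ++ [v])` then `s.length ≤ t.length`, and the initial segment of length `s.length` of
  `pre (jn a (t ++ [v])) (s.length + 1)` is `pre (jn a t) s.length` (it uses only the places `i / 2 < t.length`), and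
  `PC B₀`.
* `PB B = {y | jn a y ∈ P}`: for `t = pre y n` and `s = pre z n`: `B s t ↔ B₀ (pre z n) (pre (jn a y) n)`.
* `b` with `Bof b = B` is a continuous function of `jn β a` (each bit of `b` depends on finitely many bits):
  `cont_mem`; the table is a join (`RC_tables`) with `β`.
-/

namespace Pool.Agent.RNI

open Pool.Agent.NI

/-- The join of a real and a finite sequence. -/
def SeN_j (a : Rl) (t : List Bool) : Rl := jn a (fun i => t.getD i false)

/-- The set of pairs for the section. -/
def SeN_B (β a : Rl) (s : List ℕ) (t : List Bool) : Prop :=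
  s.length ≤ t.length ∧ Bof β s (pre (SeN_j a t) s.length)

open Classical in
/-- Its code. -/
noncomputable def SeN_G (w : Rl) : Rl := fun q =>
  decide (SeN_B (lf w) (rt w) (Denumerable.ofNat (List ℕ) q.unpair.1)
    (((Encodable.decode q.unpair.2 : Option (List Bool))).getD []))

theorem SeN_pre_congr {α : Type} (f g : ℕ → α) (n : ℕ) (h : ∀ i < n, f i = g i) :
    pre f n = pre g n := by
  unfold pre
  exact List.map_congr_left fun i hi => h i (List.mem_range.1 hi)

theorem SeN_j_congr (a a' : Rl) (t t' : List Bool) (n : ℕ) (ha : ∀ i < n, a i = a' i)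
    (ht : ∀ i < n, t.getD i false = t'.getD i false) : ∀ i < n, SeN_j a t i = SeN_j a' t' i := by
  intro i hi
  have h1 : i / 2 < n := lt_of_le_of_lt (Nat.div_le_self i 2) hi
  unfold SeN_j jn
  split_ifs
  · exact ha _ h1
  · exact ht _ h1

theorem SeN_cont : ∀ (w : Rl) (n : ℕ), ∃ t, ∀ w' : Rl, (∀ i < t, w' i = w i) →
    SeN_G w' n = SeN_G w n := by
  intro w n
  obtain ⟨s, hs⟩ : ∃ s, s = Denumerable.ofNat (List ℕ) n.unpair.1 := ⟨_, rfl⟩
  obtain ⟨t, ht⟩ : ∃ t, t = ((Encodable.decode n.unpair.2 : Option (List Bool))).getD [] := ⟨_, rfl⟩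
  refine ⟨2 * s.length + 2 * (Nat.pair (Encodable.encode s)
    (Encodable.encode (pre (SeN_j (rt w) t) s.length))) + 2, fun w' h => ?_⟩
  have e1 : pre (SeN_j (rt w') t) s.length = pre (SeN_j (rt w) t) s.length := by
    apply SeN_pre_congr
    apply SeN_j_congr
    · intro i hi
      exact h _ (by omega)
    · intro i _
      rfl
  have h2 : SeN_B (lf w') (rt w') s t ↔ SeN_B (lf w) (rt w) s t := by
    unfold SeN_B Bof
    rw [e1]
    have e2 : lf w' (Nat.pair (Encodable.encode s)
        (Encodable.encode (pre (SeN_j (rt w) t) s.length))) = lf w (Nat.pair (Encodable.encode s)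
        (Encodable.encode (pre (SeN_j (rt w) t) s.length))) := h _ (by omega)
    rw [e2]
  unfold SeN_G
  rw [← hs, ← ht]
  exact decide_eq_decide.2 h2

theorem SeN_Bof (w : Rl) : Bof (SeN_G w) = SeN_B (lf w) (rt w) := by
  classical
  funext s t
  unfold Bof SeN_G
  rw [decide_eq_true_iff, Nat.unpair_pair]
  simp only [Denumerable.ofNat_encode, Encodable.encodek, Option.getD_some]

theorem SeN_PC (β a : Rl) (h : PC (Bof β)) : PC (SeN_B β a) := by
  intro s k t v hB
  obtain ⟨h1, h2⟩ := hB
  rw [List.length_append, List.length_append, List.length_singleton, List.length_singleton] at h1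
  rw [List.length_append, List.length_singleton, Nrm_succ] at h2
  refine ⟨by omega, ?_⟩
  have h3 := h _ _ _ _ h2
  have e1 : pre (SeN_j a (t ++ [v])) s.length = pre (SeN_j a t) s.length := by
    apply SeN_pre_congr
    apply SeN_j_congr
    · intro i _
      rfl
    · intro i hi
      rw [List.getD_append _ _ _ _ (by omega)]
  rw [e1] at h3
  exact h3

theorem SeN_PB (β a : Rl) : PB (SeN_B β a) = {y | jn a y ∈ PB (Bof β)} := by
  ext y
  show (¬ ∃ z : ℕ → ℕ, ∀ n, SeN_B β a (pre z n) (pre y n)) ↔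
    ¬ ∃ z : ℕ → ℕ, ∀ n, Bof β (pre z n) (pre (jn a y) n)
  rw [not_iff_not]
  refine exists_congr fun z => forall_congr' fun n => ?_
  unfold SeN_B
  rw [Nrm_len, Nrm_len]
  have e1 : pre (SeN_j a (pre y n)) n = pre (jn a y) n := by
    apply SeN_pre_congr
    intro i hi
    have h1 : i / 2 < n := lt_of_le_of_lt (Nat.div_le_self i 2) hi
    unfold SeN_j jn
    split_ifs
    · rfl
    · show (pre y n).getD (i / 2) false = y (i / 2)
      rw [List.getD_eq_getElem _ _ (by rw [Nrm_len]; exact h1)]
      simp [pre]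
  rw [e1]
  simp

theorem section_normal (P : Set Rl) (h : MeasureTheory.AnalyticSet Pᶜ) :
    ∃ c : Rl, ∀ R, RC R → c ∈ R → ∀ a ∈ R, ∃ b ∈ R, PC (Bof b) ∧
      PB (Bof b) = {y | jn a y ∈ P} := by
  classical
  obtain ⟨B₀, hB₀, hP⟩ := coanalytic_normal P h
  let β : Rl := fun m => decide (B₀ (Denumerable.ofNat (List ℕ) m.unpair.1)
    (((Encodable.decode m.unpair.2 : Option (List Bool))).getD []))
  have hβ : Bof β = B₀ := by
    funext s t
    unfold Bof
    show (decide (B₀ (Denumerable.ofNat (List ℕ) (Nat.pair _ _).unpair.1)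
      (((Encodable.decode (Nat.pair _ _).unpair.2 : Option (List Bool))).getD [])) = true) = _
    rw [decide_eq_true_iff, Nat.unpair_pair]
    simp only [Denumerable.ofNat_encode, Encodable.encodek, Option.getD_some]
  obtain ⟨c₁, hc₁⟩ := cont_mem SeN_G SeN_cont
  refine ⟨jn β c₁, fun R hR hcR a ha => ?_⟩
  have h1 : β ∈ R := by
    have := RC_lf hR hcR
    rwa [lf_jn] at this
  have h2 : c₁ ∈ R := by
    have := RC_rt hR hcR
    rwa [rt_jn] at this
  refine ⟨SeN_G (jn β a), hc₁ R hR h2 _ (hR.join β h1 a ha), ?_, ?_⟩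
  · rw [SeN_Bof, lf_jn, rt_jn]
    apply SeN_PC
    rw [hβ]
    exact hB₀
  · rw [SeN_Bof, lf_jn, rt_jn, SeN_PB, hβ, ← hP]

end Pool.Agent.RNI
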