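import Pool.Agent.RNI.PCt
import Pool.Agent.RNI.MsU
import Pool.Agent.NI.Sen

/-!
# SnR: the two sentences belong to the model

`exists_sentence` with `meas_DU` (`x ∈ DU` implies `IsSys x`) gives `fU` with `Mod fU = KD DU`, with `meas_DAll` it gives
`fAll`. For `n : ℕ`, `v : Bool` let `g n = Fml.all (Fml.rel (4 * Nat.pair 6 n) [0] _)` (the variable is `Fin.last 0 = 0`), so
`Sat M (g n) Fin.elim0 ↔ ∀ z, M.rel (4 * Nat.pair 6 n) [z]`, and `bit n v = if v then g n else Fml.neg (g n)`. Let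
`fB b = Fml.conj fun m => match m with | 0 => fU | m + 1 => bit m (b m)`.
* `Mod (fB b) = KD (DS b)`: a model of `fU` is `Std x (sysF x) κ θ` with `x ∈ DU`, and
  `(Std x F κ θ).rel (4 * p) [z] ↔ x p = true` (`Std_rel0`); so the other conjuncts say `cB x = b`.
* `fc (fB b)` is a continuous function of `b`: `lab (fB b) [] = 3`, `lab (fB b) (0 :: s) = lab fU s`,
  `lab (fB b) ((m + 1) :: s) = lab (bit m (b m)) s` depends on the bit `b m` only: `cont_mem`.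
* `gr VT`, `fc fAll` are fixed reals: put them into the table (`RC_tables`).
-/

namespace Pool.Agent.RNI

open Pool.Agent.NI

/-- the bit `n` of the column is one -/
def SnR_g (n : ℕ) : Fml VT 0 :=
  Fml.all (Fml.rel (4 * Nat.pair 6 n) [Fin.last 0] (Sen_v0 _).symm)

/-- the bit `n` of the column is `v` -/
def SnR_bit (n : ℕ) (v : Bool) : Fml VT 0 := if v = true then SnR_g n else Fml.neg (SnR_g n)

/-- the parts of the sentence -/
def SnR_part (fU : Fml VT 0) (b : Rl) : ℕ → Fml VT 0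
  | 0 => fU
  | m + 1 => SnR_bit m (b m)

/-- the sentence -/
def SnR_f (fU : Fml VT 0) (b : Rl) : Fml VT 0 := Fml.conj (SnR_part fU b)

theorem SnR_sat_g (n : ℕ) (M : Str VT) :
    Sat M (SnR_g n) Fin.elim0 ↔ ∀ z, M.rel (4 * Nat.pair 6 n) [z] := by
  show (∀ z : ℕ, M.rel (4 * Nat.pair 6 n) ([Fin.last 0].map (Fin.snoc Fin.elim0 z : Fin 1 → ℕ))) ↔ _
  refine forall_congr' fun z => ?_
  have h : ([Fin.last 0].map (Fin.snoc Fin.elim0 z : Fin 1 → ℕ)) = [z] := by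
    show [(Fin.snoc Fin.elim0 z : Fin 1 → ℕ) (Fin.last 0)] = [z]
    rw [Fin.snoc_last]
  rw [h]

theorem SnR_sat_bit (n : ℕ) (v : Bool) (M : Str VT) :
    Sat M (SnR_bit n v) Fin.elim0 ↔ ((∀ z, M.rel (4 * Nat.pair 6 n) [z]) ↔ v = true) := by
  unfold SnR_bit
  cases v
  · rw [if_neg (by decide)]
    show ¬ Sat M (SnR_g n) Fin.elim0 ↔ _
    rw [SnR_sat_g]
    simp
  · rw [if_pos rfl, SnR_sat_g]
    simp

theorem SnR_mod (fU : Fml VT 0) (hU : Mod fU = KD DU) (b : Rl) : Mod (SnR_f fU b) = KD (DS b) := by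
  ext M
  have h0 : M ∈ Mod (SnR_f fU b) ↔ ∀ m, Sat M (SnR_part fU b m) Fin.elim0 := Iff.rfl
  have h1 : M ∈ Mod (SnR_f fU b) ↔ M ∈ KD DU ∧
      ∀ m, ((∀ z, M.rel (4 * Nat.pair 6 m) [z]) ↔ b m = true) := by
    rw [h0]
    constructor
    · intro h
      refine ⟨?_, fun m => (SnR_sat_bit m (b m) M).1 (h (m + 1))⟩
      rw [← hU]
      exact h 0
    · rintro ⟨h2, h3⟩ m
      rcases m with _ | m
      · rw [← hU] at h2
        exact h2
      · exact (SnR_sat_bit m (b m) M).2 (h3 m)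
  rw [h1]
  have key : ∀ (x : Rl) (F : ℕ → ℕ → ℕ) (κ : ℕ → V) (θ : ℕ ≃ ℕ × V),
      (∀ m, ((∀ z, (Std x F κ θ).rel (4 * Nat.pair 6 m) [z]) ↔ b m = true)) ↔ cB x = b := by
    intro x F κ θ
    constructor
    · intro h
      funext m
      have h2 := h m
      simp only [Std_rel0] at h2
      have h3 : x (Nat.pair 6 m) = true ↔ b m = true :=
        ⟨fun h4 => h2.1 fun _ => h4, fun h4 => h2.2 h4 0⟩
      show x (Nat.pair 6 m) = b m
      exact Bool.eq_iff_iff.2 h3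
    · intro h m
      simp only [Std_rel0]
      rw [← h]
      exact ⟨fun h4 => h4 0, fun h4 _ => h4⟩
  constructor
  · rintro ⟨⟨x, hx, κ, θ, h4, rfl⟩, h3⟩
    exact ⟨x, ⟨hx, (key x _ κ θ).1 h3⟩, κ, θ, h4, rfl⟩
  · rintro ⟨x, ⟨hx, hb⟩, κ, θ, h4, rfl⟩
    exact ⟨⟨x, hx, κ, θ, h4, rfl⟩, (key x _ κ θ).2 hb⟩

theorem SnR_lab (fU : Fml VT 0) (b b' : Rl) (s : List ℕ)
    (h : ∀ i < s.getD 0 0, b' i = b i) :
    lab (SnR_f fU b') s = lab (SnR_f fU b) s := by
  rcases s with _ | ⟨m, s⟩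
  · rfl
  · show lab (SnR_part fU b' m) s = lab (SnR_part fU b m) s
    rcases m with _ | m
    · rfl
    · show lab (SnR_bit m (b' m)) s = lab (SnR_bit m (b m)) s
      have h1 : b' m = b m := h m (by show m < m + 1; omega)
      rw [h1]

theorem sen_in : ∃ (c : Rl) (fAll : Fml VT 0) (fB : Rl → Fml VT 0), Mod fAll = KD DAll ∧
    (∀ b, Mod (fB b) = KD (DS b)) ∧
    ∀ R, RC R → c ∈ R → InF R fAll ∧ ∀ b ∈ R, InF R (fB b) := by
  obtain ⟨fU, hU⟩ := exists_sentence DU meas_DU (fun x hx => hx.1)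
  obtain ⟨fAll, hAll⟩ := exists_sentence DAll meas_DAll (fun x hx => hx)
  obtain ⟨c2, h2⟩ := cont_mem (fun b => fc (SnR_f fU b)) (by
    intro w n
    refine ⟨(Denumerable.ofNat (List ℕ) n.unpair.1).getD 0 0, fun w' hw' => ?_⟩
    show decide (lab (SnR_f fU w') (Denumerable.ofNat (List ℕ) n.unpair.1) = n.unpair.2) =
      decide (lab (SnR_f fU w) (Denumerable.ofNat (List ℕ) n.unpair.1) = n.unpair.2)
    rw [SnR_lab fU w w' _ hw'])
  obtain ⟨c, hc⟩ := RC_tables (fun n => if n = 0 then gr VT else if n = 1 then fc fAll else c2)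
  refine ⟨c, fAll, SnR_f fU, hAll, SnR_mod fU hU, fun R hR hcR => ?_⟩
  have hc1 : gr VT ∈ R := by simpa using hc R hR hcR 0
  have hc2 : fc fAll ∈ R := by simpa using hc R hR hcR 1
  have hc3 : c2 ∈ R := by simpa using hc R hR hcR 2
  exact ⟨⟨hc1, hc2⟩, fun b hb => ⟨hc1, h2 R hR hc3 b hb⟩⟩

end Pool.Agent.RNI
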