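import Pool.Agent.RNI.UnR
import Pool.Agent.RNI.SnR
import Pool.Agent.RNI.FnR
import Pool.Agent.RNI.SeN

/-!
# Main: Statement S fails in every model which has a thin cofinal coanalytic set
-/

namespace Pool.Agent.RNI

open Pool.Agent.NI

theorem relNI (P : Set Rl) (hP : MeasureTheory.AnalyticSet Pᶜ) :
    ∃ c : Rl, ∀ R, RC R → c ∈ R → ∀ a ∈ R, Thin {y | jn a y ∈ P} →
      (∀ d ∈ R, ∃ y ∈ R, jn a y ∈ P ∧ TRed d y) → ¬ SIn R := by
  obtain ⟨c1, h1⟩ := section_normal P hP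
  obtain ⟨c2, fAll, fB, hAll, hB, h2⟩ := sen_in
  obtain ⟨c3, h3⟩ := unb_in
  obtain ⟨c4, h4⟩ := not_univ_in
  obtain ⟨c, hc⟩ := RC_tables fun n => match n with
    | 0 => c1
    | 1 => c2
    | 2 => c3
    | _ => c4
  refine ⟨c, fun R hR hcR a ha hthin hcof hS => ?_⟩
  have e1 : c1 ∈ R := hc R hR hcR 0
  have e2 : c2 ∈ R := hc R hR hcR 1
  have e3 : c3 ∈ R := hc R hR hcR 2
  have e4 : c4 ∈ R := hc R hR hcR 3
  obtain ⟨b, hb, hPC, hPB⟩ := h1 R hR e1 a ha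
  obtain ⟨hA, hF⟩ := h2 R hR e2
  have hthin' : Thin (PB (Bof b)) := by rw [hPB]; exact hthin
  have hcof' : ∀ d ∈ R, ∃ y ∈ R, y ∈ PB (Bof b) ∧ TRed d y := by
    intro d hd
    obtain ⟨y, hy, hy1, hy2⟩ := hcof d hd
    exact ⟨y, hy, by rw [hPB]; exact hy1, hy2⟩
  rcases hS VT (fB b) (hF b hb) with h | h
  · exact h3 R hR e3 b hb hthin' (fB b) (hB b) h
  · exact h4 R hR e4 b hb hPC hthin' hcof' (fB b) fAll (hB b) hAll (h VT fAll hA)

end Pool.Agent.RNI
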