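import Pool.Agent.RNI.Bas
import Pool.Agent.NI.Fun

/-!
# PCt: closure of `R` under continuous functions with tables in `R`

* `pcont_par`: apply `ct_index` to `H' v z m ↔ H (rt v) z m` (continuous and single valued: `rt v` below `t`
  depends on `v` below `2 * t`); it gives a base `c`. Given `w ∈ R` let `v = jn c w ∈ R`; `TRed c v` (`TRed_lf`, `lf_jn`)
  and `rt v = w`; let `i` be the index. Then `Phi v (smn i a) n = Phi v i (Nat.pair a n)` (`smn_spec`) is
  `Part.some (x n).toNat` (`Part.eq_some_iff`), so `TRed x v` and `x ∈ R` by `RC.tred`.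
* `pcont`: `pcont_par` for `fun w z m => H w z.unpair.2 m` and `a = 0`.
* `cont_mem`: `pcont` for `H w n m ↔ m = (G w n).toNat`.
-/

namespace Pool.Agent.RNI

open Pool.Agent.NI

theorem pcont_par (H : Rl → ℕ → ℕ → Prop) (hc : Ct H) (hs : Sv H) :
    ∃ c : Rl, ∀ R, RC R → c ∈ R → ∀ w ∈ R, ∀ (a : ℕ) (x : Rl),
      (∀ n, H w (Nat.pair a n) (x n).toNat) → x ∈ R := by
  have hc' : Ct (fun v z m => H (rt v) z m) := by
    intro v z m h
    obtain ⟨t, ht⟩ := hc (rt v) z m h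
    refine ⟨2 * t + 1, fun v' hv' => ht (rt v') fun i hi => ?_⟩
    exact hv' (2 * i + 1) (by omega)
  have hs' : Sv (fun v z m => H (rt v) z m) := fun v z m m' h h' => hs (rt v) z m m' h h'
  obtain ⟨c, hcc⟩ := ct_index _ hc' hs'
  refine ⟨c, fun R hR hcR w hw a x hx => ?_⟩
  have hv : jn c w ∈ R := hR.join c hcR w hw
  have hred : TRed c (jn c w) := by
    have h1 := TRed_lf (jn c w)
    rw [lf_jn] at h1
    exact h1
  obtain ⟨i, hi⟩ := hcc (jn c w) hred
  refine hR.tred _ hv x ⟨smn i a, fun n => ?_⟩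
  rw [smn_spec, Part.eq_some_iff]
  refine (hi _ _).2 ?_
  show H (rt (jn c w)) (Nat.pair a n) (x n).toNat
  rw [rt_jn]
  exact hx n

theorem pcont (H : Rl → ℕ → ℕ → Prop) (hc : Ct H) (hs : Sv H) :
    ∃ c : Rl, ∀ R, RC R → c ∈ R → ∀ w ∈ R, ∀ x : Rl, (∀ n, H w n (x n).toNat) → x ∈ R := by
  obtain ⟨c, hcc⟩ := pcont_par (fun w z m => H w z.unpair.2 m)
    (fun y n m h => hc y n.unpair.2 m h) (fun y n m m' h h' => hs y n.unpair.2 m m' h h')
  refine ⟨c, fun R hR hcR w hw x hx => hcc R hR hcR w hw 0 x fun n => ?_⟩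
  show H w (Nat.pair 0 n).unpair.2 (x n).toNat
  rw [Nat.unpair_pair]
  exact hx n

theorem cont_mem (G : Rl → Rl)
    (hG : ∀ w n, ∃ t, ∀ w' : Rl, (∀ i < t, w' i = w i) → G w' n = G w n) :
    ∃ c : Rl, ∀ R, RC R → c ∈ R → ∀ w ∈ R, G w ∈ R := by
  obtain ⟨c, hcc⟩ := pcont (fun w n m => m = (G w n).toNat)
    (by
      intro w n m h
      obtain ⟨t, ht⟩ := hG w n
      refine ⟨t, fun w' hw' => ?_⟩
      show m = (G w' n).toNat
      rw [ht w' hw']
      exact h)
    (fun w n m m' h h' => h.trans h'.symm)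
  exact ⟨c, fun R hR hcR w hw => hcc R hR hcR w hw (G w) fun n => rfl⟩

end Pool.Agent.RNI
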