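import Pool.Agent.RNI.PCt
import Pool.Agent.NI.Grd

/-!
# RlR: relations of large rank in `R`

Let `w ∈ R` be a wellorder of `ℕ` of type `α`. `l = G w` with `rl l a c` defined as follows: `a = m + 2` (so `2 ≤ a`), and
`c ≤ 1` or (`c = m' + 2` and (`rl w m.unpair.1 m'.unpair.1` or (`m.unpair.1 = m'.unpair.1` and
`m.unpair.2 < m'.unpair.2`))). (`G w q` is the `decide` of this for `q = Nat.pair a c`: it depends on one bit of `w`:
`cont_mem`.)
* `WellFounded (rl l)`: the elements `m + 2` are accessible (lexicographic order of `rl w` and `<`: induction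
  on `m.unpair.1` along `rl w`, then on `m.unpair.2`), then `0` and `1` are.
* Ranks: `Rk (rl l) (ω * typein (rl w) m.unpair.1 + m.unpair.2) (m + 2)` by induction along the same order: for
  `c < ω * typein i + k` either `c < ω * typein i`, so `c < ω * (typein i') + k'` hmm: `c / ω < typein i`, so
  `c / ω = typein i'` for some `i'` with `rl w i' i` (`Ordinal.enum`), `c = ω * typein i' + k'` with `k' < ω`: the element
  `(i', k')` is below `(i, k)` and has rank at least `c` (by induction: the claim for `(i', k')`, and `Rk_mono`); or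
  `c = ω * typein i + k'` with `k' < k`: the element `(i, k')`. The same argument gives
  `Rk (rl l) (ω * α) i` for `i = 0, 1` (`c < ω * α` implies `c / ω < α`; `Ordinal.div_add_mod`, `Ordinal.lt_mul_iff_div_lt`,
  `Ordinal.typein_lt_type`).
-/

namespace Pool.Agent.RNI

open Pool.Agent.NI

/-- The relation on pairs: lexicographic. -/
def RlR_P (w : Rl) (m m' : ℕ) : Prop :=
  rl w m'.unpair.1 m.unpair.1 ∨ (m'.unpair.1 = m.unpair.1 ∧ m'.unpair.2 < m.unpair.2)

/-- The relation below: `c` is below `a`... the arguments are `(a, c)` with `a` the smaller one. -/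
def RlR_L (w : Rl) (a c : ℕ) : Prop :=
  2 ≤ a ∧ (c ≤ 1 ∨ (2 ≤ c ∧ RlR_P w (c - 2) (a - 2)))

open Classical in
/-- The code of the relation. -/
noncomputable def RlR_G (w : Rl) : Rl := fun q => decide (RlR_L w q.unpair.1 q.unpair.2)

theorem RlR_rl (w : Rl) (a c : ℕ) : rl (RlR_G w) a c ↔ RlR_L w a c := by
  simp [rl, RlR_G]

theorem RlR_cont : ∀ (w : Rl) (n : ℕ), ∃ t, ∀ w' : Rl, (∀ i < t, w' i = w i) →
    RlR_G w' n = RlR_G w n := by
  intro w n
  refine ⟨Nat.pair (n.unpair.1 - 2).unpair.1 (n.unpair.2 - 2).unpair.1 + 1, fun w' h => ?_⟩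
  have h1 := h _ (Nat.lt_succ_self _)
  have h2 : RlR_L w' n.unpair.1 n.unpair.2 ↔ RlR_L w n.unpair.1 n.unpair.2 := by
    unfold RlR_L RlR_P rl
    rw [h1]
  unfold RlR_G
  exact decide_eq_decide.2 h2

theorem RlR_wfP (w : Rl) (hw : WellFounded (rl w)) : WellFounded (fun m' m => RlR_P w m m') := by
  have h1 : WellFounded (Prod.Lex (rl w) ((· < ·) : ℕ → ℕ → Prop)) :=
    WellFounded.prod_lex hw Nat.lt_wfRel.wf
  refine Subrelation.wf ?_ (InvImage.wf Nat.unpair h1)
  intro m' m h
  show Prod.Lex (rl w) ((· < ·) : ℕ → ℕ → Prop) (Nat.unpair m') (Nat.unpair m)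
  rw [Prod.lex_def]
  exact h

theorem RlR_wf (w : Rl) (hw : WellFounded (rl w)) : WellFounded (RlR_L w) := by
  have h1 : ∀ m, Acc (RlR_L w) (m + 2) := by
    intro m
    induction m using (RlR_wfP w hw).induction with
    | _ m ih =>
      constructor
      intro a ha
      obtain ⟨h2, h3⟩ := ha
      rcases h3 with h3 | ⟨-, h3⟩
      · omega
      · have h4 := ih (a - 2) (by simpa using h3)
        rwa [Nat.sub_add_cancel h2] at h4
  have h2 : ∀ a, 2 ≤ a → Acc (RlR_L w) a := by
    intro a ha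
    have := h1 (a - 2)
    rwa [Nat.sub_add_cancel ha] at this
  constructor
  intro c
  constructor
  intro a ha
  exact h2 a ha.1

theorem RlR_ord {w : Rl} [IsWellOrder ℕ (rl w)] {α : Ordinal.{0}} (hα : Ordinal.type (rl w) = α)
    (c : Ordinal.{0}) (hc : c < Ordinal.omega0 * α) :
    ∃ i k : ℕ, c = Ordinal.omega0 * Ordinal.typein (rl w) i + k := by
  have h1 : c / Ordinal.omega0 < Ordinal.type (rl w) := by
    rw [hα]
    exact (Ordinal.lt_mul_iff_div_lt Ordinal.omega0_ne_zero).1 hc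
  obtain ⟨i, hi⟩ := Ordinal.typein_surj (rl w) h1
  have h2 : c % Ordinal.omega0 < Ordinal.omega0 := Ordinal.mod_lt _ Ordinal.omega0_ne_zero
  obtain ⟨k, hk⟩ := Ordinal.lt_omega0.1 h2
  refine ⟨i, k, ?_⟩
  rw [hi, ← hk, Ordinal.div_add_mod]

theorem RlR_rank {w : Rl} [IsWellOrder ℕ (rl w)] (m : ℕ) :
    Rk (RlR_L w) (Ordinal.omega0 * Ordinal.typein (rl w) m.unpair.1 + m.unpair.2) (m + 2) := by
  have hwf : WellFounded (rl w) := IsWellFounded.wf
  induction m using (RlR_wfP w hwf).induction with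
  | _ m ih =>
    rw [Rk]
    intro c hc
    by_cases h1 : c < Ordinal.omega0 * Ordinal.typein (rl w) m.unpair.1
    · have h2 : c < Ordinal.omega0 * Ordinal.type (rl w) :=
        lt_of_lt_of_le h1 (mul_le_mul_right (le_of_lt (Ordinal.typein_lt_type _ _)) _)
      obtain ⟨i, k, hik⟩ := RlR_ord rfl c h2
      have h3 : rl w i m.unpair.1 := by
        rw [← Ordinal.typein_lt_typein (rl w)]
        by_contra h4
        rw [not_lt] at h4
        have h5 : Ordinal.omega0 * Ordinal.typein (rl w) m.unpair.1 ≤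
            Ordinal.omega0 * Ordinal.typein (rl w) i + k :=
          le_trans (mul_le_mul_right h4 _) (le_add_of_nonneg_right zero_le)
        rw [← hik] at h5
        exact absurd h1 (not_lt.2 h5)
      refine ⟨Nat.pair i k + 2, ⟨by omega, Or.inr ⟨by omega, ?_⟩⟩, ?_⟩
      · show RlR_P w (m + 2 - 2) (Nat.pair i k + 2 - 2)
        rw [Nat.add_sub_cancel, Nat.add_sub_cancel]
        left
        rw [Nat.unpair_pair]
        exact h3
      · have h6 := ih (Nat.pair i k) (by
          left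
          rw [Nat.unpair_pair]
          exact h3)
        rw [Nat.unpair_pair] at h6
        rw [hik]
        exact h6
    · rw [not_lt] at h1
      obtain ⟨d, hd⟩ := exists_add_of_le h1
      have h2 : d < (m.unpair.2 : Ordinal.{0}) := by
        rw [hd] at hc
        exact (add_lt_add_iff_left _).1 hc
      obtain ⟨k, hk⟩ := Ordinal.lt_omega0.1 (h2.trans (Ordinal.natCast_lt_omega0 _))
      have h3 : k < m.unpair.2 := by
        rw [hk] at h2
        exact_mod_cast h2
      refine ⟨Nat.pair m.unpair.1 k + 2, ⟨by omega, Or.inr ⟨by omega, ?_⟩⟩, ?_⟩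
      · show RlR_P w (m + 2 - 2) (Nat.pair m.unpair.1 k + 2 - 2)
        rw [Nat.add_sub_cancel, Nat.add_sub_cancel]
        right
        rw [Nat.unpair_pair]
        exact ⟨rfl, h3⟩
      · have h6 := ih (Nat.pair m.unpair.1 k) (by
          right
          rw [Nat.unpair_pair]
          exact ⟨rfl, h3⟩)
        rw [Nat.unpair_pair] at h6
        rw [hd, hk]
        exact h6

theorem RlR_top {w : Rl} [IsWellOrder ℕ (rl w)] {α : Ordinal.{0}} (hα : Ordinal.type (rl w) = α)
    (i : ℕ) (hi : i ≤ 1) : Rk (RlR_L w) (Ordinal.omega0 * α) i := by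
  rw [Rk]
  intro c hc
  obtain ⟨j, k, hjk⟩ := RlR_ord hα c hc
  refine ⟨Nat.pair j k + 2, ⟨by omega, Or.inl hi⟩, ?_⟩
  have h6 := RlR_rank (w := w) (Nat.pair j k)
  rw [Nat.unpair_pair] at h6
  rw [hjk]
  exact h6

theorem rel_in : ∃ c : Rl, ∀ R, RC R → c ∈ R → ∀ α, CtIn R α → ∃ l ∈ R, WellFounded (rl l) ∧
    ∃ i j, i ≠ j ∧ Rk (rl l) (Ordinal.omega0 * α) i ∧ Rk (rl l) (Ordinal.omega0 * α) j := by
  obtain ⟨c, hc⟩ := cont_mem RlR_G RlR_cont
  refine ⟨c, fun R hR hcR α hα => ?_⟩
  obtain ⟨w, hwR, hwo, hw⟩ := hα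
  have e : rl (RlR_G w) = RlR_L w := by
    funext a b
    exact propext (RlR_rl w a b)
  refine ⟨RlR_G w, hc R hR hcR w hwR, ?_, 0, 1, by decide, ?_, ?_⟩
  · rw [e]
    exact RlR_wf w IsWellFounded.wf
  · rw [e]
    exact RlR_top hw 0 (by decide)
  · rw [e]
    exact RlR_top hw 1 (by decide)

end Pool.Agent.RNI
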