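import Pool.Agent.RNI.TrE

/-!
# SaA: satisfaction is analytic

Let `G` be the set of all `(x, q)` such that there is `z` with: `x (pair k (encode l)) = true` implies
`(LZF.col 0 q) (pair k l.length) = true` for all `k`, `l`; `TrEv x (LZF.col 1 q) z`; `zb z [] []`.
* The set of all `(x, q, z)` (in `Rl × Rl × Rl`) with these conditions is measurable: countably many conditions on
  single bits (`sub q σ j` is a bit of `q`: `∃ p, ∀ q, sub q σ j = q p`, by recursion on `σ`; Mathlib:
  `measurableSet_setOf`, `Measurable.forall`, `Measurable.imp`, `Measurable.iff`, `Measurable.and`, `Measurable.not`),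
  so it is analytic (`MeasurableSet.analyticSet`), and `G` is its image under a continuous map
  (`MeasureTheory.AnalyticSet.image_of_continuous`).
* For `q = LZF.jn (LZF.vcode L) (LZF.fcode f)`: `LZF.col 0 q = LZF.vcode L`, `LZF.col 1 q = LZF.fcode f`. `←`: `TrE_ex`, and
  `N.len`. `→`: the structure `N` with `N.rel k l ↔ x (pair k (encode l)) = true` is an `L`-structure by the first
  condition (`LZF.vcode L (pair k m) = true ↔ L k = m`), `LZF.scode N = x`, and `TrE_eval` with `σ = []`, `a = []`, `n = 0` gives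
  `N ∈ Mod f` (the assignment `Fin 0 → ℕ` is unique: `Subsingleton.elim`).
-/

namespace Pool.Agent.RNI

open Pool.Agent.NI

def SaA_pos : List ℕ → ℕ → ℕ
  | [], j => j
  | k :: σ, j => Nat.pair 5 (Nat.pair k (SaA_pos σ j))

theorem SaA_sub (q : Rl) (σ : List ℕ) (j : ℕ) : sub q σ j = q (SaA_pos σ j) := by
  induction σ generalizing q with
  | nil => rfl
  | cons k σ ih =>
    show sub (fun j => q (Nat.pair 5 (Nat.pair k j))) σ j = _
    rw [ih]
    rfl

theorem SaA_bit {α : Type*} [MeasurableSpace α] {f : α → Rl} (hf : Measurable f) (j : ℕ) :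
    Measurable fun w => (f w j = true) := by
  rw [← measurableSet_setOfPred]
  have h1 : Measurable fun w => f w j := (measurable_pi_apply j).comp hf
  exact h1 (MeasurableSet.of_discrete (s := ({true} : Set Bool)))

theorem SaA_colv (L : Voc) (q : Rl) : LZF.col 0 (LZF.jn (LZF.vcode L) q) = LZF.vcode L := by
  funext n
  simp [LZF.col, LZF.jn]

theorem SaA_colf (p q : Rl) : LZF.col 1 (LZF.jn p q) = q := by
  funext n
  simp [LZF.col, LZF.jn]

theorem SaA_v (L : Voc) (k m : ℕ) : LZF.vcode L (Nat.pair k m) = true ↔ L k = m := by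
  simp [LZF.vcode, LZF.chr]

theorem SaA_s {L : Voc} (N : Str L) (k : ℕ) (l : List ℕ) :
    LZF.scode N (Nat.pair k (Encodable.encode l)) = true ↔ N.rel k l := by
  simp [LZF.scode, LZF.chr]

/-- the set with the witnesses -/
def SaA_M : Set ((Rl × Rl) × Rl) :=
  {w | (∀ (k : ℕ) (l : List ℕ), w.1.1 (Nat.pair k (Encodable.encode l)) = true →
      LZF.col 0 w.1.2 (Nat.pair k l.length) = true) ∧ TrEv w.1.1 (LZF.col 1 w.1.2) w.2 ∧ zb w.2 [] []}

theorem SaA_meas : MeasurableSet SaA_M := by
  have m1 : Measurable fun w : (Rl × Rl) × Rl => w.1.1 := measurable_fst.comp measurable_fst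
  have m2 : Measurable fun w : (Rl × Rl) × Rl => w.1.2 := measurable_snd.comp measurable_fst
  have m3 : Measurable fun w : (Rl × Rl) × Rl => w.2 := measurable_snd
  have hz : ∀ σ a, Measurable fun w : (Rl × Rl) × Rl => zb w.2 σ a := fun σ a => SaA_bit m3 _
  have hs : ∀ σ j, Measurable fun w : (Rl × Rl) × Rl => (sub (LZF.col 1 w.1.2) σ j = true) := by
    intro σ j
    have e : (fun w : (Rl × Rl) × Rl => (sub (LZF.col 1 w.1.2) σ j = true)) =
        fun w => (w.1.2 (Nat.pair 1 (SaA_pos σ j)) = true) := by
      funext w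
      rw [SaA_sub]
      rfl
    rw [e]
    exact SaA_bit m2 _
  unfold SaA_M
  rw [measurableSet_setOfPred]
  refine Measurable.and ?_ (Measurable.and ?_ (hz _ _))
  · refine Measurable.forall fun k => Measurable.forall fun l => Measurable.imp (SaA_bit m1 _) ?_
    exact SaA_bit m2 (Nat.pair 0 (Nat.pair k l.length))
  · unfold TrEv
    refine Measurable.forall fun σ => Measurable.forall fun a => ?_
    refine Measurable.and ?_ (Measurable.and ?_ (Measurable.and ?_ (Measurable.and ?_ ?_)))
    · exact Measurable.imp (hs _ _) (Measurable.iff (hz _ _) (Measurable.not (hz _ _)))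
    · exact Measurable.imp (hs _ _) (Measurable.iff (hz _ _) (Measurable.forall fun k => hz _ _))
    · exact Measurable.imp (hs _ _) (Measurable.iff (hz _ _) (Measurable.forall fun c => hz _ _))
    · refine Measurable.forall fun k => Measurable.forall fun e => ?_
      exact Measurable.imp (hs _ _) (Measurable.iff (hz _ _) (SaA_bit m1 _))
    · refine Measurable.forall fun i => Measurable.forall fun j => ?_
      exact Measurable.imp (hs _ _) (Measurable.iff (hz _ _) measurable_const)

theorem satAna : LZF.SatAna := by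
  have hpol : PolishSpace ((Rl × Rl) × Rl) :=
    { toSecondCountableTopology := inferInstance
      toIsCompletelyMetrizableSpace := inferInstance }
  refine ⟨Prod.fst '' SaA_M, (SaA_meas.analyticSet).image_of_continuous continuous_fst, ?_⟩
  intro L f x
  constructor
  · rintro ⟨⟨⟨x', q⟩, z⟩, ⟨h1, h2, h3⟩, he⟩
    have hx : x' = x := congrArg Prod.fst he
    have hq : q = LZF.jn (LZF.vcode L) (LZF.fcode f) := congrArg Prod.snd he
    subst hx
    subst hq
    have h1 : ∀ (k : ℕ) (l : List ℕ), x' (Nat.pair k (Encodable.encode l)) = true →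
        LZF.col 0 (LZF.jn (LZF.vcode L) (LZF.fcode f)) (Nat.pair k l.length) = true := h1
    have h2 : TrEv x' (LZF.col 1 (LZF.jn (LZF.vcode L) (LZF.fcode f))) z := h2
    have h3 : zb z [] [] := h3
    rw [SaA_colf] at h2
    let N : Str L := ⟨fun k l => x' (Nat.pair k (Encodable.encode l)) = true, fun k l h => by
      have h4 := h1 k l h
      rw [SaA_colv, SaA_v] at h4
      exact h4.symm⟩
    have hN : LZF.scode N = x' := by
      funext n
      have e : (N.rel n.unpair.1 (Denumerable.ofNat (List ℕ) n.unpair.2)) = (x' n = true) := by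
        show (x' (Nat.pair n.unpair.1 (Encodable.encode (Denumerable.ofNat (List ℕ) n.unpair.2))) = true) = _
        rw [Denumerable.encode_ofNat, Nat.pair_unpair]
      have e2 : (LZF.scode N n = true) ↔ (x' n = true) := by
        rw [← e]
        simp only [LZF.scode, LZF.chr, decide_eq_true_eq]
      rw [Bool.eq_iff_iff]
      exact e2
    refine ⟨N, ?_, hN.symm⟩
    rw [← hN] at h2
    have h5 := (TrE_eval N (LZF.fcode f) z h2 f [] [] rfl rfl).1 h3
    show Sat N f Fin.elim0
    have e : (fun i : Fin 0 => ([] : List ℕ).getD i 0) = Fin.elim0 := Subsingleton.elim _ _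
    rw [← e]
    exact h5
  · rintro ⟨N, hN, rfl⟩
    obtain ⟨z, hz, hz'⟩ := TrE_ex N f hN
    refine ⟨((LZF.scode N, LZF.jn (LZF.vcode L) (LZF.fcode f)), z), ⟨?_, ?_, hz'⟩, rfl⟩
    · intro k l h
      have h : LZF.scode N (Nat.pair k (Encodable.encode l)) = true := h
      show LZF.col 0 (LZF.jn (LZF.vcode L) (LZF.fcode f)) (Nat.pair k l.length) = true
      rw [SaA_colv, SaA_v]
      exact (N.len k l ((SaA_s N k l).1 h)).symm
    · show TrEv (LZF.scode N) (LZF.col 1 (LZF.jn (LZF.vcode L) (LZF.fcode f))) z
      rw [SaA_colf]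
      exact hz

end Pool.Agent.RNI
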