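import Pool.Agent.RNI.PCt
import Pool.Agent.NI.Nrm

/-!
# Sel: analytic relations with parameters in `R` have witnesses in `R`

`coanalytic_normal` for `P = Aᶜ` gives `B` with `PC B` and (complement): `v ∈ A ↔ ∃ z, ∀ n, B (pre z n) (pre v n)`.
Let `β` be the real with `Bof β = B` (`β m = decide (B (ofNat _ m.unpair.1) (ofNat _ m.unpair.2))`). For a list
`u : List ℕ` let `u₁ = u.map fun a => a.unpair.1` and `xu i = decide ((u.getD i 0).unpair.2 = 1)`. Let
`G w k = (lf w) (Nat.pair (encode u₁) (encode (pre (jn (rt w) xu) u.length)))` for `u = ofNat (List ℕ) k`: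
it depends only on finitely many bits of `w`; `cont_mem` gives a table. So `T = G (jn β p) ∈ R`. For `z : ℕ → ℕ`:
`T (encode (pre z n)) = true ↔ B (pre (fun i => (z i).unpair.1) n) (pre (jn p x) n)` with
`x i = decide ((z i).unpair.2 = 1)` (for `i < n`, `jn _ _ i` uses only the places `i / 2 ≤ i < n`).
If `jn p x ∈ A` with `z₁` then `z i = Nat.pair (z₁ i) (x i).toNat` is a branch of `T`. By `RC.beta` there is a branch
`z` with `gr z ∈ R`, and `x = fun i => decide ((z i).unpair.2 = 1)` satisfies `jn p x ∈ A`. `x ∈ R` by `pcont` for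
`H g n m ↔ ∃ k, g (Nat.pair n k) = true ∧ (∀ k' < k, g (Nat.pair n k') = false) ∧ m = (decide (k.unpair.2 = 1)).toNat`
and `g = gr z`. The table `c` is a join (`RC_tables`) of `β` and the tables of `cont_mem` and `pcont`.
-/

namespace Pool.Agent.RNI

open Pool.Agent.NI

theorem Sel_pre {α : Type} {f g : ℕ → α} {n : ℕ} (h : ∀ i < n, f i = g i) : pre f n = pre g n := by
  unfold pre
  exact List.map_congr_left fun i hi => h i (List.mem_range.1 hi)

theorem Sel_getD (z : ℕ → ℕ) {n i : ℕ} (h : i < n) : (pre z n).getD i 0 = z i := by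
  unfold pre
  rw [List.getD_eq_getElem _ _ (by simpa using h)]
  simp

/-- the real coded by the second components -/
def Sel_x (u : List ℕ) : Rl := fun i => decide ((u.getD i 0).unpair.2 = 1)

/-- the place of the bit -/
def Sel_pos (v : Rl) (u : List ℕ) : ℕ :=
  Nat.pair (Encodable.encode (u.map fun a => a.unpair.1)) (Encodable.encode (pre (jn v (Sel_x u)) u.length))

/-- the tree -/
def Sel_G (w : Rl) (k : ℕ) : Bool := lf w (Sel_pos (rt w) (Denumerable.ofNat (List ℕ) k))

theorem Sel_cont (w : Rl) (n : ℕ) : ∃ t, ∀ w' : Rl, (∀ i < t, w' i = w i) → Sel_G w' n = Sel_G w n := by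
  set u := Denumerable.ofNat (List ℕ) n with hu
  refine ⟨max (2 * u.length + 2) (2 * Sel_pos (rt w) u + 1), ?_⟩
  intro w' hw
  have h1 : Sel_pos (rt w') u = Sel_pos (rt w) u := by
    unfold Sel_pos
    congr 2
    refine Sel_pre ?_
    intro i hi
    unfold jn rt
    split_ifs
    · refine hw _ (lt_of_lt_of_le ?_ (le_max_left _ _))
      omega
    · rfl
  unfold Sel_G
  rw [← hu, h1]
  unfold lf
  refine hw _ (lt_of_lt_of_le ?_ (le_max_right _ _))
  omega

/-- the least element -/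
def Sel_H (g : Rl) (n m : ℕ) : Prop :=
  ∃ k, g (Nat.pair n k) = true ∧ (∀ k' < k, g (Nat.pair n k') = false) ∧ m = (decide (k.unpair.2 = 1)).toNat

theorem Sel_Ct : Ct Sel_H := by
  rintro y n m ⟨k, h1, h2, h3⟩
  refine ⟨Nat.pair n k + 1, ?_⟩
  intro y' hy
  refine ⟨k, ?_, ?_, h3⟩
  · rw [hy _ (Nat.lt_succ_self _)]
    exact h1
  · intro k' hk'
    rw [hy _ (lt_trans (Nat.pair_lt_pair_right n hk') (Nat.lt_succ_self _))]
    exact h2 k' hk'

theorem Sel_Sv : Sv Sel_H := by
  rintro y n m m' ⟨k, h1, h2, h3⟩ ⟨k', h1', h2', h3'⟩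
  have : k = k' := by
    rcases lt_trichotomy k k' with h | h | h
    · have := h2' k h
      rw [h1] at this
      exact absurd this (by simp)
    · exact h
    · have := h2 k' h
      rw [h1'] at this
      exact absurd this (by simp)
  subst this
  rw [h3, h3']

theorem Sel_key {B : List ℕ → List Bool → Prop} {β : Rl}
    (hβ : ∀ s t, β (Nat.pair (Encodable.encode s) (Encodable.encode t)) = true ↔ B s t) (p : Rl)
    (z : ℕ → ℕ) (n : ℕ) :
    Sel_G (jn β p) (Encodable.encode (pre z n)) = true ↔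
      B (pre (fun i => (z i).unpair.1) n) (pre (jn p fun i => decide ((z i).unpair.2 = 1)) n) := by
  have e1 : Denumerable.ofNat (List ℕ) (Encodable.encode (pre z n)) = pre z n := Denumerable.ofNat_encode _
  unfold Sel_G
  rw [lf_jn, rt_jn, e1]
  unfold Sel_pos
  rw [hβ]
  have e2 : (pre z n).map (fun a => a.unpair.1) = pre (fun i => (z i).unpair.1) n := by
    unfold pre
    rw [List.map_map]
    rfl
  have e3 : (pre z n).length = n := Nrm_len z n
  have e4 : pre (jn p (Sel_x (pre z n))) n = pre (jn p fun i => decide ((z i).unpair.2 = 1)) n := by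
    refine Sel_pre ?_
    intro i hi
    unfold jn
    split_ifs
    · rfl
    · unfold Sel_x
      rw [Sel_getD z (show i / 2 < n by omega)]
  rw [e2, e3, e4]

theorem select (A : Set Rl) (hA : MeasureTheory.AnalyticSet A) :
    ∃ c : Rl, ∀ R, RC R → c ∈ R → ∀ p ∈ R, (∃ x, jn p x ∈ A) → ∃ x ∈ R, jn p x ∈ A := by
  classical
  obtain ⟨B, _, hP⟩ := coanalytic_normal Aᶜ (by rw [compl_compl]; exact hA)
  have hAB : ∀ v, v ∈ A ↔ ∃ z : ℕ → ℕ, ∀ n, B (pre z n) (pre v n) := by
    intro v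
    have h1 : v ∈ Aᶜ ↔ v ∈ PB B := by rw [hP]
    have h2 : v ∈ PB B ↔ ¬ ∃ z : ℕ → ℕ, ∀ n, B (pre z n) (pre v n) := Iff.rfl
    rw [h2, Set.mem_compl_iff, not_iff_not] at h1
    exact h1
  let β : Rl := fun m => decide (∃ (s : List ℕ) (t : List Bool),
    m = Nat.pair (Encodable.encode s) (Encodable.encode t) ∧ B s t)
  have hβ : ∀ (s : List ℕ) (t : List Bool),
      β (Nat.pair (Encodable.encode s) (Encodable.encode t)) = true ↔ B s t := by
    intro s t
    show decide _ = true ↔ _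
    rw [decide_eq_true_iff]
    constructor
    · rintro ⟨s', t', h1, h2⟩
      rw [Nat.pair_eq_pair] at h1
      rw [Encodable.encode_injective h1.1, Encodable.encode_injective h1.2]
      exact h2
    · intro h
      exact ⟨s, t, rfl, h⟩
  obtain ⟨c₁, hc₁⟩ := cont_mem Sel_G Sel_cont
  obtain ⟨c₂, hc₂⟩ := pcont Sel_H Sel_Ct Sel_Sv
  obtain ⟨d, hd⟩ := RC_tables (fun n => if n = 0 then β else if n = 1 then c₁ else c₂)
  refine ⟨d, ?_⟩
  rintro R hR hdR p hp ⟨x, hx⟩
  have hβR : β ∈ R := by simpa using hd R hR hdR 0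
  have hc₁R : c₁ ∈ R := by simpa using hd R hR hdR 1
  have hc₂R : c₂ ∈ R := by simpa using hd R hR hdR 2
  have hT : Sel_G (jn β p) ∈ R := hc₁ R hR hc₁R _ (hR.join _ hβR _ hp)
  obtain ⟨z₁, hz₁⟩ := (hAB _).1 hx
  have hex : ∃ z : ℕ → ℕ, ∀ n, Sel_G (jn β p) (Encodable.encode (pre z n)) = true := by
    refine ⟨fun i => Nat.pair (z₁ i) (x i).toNat, fun n => ?_⟩
    rw [Sel_key hβ]
    have e1 : (fun i => (Nat.pair (z₁ i) (x i).toNat).unpair.1) = z₁ := by
      funext i
      rw [Nat.unpair_pair]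
    have e2 : (fun i => decide ((Nat.pair (z₁ i) (x i).toNat).unpair.2 = 1)) = x := by
      funext i
      rw [Nat.unpair_pair]
      cases x i <;> simp
    rw [e1, e2]
    exact hz₁ n
  obtain ⟨z, hzR, hz⟩ := hR.beta _ hT hex
  refine ⟨fun i => decide ((z i).unpair.2 = 1), ?_, ?_⟩
  · refine hc₂ R hR hc₂R _ hzR _ fun n => ⟨z n, ?_, ?_, rfl⟩
    · simp [gr]
    · intro k' hk'
      have : z n ≠ k' := by omega
      simp [gr, this]
  · exact (hAB _).2 ⟨fun i => (z i).unpair.1, fun n => (Sel_key hβ p z n).1 (hz n)⟩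

end Pool.Agent.RNI
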