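import Pool.Agent.RNI.PCt
import Pool.Agent.NI.Dia

/-!
# StR: the trivial torsor tower over the inverse system of a real in `R` is in `R`

As in `NI/Dia` (`Dia_push`, `dia_gen`). For `k`, `l` let `N = N k l > k` be larger than all elements of the support of
`(thz (l.getD 0 0)).2`. The truth value of `(Std x F 0 thz).rel k l` depends only on `x p` for `p ≤ k` and on `F n i`
for `n, i < N`. Let `H x q m` (with `k = q.unpair.1`, `l = Denumerable.ofNat (List ℕ) q.unpair.2`): there is `F` such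
that for all `n < N`, `i < N`: `x (cF n i (F n i)) = true ∧ ∀ j < F n i, x (cF n i j) = false`, and
`m = if (Std x F 0 thz).rel k l then 1 else 0`. Continuous: the conditions use finitely many bits of `x`; single
valued: two such `F` agree below `N`. For `IsSys x` the function `F = sysF x` satisfies the condition
(`sysF x n k` is the unique `j` with `x (cF n k j) = true`: `MsD_sysF` in `NI/MsD`, or `Nat.sInf_mem`). So `pcont` applies.
-/

namespace Pool.Agent.RNI

open Pool.Agent.NI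

theorem StR_sys {x : Rl} (hx : IsSys x) (n i : ℕ) : x (cF n i (sysF x n i)) = true := by
  obtain ⟨j, hj, -⟩ := hx n i
  exact Nat.sInf_mem (s := {j | x (cF n i j) = true}) ⟨j, hj⟩

theorem StR_min {x : Rl} (n i j : ℕ) (hj : j < sysF x n i) : x (cF n i j) = false := by
  cases h : x (cF n i j)
  · rfl
  · exact absurd (Nat.sInf_le (s := {j | x (cF n i j) = true}) h) (not_le.2 hj)

theorem StR_one (x x' : Rl) (F F' : ℕ → ℕ → ℕ) (N k : ℕ) (l : List ℕ) (hk : k < N)
    (hx : ∀ p < N, x' p = x p) (hN : ∀ i ∈ (thz (l.getD 0 0)).2.support, i < N)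
    (h : ∀ n < N, ∀ i < N, F n i = F' n i) (hr : (Std x F 0 thz).rel k l) :
    (Std x' F' 0 thz).rel k l := by
  rcases hr with ⟨p, z, hk', hl, h1⟩ | hr | hr | ⟨p, z, z', hk', hl, h1, h2, h3⟩
  · exact Or.inl ⟨p, z, hk', hl, by rw [hx p (by omega), h1]⟩
  · exact Or.inr (Or.inl hr)
  · exact Or.inr (Or.inr (Or.inl hr))
  · refine Or.inr (Or.inr (Or.inr ⟨p, z, z', hk', hl, h1, h2, ?_⟩))
    have hz : l.getD 0 0 = z := by rw [hl]; rfl
    rw [hz] at hN
    rw [h3, Dia_push F F' N p _ (by omega) hN h]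

/-- the bound -/
noncomputable def StR_N (q : ℕ) : ℕ :=
  q.unpair.1 + 1 + ((thz ((Denumerable.ofNat (List ℕ) q.unpair.2).getD 0 0)).2.support.sup id)

theorem StR_k (q : ℕ) : q.unpair.1 < StR_N q := by
  unfold StR_N
  omega

theorem StR_sup (q i : ℕ)
    (hi : i ∈ (thz ((Denumerable.ofNat (List ℕ) q.unpair.2).getD 0 0)).2.support) :
    i < StR_N q := by
  have : i ≤ (thz ((Denumerable.ofNat (List ℕ) q.unpair.2).getD 0 0)).2.support.sup id :=
    Finset.le_sup (f := id) hi
  unfold StR_N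
  omega

/-- the truth value as a functional -/
def StR_H (x : Rl) (q m : ℕ) : Prop :=
  ∃ F : ℕ → ℕ → ℕ, (∀ n < StR_N q, ∀ i < StR_N q,
    x (cF n i (F n i)) = true ∧ ∀ j < F n i, x (cF n i j) = false) ∧
    ((m = 1 ∧ (Std x F 0 thz).rel q.unpair.1 (Denumerable.ofNat (List ℕ) q.unpair.2)) ∨
      (m = 0 ∧ ¬ (Std x F 0 thz).rel q.unpair.1 (Denumerable.ofNat (List ℕ) q.unpair.2)))

theorem StR_Ct : Ct StR_H := by
  rintro x q m ⟨F, hF, hm⟩
  let T : ℕ → ℕ → ℕ := fun n i => (Finset.range (F n i + 1)).sup fun j => cF n i j + 1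
  have hT : ∀ n i j, j < F n i + 1 → cF n i j < T n i := by
    intro n i j hj
    have : cF n i j + 1 ≤ T n i :=
      Finset.le_sup (f := fun j => cF n i j + 1) (Finset.mem_range.mpr hj)
    omega
  let U : ℕ := (Finset.range (StR_N q)).sup fun n => (Finset.range (StR_N q)).sup fun i => T n i
  have hU : ∀ n < StR_N q, ∀ i < StR_N q, T n i ≤ U := by
    intro n hn i hi
    have e1 : T n i ≤ (Finset.range (StR_N q)).sup fun i => T n i :=
      Finset.le_sup (f := fun i => T n i) (Finset.mem_range.mpr hi)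
    have e2 : ((Finset.range (StR_N q)).sup fun i => T n i) ≤ U :=
      Finset.le_sup (f := fun n => (Finset.range (StR_N q)).sup fun i => T n i)
        (Finset.mem_range.mpr hn)
    exact e1.trans e2
  refine ⟨StR_N q + U, fun x' hx' => ⟨F, ?_, ?_⟩⟩
  · intro n hn i hi
    obtain ⟨h1, h2⟩ := hF n hn i hi
    constructor
    · have := hT n i (F n i) (by omega)
      have := hU n hn i hi
      rw [hx' _ (by omega), h1]
    · intro j hj
      have := hT n i j (by omega)
      have := hU n hn i hi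
      rw [hx' _ (by omega), h2 j hj]
  · have e : (Std x' F 0 thz).rel q.unpair.1 (Denumerable.ofNat (List ℕ) q.unpair.2) ↔
        (Std x F 0 thz).rel q.unpair.1 (Denumerable.ofNat (List ℕ) q.unpair.2) :=
      ⟨StR_one x' x F F (StR_N q) _ _ (StR_k q) (fun p hp => (hx' p (by omega)).symm)
        (StR_sup q) (fun _ _ _ _ => rfl),
       StR_one x x' F F (StR_N q) _ _ (StR_k q) (fun p hp => hx' p (by omega))
        (StR_sup q) (fun _ _ _ _ => rfl)⟩
    rw [e]
    exact hm

theorem StR_Sv : Sv StR_H := by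
  rintro x q m m' ⟨F, hF, hm⟩ ⟨F', hF', hm'⟩
  have hag : ∀ n < StR_N q, ∀ i < StR_N q, F n i = F' n i := by
    intro n hn i hi
    obtain ⟨h1, h2⟩ := hF n hn i hi
    obtain ⟨h1', h2'⟩ := hF' n hn i hi
    rcases lt_trichotomy (F n i) (F' n i) with h | h | h
    · have := h2' _ h
      rw [h1] at this
      exact absurd this (by decide)
    · exact h
    · have := h2 _ h
      rw [h1'] at this
      exact absurd this (by decide)
  have e : (Std x F 0 thz).rel q.unpair.1 (Denumerable.ofNat (List ℕ) q.unpair.2) ↔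
      (Std x F' 0 thz).rel q.unpair.1 (Denumerable.ofNat (List ℕ) q.unpair.2) :=
    ⟨StR_one x x F F' (StR_N q) _ _ (StR_k q) (fun _ _ => rfl) (StR_sup q) hag,
     StR_one x x F' F (StR_N q) _ _ (StR_k q) (fun _ _ => rfl) (StR_sup q)
       (fun n hn i hi => (hag n hn i hi).symm)⟩
  rw [e] at hm
  rcases hm with ⟨h1, h2⟩ | ⟨h1, h2⟩ <;> rcases hm' with ⟨h3, h4⟩ | ⟨h3, h4⟩
  · rw [h1, h3]
  · exact absurd h2 h4
  · exact absurd h4 h2
  · rw [h1, h3]

theorem std_in : ∃ c : Rl, ∀ R, RC R → c ∈ R → ∀ x ∈ R, IsSys x → dg (Std x (sysF x) 0 thz) ∈ R := by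
  obtain ⟨c, hc⟩ := pcont StR_H StR_Ct StR_Sv
  refine ⟨c, fun R hR hcR x hxR hx => hc R hR hcR x hxR _ fun q => ?_⟩
  refine ⟨sysF x, fun n _ i _ => ⟨StR_sys hx n i, fun j hj => StR_min n i j hj⟩, ?_⟩
  classical
  by_cases h : (Std x (sysF x) 0 thz).rel q.unpair.1 (Denumerable.ofNat (List ℕ) q.unpair.2)
  · refine Or.inl ⟨?_, h⟩
    simp [dg, h]
  · refine Or.inr ⟨?_, h⟩
    simp [dg, h]

end Pool.Agent.RNI
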