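import Pool.Agent.LZF.Idl

/-!
# TrE: truth evaluations of coded formulas

* `sub_app`: `sub q (σ ++ [k]) j = sub q σ (pair 5 (pair k j))` (induction on `σ`).
* `TrE_eval`: induction on `g` generalizing `σ`, `a`. Rel: `LZF.fcode (rel k v h)` contains exactly
  `pair 0 (pair k (encode (v.map Fin.val)))`; `Denumerable.ofNat_encode`, `List.map_map`,
  `LZF.scode N (pair k (encode l)) = true ↔ N.rel k l`. Neg, conj: `sub q (σ ++ [k]) = LZF.fcode` of the subformula by
  `sub_app` and the definition of `LZF.fcode` (`m = pair 5 (pair k j)`: `Nat.pair_eq_pair`). All: the assignment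
  `fun i : Fin (n + 1) => (a ++ [c]).getD i 0` is `Fin.snoc (fun i => a.getD i 0) c` for `a.length = n`.
* `TrE_ex`: let `sL g a` be the truth value with the assignment `i ↦ a.getD i 0` for lists `a` of any length,
  `all` meaning `∀ c, sL g (a ++ [c])` (recursion on `g`), and `ev g σ a` the value `sL` of the subformula of `g` at the
  position `σ` (recursion on `g`: `ev g [] a = sL g a`, `ev (neg g) (0 :: σ) a = ev g σ a`,
  `ev (conj g) (k :: σ) a = ev (g k) σ a`, `ev (all g) (0 :: σ) a = ev g σ a`, `False` otherwise). Let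
  `z (pair (encode σ) (encode a)) = decide (ev f σ a)`. The conditions of `TrEv` hold (show for all `g`, `σ`, `a` the
  conditions with `sub (LZF.fcode g) σ` and `ev g`, by induction on `g` and cases on `σ`). `sL f [] ↔ Sat N f Fin.elim0`
  as in `TrE_eval` (`sL g a ↔ Sat N g (fun i => a.getD i 0)` if `a.length = n`).
-/

namespace Pool.Agent.RNI

open Pool.Agent.NI

/-- The part of the code `q` at the position `σ`. -/
def sub (q : Rl) : List ℕ → Rl
  | [] => q
  | k :: σ => sub (fun j => q (Nat.pair 5 (Nat.pair k j))) σ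

/-- The bit of `z` with the number `(σ, a)`. -/
def zb (z : Rl) (σ a : List ℕ) : Prop := z (Nat.pair (Encodable.encode σ) (Encodable.encode a)) = true

/-- `z` is a truth evaluation for the structure `x` and the formula code `q`. -/
def TrEv (x q z : Rl) : Prop := ∀ σ a : List ℕ,
  (sub q σ (Nat.pair 2 0) = true → (zb z σ a ↔ ¬ zb z (σ ++ [0]) a)) ∧
  (sub q σ (Nat.pair 3 0) = true → (zb z σ a ↔ ∀ k, zb z (σ ++ [k]) a)) ∧
  (sub q σ (Nat.pair 4 0) = true → (zb z σ a ↔ ∀ c, zb z (σ ++ [0]) (a ++ [c]))) ∧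
  (∀ k e, sub q σ (Nat.pair 0 (Nat.pair k e)) = true → (zb z σ a ↔
    x (Nat.pair k (Encodable.encode ((Denumerable.ofNat (List ℕ) e).map fun i => a.getD i 0))) =
      true)) ∧
  (∀ i j, sub q σ (Nat.pair 1 (Nat.pair i j)) = true → (zb z σ a ↔ a.getD i 0 = a.getD j 0))

theorem sub_app (q : Rl) (σ : List ℕ) (k j : ℕ) :
    sub q (σ ++ [k]) j = sub q σ (Nat.pair 5 (Nat.pair k j)) := by
  induction σ generalizing q with
  | nil => rfl
  | cons a σ ih =>
    show sub (fun j => q (Nat.pair 5 (Nat.pair a j))) (σ ++ [k]) j =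
      sub (fun j => q (Nat.pair 5 (Nat.pair a j))) σ (Nat.pair 5 (Nat.pair k j))
    exact ih _

theorem TrE_chr {P : ℕ → Prop} {n : ℕ} : LZF.chr P n = true ↔ P n := by
  simp [LZF.chr]

theorem TrE_bool {a b : Bool} (h : a = true ↔ b = true) : a = b := by
  cases a <;> cases b <;> simp_all

/-- the codes of the immediate subformulas -/
theorem TrE_neg {L : Voc} {n : ℕ} (f : Fml L n) :
    (fun j => LZF.fcode (Fml.neg f) (Nat.pair 5 (Nat.pair 0 j))) = LZF.fcode f := by
  funext j
  apply TrE_bool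
  rw [LZF.fcode, TrE_chr]
  simp [Nat.pair_eq_pair]

theorem TrE_neg' {L : Voc} {n : ℕ} (f : Fml L n) {k : ℕ} (hk : k ≠ 0) :
    (fun j => LZF.fcode (Fml.neg f) (Nat.pair 5 (Nat.pair k j))) = fun _ => false := by
  funext j
  apply TrE_bool
  rw [LZF.fcode, TrE_chr]
  simp [Nat.pair_eq_pair, hk]

theorem TrE_all {L : Voc} {n : ℕ} (f : Fml L (n + 1)) :
    (fun j => LZF.fcode (Fml.all f) (Nat.pair 5 (Nat.pair 0 j))) = LZF.fcode f := by
  funext j
  apply TrE_bool
  rw [LZF.fcode, TrE_chr]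
  simp [Nat.pair_eq_pair]

theorem TrE_all' {L : Voc} {n : ℕ} (f : Fml L (n + 1)) {k : ℕ} (hk : k ≠ 0) :
    (fun j => LZF.fcode (Fml.all f) (Nat.pair 5 (Nat.pair k j))) = fun _ => false := by
  funext j
  apply TrE_bool
  rw [LZF.fcode, TrE_chr]
  simp [Nat.pair_eq_pair, hk]

theorem TrE_conj {L : Voc} {n : ℕ} (f : ℕ → Fml L n) (k : ℕ) :
    (fun j => LZF.fcode (Fml.conj f) (Nat.pair 5 (Nat.pair k j))) = LZF.fcode (f k) := by
  funext j
  apply TrE_bool
  rw [LZF.fcode, TrE_chr]
  constructor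
  · rintro (h | ⟨k', j', h, h'⟩)
    · simp [Nat.pair_eq_pair] at h
    · simp only [Nat.pair_eq_pair, true_and] at h
      rw [h.1, h.2]
      exact h'
  · intro h
    exact Or.inr ⟨k, j, rfl, h⟩

theorem TrE_rel {L : Voc} {n : ℕ} (k : ℕ) (v : List (Fin n)) (h : v.length = L k) (i : ℕ) :
    (fun j => LZF.fcode (Fml.rel k v h) (Nat.pair 5 (Nat.pair i j))) = fun _ => false := by
  funext j
  apply TrE_bool
  rw [LZF.fcode, TrE_chr]
  simp [Nat.pair_eq_pair]

theorem TrE_eq {L : Voc} {n : ℕ} (a b : Fin n) (i : ℕ) :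
    (fun j => LZF.fcode (Fml.eq a b : Fml L n) (Nat.pair 5 (Nat.pair i j))) = fun _ => false := by
  funext j
  apply TrE_bool
  rw [LZF.fcode, TrE_chr]
  simp [Nat.pair_eq_pair]

theorem TrE_snoc {n : ℕ} {a : List ℕ} (ha : a.length = n) (c : ℕ) :
    (fun i : Fin (n + 1) => (a ++ [c]).getD (i : ℕ) 0) = Fin.snoc (fun i : Fin n => a.getD (i : ℕ) 0) c := by
  funext i
  refine Fin.lastCases ?_ (fun j => ?_) i
  · rw [Fin.snoc_last]
    simp [List.getD_eq_getElem?_getD, ← ha]
  · rw [Fin.snoc_castSucc]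
    have hj : (j : ℕ) < a.length := by rw [ha]; exact j.2
    simp [List.getD_eq_getElem?_getD, List.getElem?_append_left hj]

theorem TrE_scode {L : Voc} (N : Str L) (k : ℕ) (l : List ℕ) :
    LZF.scode N (Nat.pair k (Encodable.encode l)) = true ↔ N.rel k l := by
  rw [LZF.scode, TrE_chr]
  simp

theorem TrE_eval {L : Voc} (N : Str L) (q z : Rl) (h : TrEv (LZF.scode N) q z) {n : ℕ} (g : Fml L n)
    (σ a : List ℕ) (hσ : sub q σ = LZF.fcode g) (ha : a.length = n) :
    zb z σ a ↔ Sat N g (fun i => a.getD i 0) := by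
  induction g generalizing σ a with
  | rel k v hv =>
    have h1 := (h σ a).2.2.2.1 k (Encodable.encode (v.map Fin.val)) (by
      rw [hσ, LZF.fcode, TrE_chr])
    rw [h1, TrE_scode, Denumerable.ofNat_encode, List.map_map]
    exact Iff.rfl
  | eq i j =>
    have h1 := (h σ a).2.2.2.2 i j (by
      rw [hσ, LZF.fcode, TrE_chr])
    rw [h1]
    exact Iff.rfl
  | neg f ih =>
    have h1 := (h σ a).1 (by
      rw [hσ, LZF.fcode, TrE_chr]
      exact Or.inl rfl)
    have h2 : sub q (σ ++ [0]) = LZF.fcode f := by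
      funext j
      rw [sub_app, hσ]
      exact congrFun (TrE_neg f) j
    rw [h1, ih (σ ++ [0]) a h2 ha]
    exact Iff.rfl
  | conj f ih =>
    have h1 := (h σ a).2.1 (by
      rw [hσ, LZF.fcode, TrE_chr]
      exact Or.inl rfl)
    rw [h1]
    refine forall_congr' fun k => ?_
    have h2 : sub q (σ ++ [k]) = LZF.fcode (f k) := by
      funext j
      rw [sub_app, hσ]
      exact congrFun (TrE_conj f k) j
    exact ih k (σ ++ [k]) a h2 ha
  | all f ih =>
    have h1 := (h σ a).2.2.1 (by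
      rw [hσ, LZF.fcode, TrE_chr]
      exact Or.inl rfl)
    rw [h1]
    refine forall_congr' fun c => ?_
    have h2 : sub q (σ ++ [0]) = LZF.fcode f := by
      funext j
      rw [sub_app, hσ]
      exact congrFun (TrE_all f) j
    rw [ih (σ ++ [0]) (a ++ [c]) h2 (by simp [ha]), TrE_snoc ha c]

/-- truth value with the assignment `a` -/
def TrE_sL {L : Voc} (N : Str L) : {n : ℕ} → Fml L n → List ℕ → Prop
  | _, Fml.rel (n := n) k v _, a => N.rel k (List.map (fun i : Fin n => a.getD (i : ℕ) 0) v)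
  | _, Fml.eq i j, a => a.getD (i : ℕ) 0 = a.getD (j : ℕ) 0
  | _, Fml.neg f, a => ¬ TrE_sL N f a
  | _, Fml.conj f, a => ∀ m, TrE_sL N (f m) a
  | _, Fml.all f, a => ∀ c : ℕ, TrE_sL N f (a ++ [c])

theorem TrE_sL_sat {L : Voc} (N : Str L) {n : ℕ} (g : Fml L n) (a : List ℕ) (ha : a.length = n) :
    TrE_sL N g a ↔ Sat N g (fun i => a.getD i 0) := by
  induction g generalizing a with
  | rel k v hv => exact Iff.rfl
  | eq i j => exact Iff.rfl
  | neg f ih => exact not_congr (ih a ha)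
  | conj f ih => exact forall_congr' fun m => ih m a ha
  | all f ih =>
    refine forall_congr' fun c => ?_
    rw [ih (a ++ [c]) (by simp [ha]), TrE_snoc ha c]

/-- truth value of the subformula at a position -/
def TrE_ev {L : Voc} (N : Str L) : {n : ℕ} → Fml L n → List ℕ → List ℕ → Prop
  | _, Fml.rel k v h, σ, a => if σ = [] then TrE_sL N (Fml.rel k v h) a else False
  | _, Fml.eq i j, σ, a => if σ = [] then TrE_sL N (Fml.eq i j : Fml L _) a else False
  | _, Fml.neg f, [], a => TrE_sL N (Fml.neg f) a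
  | _, Fml.neg f, _ :: σ, a => TrE_ev N f σ a
  | _, Fml.conj f, [], a => TrE_sL N (Fml.conj f) a
  | _, Fml.conj f, k :: σ, a => TrE_ev N (f k) σ a
  | _, Fml.all f, [], a => TrE_sL N (Fml.all f) a
  | _, Fml.all f, _ :: σ, a => TrE_ev N f σ a

theorem TrE_ev_nil {L : Voc} (N : Str L) {n : ℕ} (g : Fml L n) (a : List ℕ) :
    TrE_ev N g [] a ↔ TrE_sL N g a := by
  cases g <;> simp [TrE_ev]

theorem sub_false (σ : List ℕ) : sub (fun _ => false) σ = fun _ => false := by
  induction σ with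
  | nil => rfl
  | cons k σ ih => exact ih

/-- the conditions of `TrEv` -/
def TrE_C {L : Voc} (N : Str L) {n : ℕ} (g : Fml L n) (q : Rl) (σ a : List ℕ) : Prop :=
  (q (Nat.pair 2 0) = true → (TrE_ev N g σ a ↔ ¬ TrE_ev N g (σ ++ [0]) a)) ∧
  (q (Nat.pair 3 0) = true → (TrE_ev N g σ a ↔ ∀ k, TrE_ev N g (σ ++ [k]) a)) ∧
  (q (Nat.pair 4 0) = true → (TrE_ev N g σ a ↔ ∀ c, TrE_ev N g (σ ++ [0]) (a ++ [c]))) ∧
  (∀ k e, q (Nat.pair 0 (Nat.pair k e)) = true → (TrE_ev N g σ a ↔
    N.rel k ((Denumerable.ofNat (List ℕ) e).map fun i => a.getD i 0))) ∧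
  (∀ i j, q (Nat.pair 1 (Nat.pair i j)) = true → (TrE_ev N g σ a ↔ a.getD i 0 = a.getD j 0))

theorem TrE_C_false {L : Voc} (N : Str L) {n : ℕ} (g : Fml L n) {q : Rl} (hq : q = fun _ => false) (σ a : List ℕ) :
    TrE_C N g q σ a := by
  subst hq
  refine ⟨?_, ?_, ?_, ?_, ?_⟩
  · intro h; simp at h
  · intro h; simp at h
  · intro h; simp at h
  · intro k e h; simp at h
  · intro i j h; simp at h

theorem TrE_cond {L : Voc} (N : Str L) {n : ℕ} (g : Fml L n) (σ a : List ℕ) :
    TrE_C N g (sub (LZF.fcode g) σ) σ a := by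
  induction g generalizing σ a with
  | rel k v hv =>
    cases σ with
    | nil =>
      show TrE_C N (Fml.rel k v hv) (LZF.fcode (Fml.rel k v hv)) [] a
      refine ⟨?_, ?_, ?_, ?_, ?_⟩
      · intro h; rw [LZF.fcode, TrE_chr] at h; simp [Nat.pair_eq_pair] at h
      · intro h; rw [LZF.fcode, TrE_chr] at h; simp [Nat.pair_eq_pair] at h
      · intro h; rw [LZF.fcode, TrE_chr] at h; simp [Nat.pair_eq_pair] at h
      · intro k' e h
        rw [LZF.fcode, TrE_chr] at h
        simp only [Nat.pair_eq_pair, true_and] at h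
        rw [TrE_ev_nil, h.1, h.2, Denumerable.ofNat_encode, List.map_map]
        exact Iff.rfl
      · intro i j h; rw [LZF.fcode, TrE_chr] at h; simp [Nat.pair_eq_pair] at h
    | cons i σ =>
      apply TrE_C_false
      show sub (fun j => LZF.fcode (Fml.rel k v hv) (Nat.pair 5 (Nat.pair i j))) σ = _
      rw [TrE_rel, sub_false]
  | eq i' j' =>
    cases σ with
    | nil =>
      show TrE_C N (Fml.eq i' j') (LZF.fcode (Fml.eq i' j' : Fml L _)) [] a
      refine ⟨?_, ?_, ?_, ?_, ?_⟩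
      · intro h; rw [LZF.fcode, TrE_chr] at h; simp [Nat.pair_eq_pair] at h
      · intro h; rw [LZF.fcode, TrE_chr] at h; simp [Nat.pair_eq_pair] at h
      · intro h; rw [LZF.fcode, TrE_chr] at h; simp [Nat.pair_eq_pair] at h
      · intro k' e h; rw [LZF.fcode, TrE_chr] at h; simp [Nat.pair_eq_pair] at h
      · intro i j h
        rw [LZF.fcode, TrE_chr] at h
        simp only [Nat.pair_eq_pair, true_and] at h
        rw [TrE_ev_nil, h.1, h.2]
        exact Iff.rfl
    | cons i σ =>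
      apply TrE_C_false
      show sub (fun j => LZF.fcode (Fml.eq i' j' : Fml L _) (Nat.pair 5 (Nat.pair i j))) σ = _
      rw [TrE_eq, sub_false]
  | neg f ih =>
    cases σ with
    | nil =>
      show TrE_C N (Fml.neg f) (LZF.fcode (Fml.neg f)) [] a
      refine ⟨?_, ?_, ?_, ?_, ?_⟩
      · intro _
        rw [TrE_ev_nil]
        show ¬ TrE_sL N f a ↔ ¬ TrE_ev N f [] a
        rw [TrE_ev_nil]
      · intro h; rw [LZF.fcode, TrE_chr] at h; simp [Nat.pair_eq_pair] at h
      · intro h; rw [LZF.fcode, TrE_chr] at h; simp [Nat.pair_eq_pair] at h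
      · intro k' e h; rw [LZF.fcode, TrE_chr] at h; simp [Nat.pair_eq_pair] at h
      · intro i j h; rw [LZF.fcode, TrE_chr] at h; simp [Nat.pair_eq_pair] at h
    | cons i σ =>
      show TrE_C N (Fml.neg f) (sub (fun j => LZF.fcode (Fml.neg f) (Nat.pair 5 (Nat.pair i j))) σ) (i :: σ) a
      by_cases hi : i = 0
      · subst hi
        rw [TrE_neg]
        exact ih σ a
      · rw [TrE_neg' f hi, sub_false]
        exact TrE_C_false N _ rfl _ _
  | conj f ih =>
    cases σ with
    | nil =>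
      show TrE_C N (Fml.conj f) (LZF.fcode (Fml.conj f)) [] a
      refine ⟨?_, ?_, ?_, ?_, ?_⟩
      · intro h; rw [LZF.fcode, TrE_chr] at h; simp [Nat.pair_eq_pair] at h
      · intro _
        rw [TrE_ev_nil]
        show (∀ m, TrE_sL N (f m) a) ↔ ∀ k, TrE_ev N (f k) [] a
        exact forall_congr' fun k => (TrE_ev_nil N (f k) a).symm
      · intro h; rw [LZF.fcode, TrE_chr] at h; simp [Nat.pair_eq_pair] at h
      · intro k' e h; rw [LZF.fcode, TrE_chr] at h; simp [Nat.pair_eq_pair] at h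
      · intro i j h; rw [LZF.fcode, TrE_chr] at h; simp [Nat.pair_eq_pair] at h
    | cons i σ =>
      show TrE_C N (Fml.conj f) (sub (fun j => LZF.fcode (Fml.conj f) (Nat.pair 5 (Nat.pair i j))) σ) (i :: σ) a
      rw [TrE_conj]
      exact ih i σ a
  | all f ih =>
    cases σ with
    | nil =>
      show TrE_C N (Fml.all f) (LZF.fcode (Fml.all f)) [] a
      refine ⟨?_, ?_, ?_, ?_, ?_⟩
      · intro h; rw [LZF.fcode, TrE_chr] at h; simp [Nat.pair_eq_pair] at h
      · intro h; rw [LZF.fcode, TrE_chr] at h; simp [Nat.pair_eq_pair] at h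
      · intro _
        rw [TrE_ev_nil]
        show (∀ c : ℕ, TrE_sL N f (a ++ [c])) ↔ ∀ c, TrE_ev N f [] (a ++ [c])
        exact forall_congr' fun c => (TrE_ev_nil N f (a ++ [c])).symm
      · intro k' e h; rw [LZF.fcode, TrE_chr] at h; simp [Nat.pair_eq_pair] at h
      · intro i j h; rw [LZF.fcode, TrE_chr] at h; simp [Nat.pair_eq_pair] at h
    | cons i σ =>
      show TrE_C N (Fml.all f) (sub (fun j => LZF.fcode (Fml.all f) (Nat.pair 5 (Nat.pair i j))) σ) (i :: σ) a
      by_cases hi : i = 0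
      · subst hi
        rw [TrE_all]
        exact ih σ a
      · rw [TrE_all' f hi, sub_false]
        exact TrE_C_false N _ rfl _ _

open Classical in
theorem TrE_ex {L : Voc} (N : Str L) (f : Fml L 0) (hf : N ∈ Mod f) :
    ∃ z, TrEv (LZF.scode N) (LZF.fcode f) z ∧ zb z [] [] := by
  let z : Rl := fun n => decide (TrE_ev N f (Denumerable.ofNat (List ℕ) n.unpair.1)
    (Denumerable.ofNat (List ℕ) n.unpair.2))
  have hz : ∀ σ a, zb z σ a ↔ TrE_ev N f σ a := by
    intro σ a
    show decide (TrE_ev N f (Denumerable.ofNat (List ℕ)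
      (Nat.pair (Encodable.encode σ) (Encodable.encode a)).unpair.1)
      (Denumerable.ofNat (List ℕ) (Nat.pair (Encodable.encode σ) (Encodable.encode a)).unpair.2)) = true ↔ _
    rw [Nat.unpair_pair, Denumerable.ofNat_encode, Denumerable.ofNat_encode, decide_eq_true_iff]
  refine ⟨z, fun σ a => ?_, ?_⟩
  · have h1 := TrE_cond N f σ a
    unfold TrE_C at h1
    simp only [hz, TrE_scode]
    exact h1
  · rw [hz, TrE_ev_nil, TrE_sL_sat N f [] rfl]
    have h1 : (fun i : Fin 0 => ([] : List ℕ).getD (i : ℕ) 0) = Fin.elim0 := by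
      funext i; exact i.elim0
    rw [h1]
    exact hf

end Pool.Agent.RNI
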