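import Pool.Agent.RNI.CrR
import Pool.Agent.RNI.RlR
import Pool.Agent.RNI.StR
import Pool.Agent.NI.UnB

/-!
# UnR: unbounded Scott rank in the model

Copy of the proof of `unbounded` in `NI/UnB`. Let `α` be the bound, `CtIn R α`. `rel_in` gives `l ∈ R`, `i ≠ j`; `cert_in` gives
`x ∈ R`, `x ∈ DS b` with `Lr x = rl l` (`funext`, `propext`); `x ∈ DB (Bof b)` (`x ∈ DU` and `cB x = b`), so `IsSys x`
and `sysF x = FV (Desc (rl l))`. `M = Std x (sysF x) 0 thz ∈ Mod f = KD (DS b)`, `dg M ∈ R` by `std_in`, so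
`SRleIn R M α`, hence `SRle M α` (forget `gr s ∈ R`); `not_SRle` (used as in `unbounded`) gives a contradiction.
The table `c` is a join (`RC_tables`) of the three tables.
-/

namespace Pool.Agent.RNI

open Pool.Agent.NI

theorem unb_in : ∃ c : Rl, ∀ R, RC R → c ∈ R → ∀ b ∈ R, Thin (PB (Bof b)) →
    ∀ f : Fml VT 0, Mod f = KD (DS b) → ¬ BoundedIn R f := by
  obtain ⟨c1, h1⟩ := cert_in
  obtain ⟨c2, h2⟩ := rel_in
  obtain ⟨c3, h3⟩ := std_in
  obtain ⟨c, hc⟩ := RC_tables (fun n => if n = 0 then c1 else if n = 1 then c2 else c3)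
  refine ⟨c, fun R hR hcR b hb hthin f hf => ?_⟩
  have hc1 : c1 ∈ R := by simpa using hc R hR hcR 0
  have hc2 : c2 ∈ R := by simpa using hc R hR hcR 1
  have hc3 : c3 ∈ R := by simpa using hc R hR hcR 2
  rintro ⟨α, hα, hall⟩
  obtain ⟨l, hlR, hl, i, j, hij, hi, hj⟩ := h2 R hR hc2 α hα
  obtain ⟨x, hxR, hxD, hxL⟩ := h1 R hR hc1 b hb hthin l hlR hl
  have hx : x ∈ DB (Bof (cB x)) := hxD.1
  have hLr : Lr x = rl l := by
    funext a c
    exact propext (hxL a c)
  have hF : sysF x = FV (Desc (rl l)) := by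
    rw [hx.2.1, hLr]
  set g : V := Finsupp.single (Encodable.encode [i]) 1 + Finsupp.single (Encodable.encode [j]) 1 with hg
  have hep : ep g = 0 := by
    rw [hg, UnB_ep_add, UnB_ep_single, UnB_ep_single]
    decide
  have hnee : Encodable.encode [j] ≠ Encodable.encode [i] := by
    intro h
    have := Encodable.encode_injective h
    exact hij (by simpa using this.symm)
  have hg0 : g ≠ 0 := by
    intro h0
    have h1 : g (Encodable.encode [i]) = 0 := by rw [h0]; rfl
    rw [hg, Finsupp.add_apply, Finsupp.single_eq_same, Finsupp.single_apply, if_neg hnee] at h1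
    exact absurd h1 (by decide)
  have hr : Rk (ChG (sysF x)) (Ordinal.omega0 * α) (1, g) := by
    rw [grp_rank _ _ _ _ hep]
    intro k hk
    have h2 : k = Encodable.encode [i] ∨ k = Encodable.encode [j] := by
      by_contra hcon
      push Not at hcon
      rw [Finsupp.mem_support_iff, hg, Finsupp.add_apply, Finsupp.single_apply, Finsupp.single_apply,
        if_neg (Ne.symm hcon.1), if_neg (Ne.symm hcon.2)] at hk
      exact hk (by decide)
    rw [hF]
    rcases h2 with rfl | rfl
    · exact FV_rank_ge (rl l) _ [] i (List.isChain_singleton _) hi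
    · exact FV_rank_ge (rl l) _ [] j (List.isChain_singleton _) hj
  have hnt : ¬ Thread (sysF x) := by
    rw [hF]; exact UnB_no_thread (rl l) hl
  have hM : Std x (sysF x) 0 thz ∈ Mod f := by
    rw [hf]
    refine ⟨x, hxD, 0, thz, ?_, rfl⟩
    intro n
    show ep 0 = 0
    unfold ep
    exact Finsupp.sum_zero_index
  have hSR : SRle (Std x (sysF x) 0 thz) α := by
    intro a b' hab
    obtain ⟨s, -, hs1, hs2⟩ := hall _ hM (h3 R hR hc3 x hxR hx.1) a b' hab
    exact ⟨s, hs1, hs2⟩
  exact not_SRle x (sysF x) thz hnt α 1 g hg0 hep hr hSR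

end Pool.Agent.RNI
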