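import Pool.Agent.LZF.Defs
import Pool.Agent.NI.UnB

set_option autoImplicit false

/-!
# VcV: in the universe of sets, `VCIn` is Vaught's conjecture and `SIn` is Statement S

For the membership relation of the universe `ZFSet.{0}`, `LZF.Reals` is the set of all reals (`Reals_V`), `LZF.VCIn`
is `NI.VC` (`VCIn_V`) and `LZF.SIn` is `NI.StatementS` (`SIn_V`).
-/

namespace Pool.Agent.RNI

open Pool.Agent.NI Pool.Agent.H55 Cardinal

/-- The membership relation of the universe. -/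
def VE (x y : ZFSet.{0}) : Prop := x ∈ y

/-- The natural number `n` as a set. -/
noncomputable def nz : ℕ → ZFSet.{0}
  | 0 => ∅
  | n + 1 => insert (nz n) (nz n)

theorem isNat_V (n : ℕ) (k : ZFSet.{0}) : LZF.IsNat VE n k ↔ k = nz n := by
  induction n generalizing k with
  | zero =>
    simp only [LZF.IsNat, VE, nz]
    exact ⟨fun h => (ZFSet.eq_empty k).2 h, fun h => by rw [h]; exact fun z => ZFSet.notMem_empty z⟩
  | succ n ih =>
    simp only [LZF.IsNat, nz, VE]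
    constructor
    · rintro ⟨j, hj, h⟩
      rw [ih] at hj
      subst hj
      ext z
      rw [h z, ZFSet.mem_insert_iff, or_comm]
    · rintro rfl
      refine ⟨nz n, (ih _).2 rfl, fun z => ?_⟩
      rw [ZFSet.mem_insert_iff, or_comm]

theorem nz_mem {n m : ℕ} (h : n < m) : nz n ∈ nz m := by
  induction m with
  | zero => omega
  | succ m ih =>
    simp only [nz, ZFSet.mem_insert_iff]
    rcases Nat.lt_succ_iff_lt_or_eq.1 h with h | h
    · exact Or.inr (ih h)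
    · exact Or.inl (by rw [h])

theorem nz_inj {n m : ℕ} (h : nz n = nz m) : n = m := by
  rcases lt_trichotomy n m with h1 | h1 | h1
  · exact absurd (h ▸ nz_mem h1) (ZFSet.mem_irrefl _)
  · exact h1
  · exact absurd (h ▸ nz_mem h1) (ZFSet.mem_irrefl _)

/-- The real `x` as a set. -/
noncomputable def rz (x : Rl) : ZFSet.{0} := ZFSet.range fun n : {n : ℕ // x n = true} => nz n.1

theorem mem_rz {x : Rl} {z : ZFSet.{0}} : z ∈ rz x ↔ ∃ n, x n = true ∧ nz n = z := by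
  simp only [rz, ZFSet.mem_range, Subtype.exists]
  constructor
  · rintro ⟨n, h, rfl⟩
    exact ⟨n, h, rfl⟩
  · rintro ⟨n, h, rfl⟩
    exact ⟨n, h, rfl⟩

theorem nz_mem_rz {x : Rl} {n : ℕ} : nz n ∈ rz x ↔ x n = true := by
  rw [mem_rz]
  constructor
  · rintro ⟨m, h, e⟩
    rw [← nz_inj e]
    exact h
  · exact fun h => ⟨n, h, rfl⟩

theorem isRl_V {c : ZFSet.{0}} {x : Rl} : LZF.IsRl VE c x ↔ c = rz x := by
  constructor
  · rintro ⟨h1, h2⟩
    ext z
    rw [mem_rz]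
    constructor
    · intro hz
      obtain ⟨n, hn⟩ := h1 z hz
      have e := (isNat_V n z).1 hn
      exact ⟨n, (h2 n z hn).1 hz, e.symm⟩
    · rintro ⟨n, hn, rfl⟩
      exact (h2 n (nz n) ((isNat_V n _).2 rfl)).2 hn
  · rintro rfl
    refine ⟨fun z hz => ?_, fun n k hk => ?_⟩
    · obtain ⟨n, _, rfl⟩ := mem_rz.1 hz
      exact ⟨n, (isNat_V n _).2 rfl⟩
    · rw [(isNat_V n k).1 hk]
      exact nz_mem_rz

theorem rz_inj {x y : Rl} (h : rz x = rz y) : x = y := by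
  funext n
  have h1 := nz_mem_rz (x := x) (n := n)
  have h2 := nz_mem_rz (x := y) (n := n)
  rw [h] at h1
  rw [Bool.eq_iff_iff]
  exact h1.symm.trans h2

/-- In the universe, the set of the reals is the set of all reals. -/
theorem Reals_V : LZF.Reals VE = Set.univ :=
  Set.eq_univ_of_forall fun x => ⟨rz x, isRl_V.2 rfl⟩

theorem isPair_V {p x y : ZFSet.{0}} : SC.IsPair VE p x y ↔ p = ZFSet.pair x y := by
  have e1 : ∀ z : ZFSet.{0}, (∀ w, VE w z ↔ w = x) ↔ z = {x} := by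
    intro z
    constructor
    · intro h
      ext w
      rw [ZFSet.mem_singleton]
      exact h w
    · rintro rfl w
      exact ZFSet.mem_singleton
  have e2 : ∀ z : ZFSet.{0}, (∀ w, VE w z ↔ w = x ∨ w = y) ↔ z = {x, y} := by
    intro z
    constructor
    · intro h
      ext w
      rw [ZFSet.mem_pair]
      exact h w
    · rintro rfl w
      exact ZFSet.mem_pair
  constructor
  · intro h
    ext z
    rw [ZFSet.pair, ZFSet.mem_pair, ← e1, ← e2]
    exact h z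
  · rintro rfl z
    rw [e1, e2]
    exact ZFSet.mem_pair

theorem rel_V {r x y : ZFSet.{0}} : SC.Rel VE r x y ↔ ZFSet.pair x y ∈ r := by
  constructor
  · rintro ⟨p, h, hp⟩
    rw [isPair_V] at hp
    exact hp ▸ h
  · exact fun h => ⟨_, h, isPair_V.2 rfl⟩

/-- In the universe, `CtIn` is countability. -/
theorem ctIn_V {d : ZFSet.{0}} : LZF.CtIn VE d ↔ Countable {z // z ∈ d} := by
  constructor
  · rintro ⟨g, hg, h⟩
    have h' : ∀ z : {z // z ∈ d}, ∃ n, ZFSet.pair (nz n) z.1 ∈ g := by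
      intro z
      obtain ⟨n, k, hk, h1⟩ := h z.1 z.2
      rw [isNat_V] at hk
      subst hk
      exact ⟨n, rel_V.1 h1⟩
    choose e he using h'
    refine Function.Injective.countable (f := e) fun z z' hz => ?_
    have h1 := he z
    have h2 := he z'
    rw [← hz] at h2
    exact Subtype.ext (hg _ _ _ (rel_V.2 h1) (rel_V.2 h2))
  · intro hc
    obtain ⟨e, he⟩ := hc.exists_injective_nat
    refine ⟨ZFSet.range fun z : Shrink.{0} {z // z ∈ d} =>
      ZFSet.pair (nz (e ((equivShrink _).symm z))) ((equivShrink _).symm z).1, ?_, ?_⟩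
    · intro k z z' h1 h2
      rw [rel_V, ZFSet.mem_range] at h1 h2
      obtain ⟨u, hu⟩ := h1
      obtain ⟨v, hv⟩ := h2
      obtain ⟨u1, u2⟩ := ZFSet.pair_inj.1 hu
      obtain ⟨v1, v2⟩ := ZFSet.pair_inj.1 hv
      have h3 := he (nz_inj (u1.trans v1.symm))
      rw [← u2, ← v2, h3]
    · intro z hz
      refine ⟨e ⟨z, hz⟩, nz (e ⟨z, hz⟩), (isNat_V _ _).2 rfl, rel_V.2 ?_⟩
      rw [ZFSet.mem_range]
      exact ⟨equivShrink _ ⟨z, hz⟩, by simp⟩

/-- In the universe, `ContIn` means: of the cardinality of the continuum. -/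
theorem contIn_V {d : ZFSet.{0}} : LZF.ContIn VE d ↔ Nonempty (Rl ≃ {z // z ∈ d}) := by
  constructor
  · rintro ⟨g, h1, h2⟩
    have h1' : ∀ x : Rl, ∃ z : {z // z ∈ d}, ZFSet.pair (rz x) z.1 ∈ g := by
      intro x
      obtain ⟨z, ⟨hz, hz'⟩, _⟩ := h1 (rz x) ⟨x, isRl_V.2 rfl⟩
      exact ⟨⟨z, hz⟩, rel_V.1 hz'⟩
    choose F hF using h1'
    refine ⟨Equiv.ofBijective F ⟨fun x y hxy => ?_, fun z => ?_⟩⟩
    · obtain ⟨c, _, hc⟩ := h2 (F x).1 (F x).2
      have e1 := hc (rz x) ⟨⟨x, isRl_V.2 rfl⟩, rel_V.2 (hF x)⟩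
      have e2 := hc (rz y) ⟨⟨y, isRl_V.2 rfl⟩, rel_V.2 (by rw [hxy]; exact hF y)⟩
      exact rz_inj (e1.trans e2.symm)
    · obtain ⟨c, ⟨⟨x, hx⟩, hc⟩, _⟩ := h2 z.1 z.2
      rw [isRl_V] at hx
      subst hx
      obtain ⟨w, _, hw⟩ := h1 (rz x) ⟨x, isRl_V.2 rfl⟩
      have e1 := hw z.1 ⟨z.2, hc⟩
      have e2 := hw (F x).1 ⟨(F x).2, rel_V.2 (hF x)⟩
      exact ⟨x, Subtype.ext (e2.trans e1.symm)⟩
  · rintro ⟨F⟩
    have key : ∀ (x : Rl) (z : ZFSet.{0}),
        ZFSet.pair (rz x) z ∈ ZFSet.range (fun x : Rl => ZFSet.pair (rz x) (F x).1) ↔ (F x).1 = z := by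
      intro x z
      rw [ZFSet.mem_range]
      constructor
      · rintro ⟨y, hy⟩
        obtain ⟨h1, h2⟩ := ZFSet.pair_inj.1 hy
        rw [← rz_inj h1]
        exact h2
      · intro h
        exact ⟨x, by rw [h]⟩
    refine ⟨ZFSet.range fun x : Rl => ZFSet.pair (rz x) (F x).1, ?_, ?_⟩
    · rintro c ⟨x, hx⟩
      rw [isRl_V] at hx
      subst hx
      refine ⟨(F x).1, ⟨(F x).2, rel_V.2 ((key x _).2 rfl)⟩, ?_⟩
      rintro z ⟨_, hz⟩
      exact ((key x z).1 (rel_V.1 hz)).symm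
    · intro z hz
      refine ⟨rz (F.symm ⟨z, hz⟩), ⟨⟨_, isRl_V.2 rfl⟩, rel_V.2 ((key _ _).2 (by simp))⟩, ?_⟩
      rintro c ⟨⟨x, hx⟩, hc⟩
      rw [isRl_V] at hx
      subst hx
      have h1 := (key x z).1 (rel_V.1 hc)
      have h2 : F x = ⟨z, hz⟩ := Subtype.ext h1
      rw [← h2, Equiv.symm_apply_apply]

theorem scode_inj {L : Voc} {M N : Str L} (h : LZF.scode M = LZF.scode N) : M = N := by
  have h1 : ∀ k l, M.rel k l ↔ N.rel k l := by
    intro k l
    have h2 := congrFun h (Nat.pair k (Encodable.encode l))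
    simp only [LZF.scode, LZF.chr] at h2
    have h3 := decide_eq_decide.1 h2
    rwa [Nat.unpair_pair, Denumerable.ofNat_encode] at h3
  cases M
  cases N
  congr
  funext k l
  exact propext (h1 k l)

theorem isoIn_V {L : Voc} {M N : Str L} : LZF.IsoIn (LZF.Reals VE) M N ↔ Iso M N := by
  simp [LZF.IsoIn, Reals_V, Iso]

theorem Iso_symm_V {L : Voc} {M N : Str L} (h : Iso M N) : Iso N M := by
  obtain ⟨s, hs⟩ := h
  refine ⟨s.symm, fun k l => ?_⟩
  rw [hs k (l.map s.symm), List.map_map]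
  have e : (s ∘ s.symm : ℕ → ℕ) = id := by
    funext n
    simp
  rw [e, List.map_id]

theorem Iso_trans_V {L : Voc} {M N P : Str L} (h : Iso M N) (h' : Iso N P) : Iso M P := by
  obtain ⟨s, hs⟩ := h
  obtain ⟨t, ht⟩ := h'
  refine ⟨s.trans t, fun k l => ?_⟩
  rw [hs k l, ht k (l.map s), List.map_map]
  rfl

theorem quot_V {L : Voc} {f : Fml L 0} {M N : Mod f} : Quot.mk (isoRel f) M = Quot.mk (isoRel f) N ↔ Iso M.1 N.1 := by
  constructor
  · intro h
    have h1 := Quot.eqvGen_exact h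
    clear h
    induction h1 with
    | rel _ _ h => exact h
    | refl _ => exact ⟨Equiv.refl ℕ, fun k l => by simp⟩
    | symm _ _ _ h => exact Iso_symm_V h
    | trans _ _ _ _ _ h h' => exact Iso_trans_V h h'
  · exact fun h => Quot.sound h

/-- `d` is a set of representatives of the isomorphism classes of the models of `f`. -/
def Repr {L : Voc} (f : Fml L 0) (d : ZFSet.{0}) : Prop :=
  (∀ z, VE z d → ∃ N ∈ Mod f, LZF.IsRl VE z (LZF.scode N)) ∧
    (∀ N ∈ Mod f, LZF.scode N ∈ LZF.Reals VE →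
      ∃! z, VE z d ∧ ∃ N' : Str L, LZF.IsRl VE z (LZF.scode N') ∧ LZF.IsoIn (LZF.Reals VE) N N')

theorem repr_equiv {L : Voc} {f : Fml L 0} {d : ZFSet.{0}} (h : Repr f d) :
    Nonempty ({z // z ∈ d} ≃ Quot (isoRel f)) := by
  obtain ⟨h1, h2⟩ := h
  have h1' : ∀ z : {z // z ∈ d}, ∃ N : Mod f, z.1 = rz (LZF.scode N.1) := by
    intro z
    obtain ⟨N, hN, h⟩ := h1 z.1 z.2
    exact ⟨⟨N, hN⟩, isRl_V.1 h⟩
  choose F hF using h1'
  have hu : ∀ N : Mod f, ∃! z : ZFSet.{0}, z ∈ d ∧ ∃ N' : Str L, z = rz (LZF.scode N') ∧ Iso N.1 N' := by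
    intro N
    have h3 := h2 N.1 N.2 (by rw [Reals_V]; exact Set.mem_univ _)
    simpa only [VE, isRl_V, isoIn_V] using h3
  refine ⟨Equiv.ofBijective (fun z => Quot.mk _ (F z)) ⟨fun z z' hz => ?_, fun q => ?_⟩⟩
  · have h3 : Iso (F z).1 (F z').1 := quot_V.1 hz
    obtain ⟨w, _, hw⟩ := hu (F z)
    have e1 := hw z.1 ⟨z.2, (F z).1, hF z, ⟨Equiv.refl ℕ, fun k l => by simp⟩⟩
    have e2 := hw z'.1 ⟨z'.2, (F z').1, hF z', h3⟩
    exact Subtype.ext (e1.trans e2.symm)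
  · obtain ⟨N, rfl⟩ := Quot.exists_rep q
    obtain ⟨z, ⟨hz, N', hN', hi⟩, _⟩ := hu N
    refine ⟨⟨z, hz⟩, quot_V.2 ?_⟩
    have e := scode_inj (rz_inj ((hF ⟨z, hz⟩).symm.trans hN'))
    rw [e]
    exact Iso_symm_V hi

theorem exists_repr {L : Voc} (f : Fml L 0) : ∃ d, Repr f d := by
  refine ⟨ZFSet.range fun q : Quot (isoRel f) => rz (LZF.scode q.out.1), ?_, ?_⟩
  · intro z hz
    obtain ⟨q, rfl⟩ := ZFSet.mem_range.1 hz
    exact ⟨q.out.1, q.out.2, isRl_V.2 rfl⟩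
  · intro N hN _
    simp only [VE, isRl_V, isoIn_V]
    refine ⟨rz (LZF.scode (Quot.mk (isoRel f) ⟨N, hN⟩).out.1),
      ⟨ZFSet.mem_range.2 ⟨_, rfl⟩, _, rfl, ?_⟩, ?_⟩
    · have h1 : Quot.mk (isoRel f) (Quot.mk (isoRel f) ⟨N, hN⟩).out = Quot.mk (isoRel f) ⟨N, hN⟩ := Quot.out_eq _
      exact Iso_symm_V (quot_V.1 h1)
    · rintro z ⟨hz, N', hN', hi⟩
      obtain ⟨q, rfl⟩ := ZFSet.mem_range.1 hz
      have e := scode_inj (rz_inj hN')
      have h1 : Quot.mk (isoRel f) ⟨N, hN⟩ = q := by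
        rw [← Quot.out_eq q]
        refine quot_V.2 ?_
        rw [e]
        exact hi
      rw [h1]

/-- In the universe, `VCIn` is Vaught's conjecture. -/
theorem VCIn_V : LZF.VCIn VE ↔ VC := by
  have hR : ∀ x : Rl, x ∈ LZF.Reals VE := fun x => by rw [Reals_V]; exact Set.mem_univ _
  have hcard : #Rl = 2 ^ ℵ₀ := by simp
  have key : ∀ {L : Voc} {f : Fml L 0} {d : ZFSet.{0}}, Repr f d →
      ((LZF.CtIn VE d ∨ LZF.ContIn VE d) ↔ (numModels f ≤ ℵ₀ ∨ numModels f = 2 ^ ℵ₀)) := by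
    intro L f d h
    obtain ⟨e⟩ := repr_equiv h
    rw [ctIn_V, contIn_V, numModels, Cardinal.mk_le_aleph0_iff, ← hcard]
    refine or_congr e.countable_iff ⟨?_, ?_⟩
    · rintro ⟨g⟩
      exact (Cardinal.eq.2 ⟨g.trans e⟩).symm
    · intro h
      obtain ⟨g⟩ := Cardinal.eq.1 h
      exact ⟨g.symm.trans e.symm⟩
  constructor
  · intro h L f
    obtain ⟨d, h1, h2, h3⟩ := h L f (hR _) (hR _)
    exact (key ⟨h1, h2⟩).1 h3
  · intro h L f _ _
    obtain ⟨d, hd⟩ := exists_repr f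
    exact ⟨d, hd.1, hd.2, (key hd).2 (h L f)⟩

/-! ### Statement S -/

/-- For the set of all reals, `CtblIn` is countability. -/
theorem ctblIn_V {α : Ordinal.{0}} : LZF.CtblIn Set.univ α ↔ α < Ordinal.omega 1 := by
  have h0 : α < Ordinal.omega 1 ↔ (Set.Iic α).Countable := by
    rw [UnB_lt]
    have h1 : (Set.Iic α).Countable ↔ (Set.Iio α).Countable := by
      rw [← Set.Iio_insert (a := α)]
      exact Set.countable_insert
    rw [h1, ← Cardinal.le_aleph0_iff_set_countable, Cardinal.mk_Iio_ordinal, Cardinal.lift_le_aleph0]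
  rw [h0]
  constructor
  · rintro ⟨f, hf, -⟩
    refine (Set.countable_range f).mono fun β hβ => ?_
    exact (hf β).1 hβ
  · intro h
    obtain ⟨f, hf⟩ := h.exists_eq_range ⟨α, Set.self_mem_Iic⟩
    refine ⟨f, fun β => ?_, Set.mem_univ _⟩
    have h1 : β ∈ Set.Iic α ↔ β ∈ Set.range f := by rw [hf]
    exact h1

/-- In the universe, `SIn` is Statement S. -/
theorem SIn_V : LZF.SIn (LZF.Reals VE) ↔ StatementS := by
  rw [Reals_V]
  have hI : ∀ {L : Voc} (M N : Str L), LZF.IsoIn Set.univ M N ↔ Iso M N := by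
    intro L M N
    simp [LZF.IsoIn, Iso]
  have hS : ∀ {L : Voc} (M : Str L) (α : Ordinal.{0}), LZF.SRleIn Set.univ M α ↔ SRle M α := by
    intro L M α
    simp only [LZF.SRleIn, SRle, Set.mem_univ, true_and]
  have hB : ∀ {L : Voc} (f : Fml L 0), LZF.BoundedIn Set.univ f ↔ BoundedSR f := by
    intro L f
    simp only [LZF.BoundedIn, BoundedSR, hS, ctblIn_V, Set.mem_univ, true_implies]
  have hU : ∀ {L : Voc} (f : Fml L 0), LZF.UniversalIn Set.univ f ↔ Universal f := by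
    intro L f
    simp only [LZF.UniversalIn, Universal, LZF.RedIn, Red, hI, Set.mem_univ, true_implies, true_and]
  simp only [LZF.SIn, StatementS, hB, hU, Set.mem_univ, true_implies]

end Pool.Agent.RNI
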